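import Pool.Agent.W_7742z_h74.Dfs
import Pool.Agent.W_7742z_h74.Mrk

/-!
# Frobenius elements outside a set of density zero, and the rare bad classes

* `exists_frob`: as `Pool.Agent.GalSide.exists_frob_conj` (`W_7742e_h15/Chb.lean`) with a set `Z` of
  density zero instead of a finite set: the primes with Frobenius conjugate to `g` have a positive
  density (`Φ.chebotarev`), so they are not contained in `Z`.
* `card_bad`: `T` is a function on `G / U` with `T (x y) = T (y x)` and `T (frob p) = ι (b p)` for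
  `p ∉ Z`, `Z` of density zero.  Let `B` be the set of the `x` for which `T x` is not of the form
  `ι w` with `w` small.  `B` is stable under conjugation (`T (c x c⁻¹) = T x`).  If `p ∉ Z` and
  `frob p ∈ B` then `b p` is not small.  By `primeSum_large` and `HasDensity Z 0`,
  `primeSum ({p | ¬ Small H (b p)} ∪ Z) s ≤ (2 d / H² + d / H²) log (1 / (s - 1))` near `1`, and
  `card_le_of_frob` (`E = ∅`, `η = 3 d / H²`) gives `|B| ≤ 3 d / H² |G / U|`.  Compare
  `Pool.Agent.OneP74.exists_quot` (`W_7742y_h74/OrdB.lean`).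
-/

set_option autoImplicit false

noncomputable section

open Filter Topology NumberField

namespace Pool.Agent.OneI74

open Pool.Agent.GalSide

variable {G : Type} [Group G] [TopologicalSpace G] [IsTopologicalGroup G] [CompactSpace G]

theorem exists_frob (Φ : FrobeniusData G) (U : Subgroup G) [U.Normal] (hU : IsOpen (U : Set G))
    (g : G) {Z : Set Nat.Primes} (hZ : HasDensity Z 0) :
    ∃ p ∉ Z, IsConj (QuotientGroup.mk (Φ.frob p) : G ⧸ U) (QuotientGroup.mk g) := by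
  by_contra hcon
  push Not at hcon
  have hfin : Finite (G ⧸ U) := U.quotient_finite_of_isOpen hU
  have h1 := Φ.chebotarev U hU g
  have hsub : {p | IsConj (QuotientGroup.mk (Φ.frob p) : G ⧸ U) (QuotientGroup.mk g)} ⊆ Z := by
    intro p hp
    by_contra hpE
    exact hcon p hpE hp
  have h2 : HasDensity {p | IsConj (QuotientGroup.mk (Φ.frob p) : G ⧸ U) (QuotientGroup.mk g)}
      0 := by
    unfold HasDensity at hZ ⊢
    refine tendsto_of_tendsto_of_tendsto_of_le_of_le' tendsto_const_nhds hZ ?_ ?_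
    · filter_upwards [Chb_log.eventually_gt_atTop 0] with s hs
      exact div_nonneg (Chb_nonneg _ _) hs.le
    · filter_upwards [Chb_log.eventually_gt_atTop 0, Chb_gt] with s hs hs1
      exact div_le_div_of_nonneg_right (Chb_mono hs1 hsub) hs.le
  have h3 := tendsto_nhds_unique h1 h2
  have h4 : 0 < Nat.card {x : G ⧸ U // IsConj x (QuotientGroup.mk g)} := by
    have : Nonempty {x : G ⧸ U // IsConj x (QuotientGroup.mk g)} :=
      ⟨⟨QuotientGroup.mk g, IsConj.refl _⟩⟩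
    exact Nat.card_pos
  have h5 : 0 < Nat.card (G ⧸ U) := Nat.card_pos
  have h6 : (0 : ℝ) < (Nat.card {x : G ⧸ U // IsConj x (QuotientGroup.mk g)} : ℝ) /
      (Nat.card (G ⧸ U) : ℝ) := by
    positivity
  linarith

theorem card_bad (Φ : FrobeniusData G) {K : Type} [Field K] [NumberField K]
    (b : Nat.Primes → 𝓞 K)
    (hRS : ∀ σ : K →+* ℂ, ∀ ε : ℝ, 0 < ε → LogBound (1 + ε) (fun p => ‖σ (b p : K)‖ ^ 2))
    (U : Subgroup G) [U.Normal] (hU : IsOpen (U : Set G)) {A : Type} [CommRing A] (ι : 𝓞 K →+* A)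
    (T : G ⧸ U → A) (hT : ∀ x y, T (x * y) = T (y * x)) {Z : Set Nat.Primes}
    (hZ : HasDensity Z 0) (h : ∀ p ∉ Z, T (QuotientGroup.mk (Φ.frob p)) = ι (b p))
    {H : ℕ} (hH : 0 < H) :
    H ^ 2 * Nat.card {x : G ⧸ U // ¬ ∃ w : 𝓞 K, Small H w ∧ ι w = T x} ≤
      3 * Module.finrank ℚ K * Nat.card (G ⧸ U) := by
  have hfin : Finite (G ⧸ U) := U.quotient_finite_of_isOpen hU
  obtain ⟨d, hd⟩ : ∃ d : ℕ, d = Module.finrank ℚ K := ⟨_, rfl⟩
  have hd1 : 0 < d := by
    rw [hd]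
    exact Module.finrank_pos
  have hd1' : (0 : ℝ) < (d : ℝ) := by exact_mod_cast hd1
  have hH' : (0 : ℝ) < (H : ℝ) := by exact_mod_cast hH
  obtain ⟨B, hB⟩ : ∃ B : Set (G ⧸ U), B = {x | ¬ ∃ w : 𝓞 K, Small H w ∧ ι w = T x} := ⟨_, rfl⟩
  have hBm : ∀ x, x ∈ B ↔ ¬ ∃ w : 𝓞 K, Small H w ∧ ι w = T x := by
    intro x
    rw [hB]
    exact Iff.rfl
  have hBc : ∀ x ∈ B, ∀ y, IsConj x y → y ∈ B := by
    intro x hx y hxy
    obtain ⟨c, rfl⟩ := isConj_iff.mp hxy
    rw [hBm] at hx ⊢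
    have e : T (c * x * c⁻¹) = T x := by
      rw [hT, inv_mul_cancel_left]
    rw [e]
    exact hx
  have hXs : ∀ᶠ s : ℝ in 𝓝[>] 1,
      primeSum ({p | ¬ ∀ σ : K →+* ℂ, ‖σ (b p : K)‖ ≤ (H : ℝ)} ∪ Z) s ≤
        (3 * (d : ℝ) / (H : ℝ) ^ 2) * Real.log (1 / (s - 1)) := by
    have hZ' : ∀ᶠ s : ℝ in 𝓝[>] 1, primeSum Z s / Real.log (1 / (s - 1)) < (d : ℝ) / (H : ℝ) ^ 2 :=
      (tendsto_order.1 hZ).2 _ (by positivity)
    filter_upwards [primeSum_large b hRS hH, hZ', Chb_gt, Chb_log.eventually_gt_atTop 0]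
      with s h1 h2 hs hl
    rw [div_lt_iff₀ hl] at h2
    rw [← hd] at h1
    refine (Chb_union hs _ _).trans ?_
    have e : (3 * (d : ℝ) / (H : ℝ) ^ 2) * Real.log (1 / (s - 1)) =
        2 * (d : ℝ) / (H : ℝ) ^ 2 * Real.log (1 / (s - 1)) +
          (d : ℝ) / (H : ℝ) ^ 2 * Real.log (1 / (s - 1)) := by
      ring
    rw [e]
    exact add_le_add h1 h2.le
  have hcard := card_le_of_frob Φ U hU B hBc _ ∅ Set.finite_empty _ hXs (fun p _ hp => by
    rw [hBm] at hp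
    by_contra hcon
    rw [Set.mem_union, not_or, Set.mem_ofPred_eq, not_not] at hcon
    exact hp ⟨b p, hcon.1, (h p hcon.2).symm⟩)
  have hc : (Nat.card {x : G ⧸ U // ¬ ∃ w : 𝓞 K, Small H w ∧ ι w = T x}) = Nat.card B := by
    rw [hB]
    rfl
  rw [hc, ← hd]
  have h1 : ((H : ℝ) ^ 2) * (Nat.card B : ℝ) ≤ 3 * (d : ℝ) * (Nat.card (G ⧸ U) : ℝ) := by
    calc ((H : ℝ) ^ 2) * (Nat.card B : ℝ)
        ≤ ((H : ℝ) ^ 2) * (3 * (d : ℝ) / (H : ℝ) ^ 2 * (Nat.card (G ⧸ U) : ℝ)) :=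
          mul_le_mul_of_nonneg_left hcard (by positivity)
      _ = 3 * (d : ℝ) * (Nat.card (G ⧸ U) : ℝ) := by field_simp
  exact_mod_cast h1

end Pool.Agent.OneI74
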