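import Pool.Agent.W_7742z_h74.Dfs

/-!
# Formal properties of `pol`

All by induction on `k` with `pol_succ`:

* `pol_map`: ring homomorphisms (`map_sub`, `map_mul`, `map_sum`).
* `pol_comp`: `T ∘ f` for a map `f` which respects products; `f ∘ Function.update .. = Function.update ..`
  (`Function.comp_update`), `f ∘ Fin.tail x = Fin.tail (f ∘ x)`.
* `norm_pol_le`: if `|T y| ≤ B` for all `y` (`B ≥ 0` follows if `M` is nonempty; it is assumed) then
  `|pol T k x| ≤ (B + k) ^ k`: by induction `|pol T (k+1) x| ≤ B (B + k) ^ k + k (B + k) ^ k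
  = (B + k) ^ (k + 1) ≤ (B + k + 1) ^ (k + 1)`.
* `pol_idem`: for an idempotent `e`, `pol T k (e, ..., e) = T e (T e - 1) ... (T e - (k - 1))`:
  `Function.update (fun _ => e) a (e * e) = fun _ => e` (`Function.update_eq_self`), so
  `pol T (k + 1) = T e * P_k - k * P_k`.
-/

set_option autoImplicit false

noncomputable section

namespace Pool.Agent.OneI74

theorem pol_map {M A B : Type} [Mul M] [CommRing A] [CommRing B] (φ : A →+* B) (T : M → A)
    (k : ℕ) (x : Fin k → M) : φ (pol T k x) = pol (fun y => φ (T y)) k x := by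
  induction k with
  | zero => rw [pol_zero, pol_zero, map_one]
  | succ k ih =>
    rw [pol_succ, pol_succ, map_sub, map_mul, map_sum, ih]
    simp only [ih]

theorem pol_comp {M M' A : Type} [Mul M] [Mul M'] [CommRing A] (f : M → M')
    (hf : ∀ x y, f (x * y) = f x * f y) (T : M' → A) (k : ℕ) (x : Fin k → M) :
    pol (fun y => T (f y)) k x = pol T k (fun a => f (x a)) := by
  induction k with
  | zero => rw [pol_zero, pol_zero]
  | succ k ih =>
    rw [pol_succ, pol_succ, ih]
    have h1 : (fun a => f (Fin.tail x a)) = Fin.tail (fun a => f (x a)) := rfl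
    rw [h1]
    congr 1
    refine Finset.sum_congr rfl fun a _ => ?_
    rw [ih]
    congr 1
    have h2 := Function.comp_update f (Fin.tail x) a (x a.succ * x 0)
    rw [hf] at h2
    exact h2

theorem norm_pol_le {M : Type} [Mul M] (T : M → ℂ) {B : ℝ} (hB0 : 0 ≤ B) (hB : ∀ y, ‖T y‖ ≤ B)
    (k : ℕ) (x : Fin k → M) : ‖pol T k x‖ ≤ (B + k) ^ k := by
  induction k with
  | zero => rw [pol_zero]; simp
  | succ k ih =>
    have hk : (0 : ℝ) ≤ k := Nat.cast_nonneg k
    rw [pol_succ]
    have h1 : ‖T (x 0) * pol T k (Fin.tail x)‖ ≤ B * (B + k) ^ k := by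
      rw [norm_mul]
      exact mul_le_mul (hB _) (ih _) (norm_nonneg _) hB0
    have h2 : ‖∑ a : Fin k, pol T k (Function.update (Fin.tail x) a (x a.succ * x 0))‖ ≤
        k * (B + k) ^ k := by
      refine (norm_sum_le _ _).trans ?_
      refine (Finset.sum_le_sum fun a _ => ih _).trans ?_
      rw [Finset.sum_const, Finset.card_univ, Fintype.card_fin, nsmul_eq_mul]
    have h3 : B * (B + k) ^ k + k * (B + k) ^ k = (B + k) ^ (k + 1) := by
      rw [pow_succ]
      ring
    have h4 : (B + k) ^ (k + 1) ≤ (B + ((k + 1 : ℕ) : ℝ)) ^ (k + 1) := by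
      apply pow_le_pow_left₀ (by linarith)
      push_cast
      linarith
    refine (norm_sub_le _ _).trans ?_
    linarith

theorem pol_idem {M A : Type} [Mul M] [CommRing A] (T : M → A) {e : M} (he : e * e = e) (k : ℕ) :
    pol T k (fun _ => e) = ∏ j ∈ Finset.range k, (T e - (j : A)) := by
  induction k with
  | zero => rw [pol_zero, Finset.range_zero, Finset.prod_empty]
  | succ k ih =>
    rw [pol_succ, Finset.prod_range_succ]
    have h1 : Fin.tail (fun _ : Fin (k + 1) => e) = fun _ : Fin k => e := rfl
    have h2 : ∀ a : Fin k, Function.update (fun _ : Fin k => e) a (e * e) = fun _ => e := by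
      intro a
      rw [he]
      exact Function.update_eq_self a _
    rw [h1, ih]
    have h3 : ∑ a : Fin k, pol T k (Function.update (fun _ : Fin k => e) a (e * e)) =
        k * ∏ j ∈ Finset.range k, (T e - (j : A)) := by
      rw [Finset.sum_congr rfl fun a _ => by rw [h2 a, ih]]
      rw [Finset.sum_const, Finset.card_univ, Fintype.card_fin, nsmul_eq_mul]
    rw [h3]
    ring

end Pool.Agent.OneI74
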