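import Mathlib

/-!
# Gram determinants of matrices

Over a commutative ring `A`, for `n × n` matrices `U i`, `V j`, `i, j < m`, `m > n²`, the determinant
of `(tr (U i V j))` vanishes: the matrix is the product of the `m × n²` matrix of the entries of the
`U i` and the `n² × m` matrix of the (transposed) entries of the `V j`.  More generally, if the
`m × m` matrix is `P * Q` with `P` of size `m × k`, `Q` of size `k × m`, `k < m`, then its determinant is
`0`: add zero columns to `P` and zero rows to `Q` to get square matrices `P'`, `Q'` with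
`P' * Q' = P * Q`; `det P' = 0` (`Matrix.det_eq_zero_of_column_eq_zero`), `Matrix.det_mul`.

* `det_gram_pair`: for pairs of matrices of sizes `a`, `b` and `m > a² + b²`, the determinant of
  `(tr (U i V j) + tr (U' i V' j))` vanishes (`k = a² + b²`).
-/

set_option autoImplicit false

noncomputable section

namespace Pool.Agent.OneI74

variable {A : Type} [CommRing A]

theorem det_mul_eq_zero {m k : ℕ} (h : k < m) (P : Matrix (Fin m) (Fin k) A)
    (Q : Matrix (Fin k) (Fin m) A) : (P * Q).det = 0 := by
  obtain ⟨l, rfl⟩ : ∃ l, m = k + (l + 1) := ⟨m - k - 1, by omega⟩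
  have h1 : P * Q = (Matrix.fromCols P (0 : Matrix (Fin (k + (l + 1))) (Fin (l + 1)) A)).submatrix id
      finSumFinEquiv.symm * (Matrix.fromRows Q (0 : Matrix (Fin (l + 1)) (Fin (k + (l + 1))) A)).submatrix
      finSumFinEquiv.symm id := by
    rw [Matrix.submatrix_mul_equiv, Matrix.fromCols_mul_fromRows, Matrix.zero_mul, add_zero,
      Matrix.submatrix_id_id]
  rw [h1, Matrix.det_mul, Matrix.det_eq_zero_of_column_eq_zero (Fin.natAdd k (0 : Fin (l + 1))),
    zero_mul]
  intro i
  rw [Matrix.submatrix_apply, finSumFinEquiv_symm_apply_natAdd, Matrix.fromCols_apply_inr,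
    Matrix.zero_apply]

theorem Gram_det {m : ℕ} {κ : Type} [Fintype κ] (h : Fintype.card κ < m) (P : Matrix (Fin m) κ A)
    (Q : Matrix κ (Fin m) A) : (P * Q).det = 0 := by
  have h1 : P * Q = P.submatrix id (Fintype.equivFin κ).symm *
      Q.submatrix (Fintype.equivFin κ).symm id := by
    rw [Matrix.submatrix_mul_equiv, Matrix.submatrix_id_id]
  rw [h1]
  exact det_mul_eq_zero h _ _

theorem det_gram {m n : ℕ} (h : n ^ 2 < m) (U V : Fin m → Matrix (Fin n) (Fin n) A) :
    (Matrix.of fun i j => (U i * V j).trace).det = 0 := by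
  have h1 : (Matrix.of fun i j => (U i * V j).trace) =
      (Matrix.of fun i (x : Fin n × Fin n) => U i x.1 x.2) *
        (Matrix.of fun (x : Fin n × Fin n) j => V j x.2 x.1) := by
    ext i j
    rw [Matrix.mul_apply, Fintype.sum_prod_type]
    rfl
  rw [h1]
  refine Gram_det ?_ _ _
  rw [Fintype.card_prod, Fintype.card_fin, ← sq]
  exact h

theorem det_gram_pair {m a b : ℕ} (h : a ^ 2 + b ^ 2 < m) (U V : Fin m → Matrix (Fin a) (Fin a) A)
    (U' V' : Fin m → Matrix (Fin b) (Fin b) A) :
    (Matrix.of fun i j => (U i * V j).trace + (U' i * V' j).trace).det = 0 := by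
  have h1 : (Matrix.of fun i j => (U i * V j).trace + (U' i * V' j).trace) =
      (Matrix.of fun i (x : (Fin a × Fin a) ⊕ (Fin b × Fin b)) =>
        Sum.elim (fun y => U i y.1 y.2) (fun y => U' i y.1 y.2) x) *
        (Matrix.of fun (x : (Fin a × Fin a) ⊕ (Fin b × Fin b)) j =>
          Sum.elim (fun y => V j y.2 y.1) (fun y => V' j y.2 y.1) x) := by
    ext i j
    rw [Matrix.mul_apply, Fintype.sum_sum_type, Fintype.sum_prod_type, Fintype.sum_prod_type]
    rfl
  rw [h1]
  refine Gram_det ?_ _ _
  rw [Fintype.card_sum, Fintype.card_prod, Fintype.card_prod, Fintype.card_fin, Fintype.card_fin,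
    ← sq, ← sq]
  exact h

end Pool.Agent.OneI74
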