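import Pool.Agent.W_7742z_h74.Dfs

/-!
# Polarized exterior powers of the trace of matrices

`A` is a commutative ring.

* `pol_trace`: `pol tr k x = ∑_i det ((x a) (i a) (i b))_{a, b < k}`, the sum over all
  `i : Fin k → Fin n`.
  Proof by induction on `k`.  Expand the determinant of size `k + 1` along the column `0`
  (`Matrix.det_succ_column_zero`): the entry in the row `0` is `(x 0) (i 0) (i 0)` and its cofactor is
  the determinant for `Fin.tail x`, `Fin.tail i`: the sum over `i 0` gives `tr (x 0)`.  The entry in the
  row `a.succ` is `(x a.succ) (i a.succ) (i 0)`, and its cofactor is minus the determinant of the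
  matrix `N = ((x c.succ) (i c.succ) (i b.succ))_{c, b < k}` with the row `a` replaced by the row
  `((x 0) (i 0) (i b.succ))_b` (the minor has this row as its first row; moving it to the position `a`
  costs the sign `(-1) ^ a`).  The determinant is linear in the row `a`
  (`Matrix.det_updateRow_sum`, `Matrix.det_updateRow_smul`), and
  `∑_{i 0} (x a.succ) (i a.succ) (i 0) * (x 0) (i 0) (i b.succ) = (x a.succ * x 0) (i a.succ) (i b.succ)`,
  so the sum over `i 0` is the determinant for
  `Function.update (Fin.tail x) a (x a.succ * x 0)` and `Fin.tail i`.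
  (`Fin.consEquiv`, `Fin.insertNthEquiv`, `Fintype.sum_equiv` to split the sum over `i` into the sums
  over `i 0` and `Fin.tail i`.)
  Instead of the cofactors one may use `Matrix.updateCol`/`Matrix.cramer`/`adjugate` or any other way.
* `pol_trace_succ`: `pol tr (n + 1) x = 0`: every `i : Fin (n + 1) → Fin n` takes the same value at two
  places `a ≠ b`, and the columns `a` and `b` are equal (`Matrix.det_zero_of_column_eq`).
* `pol_trace_self`: `pol tr n (x, ..., x) = n! det x`: the terms with `i` not injective vanish in the same
  way, and for a permutation `i` the determinant is `det x` (`Matrix.det_submatrix_equiv_self`); there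
  are `n!` permutations (`Fintype.card_perm`).
-/

set_option autoImplicit false

noncomputable section

namespace Pool.Agent.OneI74

variable {A : Type} [CommRing A] {n : ℕ}

/-- The cofactor of the entry `(a.succ, 0)`, written as minus the determinant of the lower right
block with the row `a` replaced by the first row. -/
theorem cofactor_succ {k : ℕ} (M : Matrix (Fin (k + 1)) (Fin (k + 1)) A) (a : Fin k) :
    (-1 : A) ^ ((a.succ : Fin (k + 1)) : ℕ) * (M.submatrix a.succ.succAbove Fin.succ).det =
      -((M.submatrix Fin.succ Fin.succ).updateRow a (fun b => M 0 b.succ)).det := by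
  classical
  set M' : Matrix (Fin (k + 1)) (Fin (k + 1)) A :=
    M.updateCol 0 (Pi.single a.succ 1) with hM'
  have h00 : ∀ i, M' i 0 = (Pi.single a.succ (1 : A) : Fin (k + 1) → A) i := by
    intro i
    simp [hM']
  have hs : ∀ i (b : Fin k), M' i b.succ = M i b.succ := by
    intro i b
    rw [hM', Matrix.updateCol_apply, if_neg (Fin.succ_ne_zero b)]
  have h1 : M'.det =
      (-1 : A) ^ ((a.succ : Fin (k + 1)) : ℕ) *
        (M.submatrix a.succ.succAbove Fin.succ).det := by
    rw [Matrix.det_succ_column_zero, Finset.sum_eq_single a.succ]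
    · rw [h00, Pi.single_eq_same, mul_one]
      have e : M'.submatrix a.succ.succAbove Fin.succ =
          M.submatrix a.succ.succAbove Fin.succ := by
        ext c b
        rw [Matrix.submatrix_apply, Matrix.submatrix_apply, hs]
      rw [e]
    · intro i _ hi
      rw [h00, Pi.single_eq_of_ne hi, mul_zero, zero_mul]
    · intro h
      exact absurd (Finset.mem_univ _) h
  have h2 : (M'.submatrix (Equiv.swap 0 a.succ) id).det = -M'.det := by
    rw [Matrix.det_permute, Equiv.Perm.sign_swap (Fin.succ_ne_zero a).symm]
    simp
  have h3 : (M'.submatrix (Equiv.swap 0 a.succ) id).det =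
      ((M.submatrix Fin.succ Fin.succ).updateRow a (fun b => M 0 b.succ)).det := by
    rw [Matrix.det_succ_column_zero, Finset.sum_eq_single 0]
    · have e0 : (M'.submatrix (Equiv.swap 0 a.succ) id) 0 0 = 1 := by
        rw [Matrix.submatrix_apply, Equiv.swap_apply_left, id, h00, Pi.single_eq_same]
      rw [e0]
      simp only [Fin.val_zero, pow_zero, one_mul]
      congr 1
      ext c b
      rw [Matrix.submatrix_apply, Matrix.submatrix_apply, id, hs, Fin.zero_succAbove]
      by_cases hc : c = a
      · subst hc
        rw [Equiv.swap_apply_right, Matrix.updateRow_self]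
      · rw [Equiv.swap_apply_of_ne_of_ne (Fin.succ_ne_zero c)
          (fun h => hc (Fin.succ_injective _ h)), Matrix.updateRow_ne hc,
          Matrix.submatrix_apply]
    · intro i _ hi
      have e0 : (M'.submatrix (Equiv.swap 0 a.succ) id) i 0 = 0 := by
        rw [Matrix.submatrix_apply, id, h00, Pi.single_eq_of_ne]
        intro h
        apply hi
        have := congrArg (Equiv.swap (0 : Fin (k + 1)) a.succ) h
        rwa [Equiv.swap_apply_self, Equiv.swap_apply_right] at this
      rw [e0, mul_zero, zero_mul]
    · intro h
      exact absurd (Finset.mem_univ _) h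
  rw [← h1, ← h3, h2, neg_neg]

/-- Expansion of a determinant along the first column, with the minors written as determinants of
row updates of the lower right block. -/
theorem det_expand {k : ℕ} (M : Matrix (Fin (k + 1)) (Fin (k + 1)) A) :
    M.det = M 0 0 * (M.submatrix Fin.succ Fin.succ).det -
      ∑ a : Fin k, M a.succ 0 *
        ((M.submatrix Fin.succ Fin.succ).updateRow a (fun b => M 0 b.succ)).det := by
  rw [Matrix.det_succ_column_zero, Fin.sum_univ_succ, sub_eq_add_neg, ← Finset.sum_neg_distrib]
  congr 1
  · simp only [Fin.val_zero, pow_zero, one_mul]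
    congr 2
  · apply Finset.sum_congr rfl
    intro a _
    rw [mul_right_comm, cofactor_succ]
    ring

/-- The determinant is linear in a row: the version with a finite sum. -/
theorem det_updateRow_lin {k : ℕ} (N : Matrix (Fin k) (Fin k) A) (a : Fin k) {ι : Type}
    (s : Finset ι) (c : ι → A) (v : ι → Fin k → A) :
    ∑ p ∈ s, c p * (N.updateRow a (v p)).det =
      (N.updateRow a (fun b => ∑ p ∈ s, c p * v p b)).det := by
  classical
  have key : ∀ w : Fin k → A, (N.updateRow a w).det =
      (Matrix.detRowAlternating (R := A) (n := Fin k)).toMultilinearMap.toLinearMap N a w :=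
    fun w => rfl
  have hv : (fun b => ∑ p ∈ s, c p * v p b) = ∑ p ∈ s, c p • v p := by
    funext b
    rw [Finset.sum_apply]
    rfl
  rw [hv, key, map_sum]
  apply Finset.sum_congr rfl
  intro p _
  rw [map_smul, smul_eq_mul, key]

theorem pol_trace (k : ℕ) (x : Fin k → Matrix (Fin n) (Fin n) A) :
    pol (fun y : Matrix (Fin n) (Fin n) A => y.trace) k x =
      ∑ i : Fin k → Fin n, (Matrix.of fun a b : Fin k => (x a) (i a) (i b)).det := by
  classical
  induction k with
  | zero =>
    rw [pol_zero]
    simp
  | succ k ih =>
    rw [pol_succ, ih]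
    have hsum : ∑ i : Fin (k + 1) → Fin n,
        (Matrix.of fun a b : Fin (k + 1) => (x a) (i a) (i b)).det =
        ∑ j : Fin k → Fin n, ∑ p : Fin n,
        (Matrix.of fun a b : Fin (k + 1) =>
          (x a) ((Fin.cons p j : Fin (k + 1) → Fin n) a)
            ((Fin.cons p j : Fin (k + 1) → Fin n) b)).det := by
      rw [← (Fin.consEquiv (fun _ : Fin (k + 1) => Fin n)).sum_comp, Fintype.sum_prod_type,
        Finset.sum_comm]
      rfl
    rw [hsum]
    have hone : ∀ j : Fin k → Fin n, ∑ p : Fin n,
        (Matrix.of fun a b : Fin (k + 1) =>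
          (x a) ((Fin.cons p j : Fin (k + 1) → Fin n) a)
            ((Fin.cons p j : Fin (k + 1) → Fin n) b)).det =
        (x 0).trace * (Matrix.of fun a b : Fin k => (Fin.tail x a) (j a) (j b)).det -
        ∑ a : Fin k, (Matrix.of fun c b : Fin k =>
          (Function.update (Fin.tail x) a (x a.succ * x 0) c) (j c) (j b)).det := by
      intro j
      set N : Matrix (Fin k) (Fin k) A :=
        Matrix.of fun a b : Fin k => (Fin.tail x a) (j a) (j b) with hN
      have hp : ∀ p : Fin n,
          (Matrix.of fun a b : Fin (k + 1) =>
          (x a) ((Fin.cons p j : Fin (k + 1) → Fin n) a)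
            ((Fin.cons p j : Fin (k + 1) → Fin n) b)).det =
          x 0 p p * N.det - ∑ a : Fin k, x a.succ (j a) p *
            (N.updateRow a (fun b => x 0 p (j b))).det := by
        intro p
        rw [det_expand]
        rfl
      rw [Finset.sum_congr rfl (fun p _ => hp p), Finset.sum_sub_distrib, ← Finset.sum_mul,
        Finset.sum_comm]
      congr 1
      apply Finset.sum_congr rfl
      intro a _
      rw [det_updateRow_lin]
      congr 1
      ext c b
      by_cases hc : c = a
      · subst hc
        rw [Matrix.updateRow_self, Matrix.of_apply, Function.update_self, Matrix.mul_apply]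
      · rw [Matrix.updateRow_ne hc, Matrix.of_apply, Function.update_of_ne hc]
        rfl
    rw [Finset.sum_congr rfl (fun j _ => hone j), Finset.sum_sub_distrib, ← Finset.mul_sum,
      Finset.sum_comm]
    congr 1
    apply Finset.sum_congr rfl
    intro a _
    rw [ih]

theorem pol_trace_succ (x : Fin (n + 1) → Matrix (Fin n) (Fin n) A) :
    pol (fun y : Matrix (Fin n) (Fin n) A => y.trace) (n + 1) x = 0 := by
  rw [pol_trace]
  apply Finset.sum_eq_zero
  intro i _
  obtain ⟨a, b, hab, h⟩ := Fintype.exists_ne_map_eq_of_card_lt i (by simp)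
  apply Matrix.det_zero_of_column_eq hab
  intro c
  rw [Matrix.of_apply, Matrix.of_apply, h]

theorem pol_trace_self (x : Matrix (Fin n) (Fin n) A) :
    pol (fun y : Matrix (Fin n) (Fin n) A => y.trace) n (fun _ => x) =
      (n.factorial : A) * x.det := by
  classical
  rw [pol_trace]
  have h0 : ∀ i ∈ (Finset.univ : Finset (Fin n → Fin n)),
      i ∉ Finset.image (fun σ : Equiv.Perm (Fin n) => (fun a => σ a : Fin n → Fin n))
        Finset.univ →
      (Matrix.of fun a b : Fin n => x (i a) (i b)).det = 0 := by
    intro i _ hi
    have hni : ¬ Function.Injective i := by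
      intro hinj
      apply hi
      rw [Finset.mem_image]
      exact ⟨Equiv.ofBijective i (Finite.injective_iff_bijective.mp hinj), Finset.mem_univ _, rfl⟩
    have : ∃ a b, i a = i b ∧ a ≠ b := by
      by_contra hcon
      apply hni
      intro a b hab
      by_contra hne
      exact hcon ⟨a, b, hab, hne⟩
    obtain ⟨a, b, h, hab⟩ := this
    apply Matrix.det_zero_of_column_eq hab
    intro c
    rw [Matrix.of_apply, Matrix.of_apply, h]
  rw [← Finset.sum_subset (Finset.subset_univ _) h0, Finset.sum_image]
  · have h1 : ∀ σ ∈ (Finset.univ : Finset (Equiv.Perm (Fin n))),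
        (Matrix.of fun a b : Fin n => x (σ a) (σ b)).det = x.det := by
      intro σ _
      exact Matrix.det_submatrix_equiv_self σ x
    rw [Finset.sum_congr rfl h1, Finset.sum_const, Finset.card_univ, Fintype.card_perm,
      Fintype.card_fin, nsmul_eq_mul]
  · intro σ _ τ _ h
    exact Equiv.ext fun a => congrFun h a

end Pool.Agent.OneI74
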