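import Pool.Agent.W_7742y_h74.OrdB

/-!
# The number of translates of the trace

As `Pool.Agent.OneP74.exists_quot` (file `W_7742y_h74/OrdB.lean`), for one representation over an
arbitrary field `κ` (of any characteristic): the functions `h ↦ tr r(g h)`, `g ∈ G`, are finitely many,
at most `ord n d`.

Proof.  Copy the first part of the proof of `exists_quot`: `U` is the set of the `g` with
`tr r(g h) = tr r(h)` for all `h`, an open normal subgroup, and `Nat.card (G ⧸ U) ≤ ord n d` by
`card_bounded`, `card_le_of_frob`, `primeSum_large` and `card_quot_le`; the assumption on the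
characteristic is only used there for the semisimple representations of the quotient.  The function
`h ↦ tr r(g h)` depends only on the class of `g` in `G ⧸ U`: `tr r(g u h) = tr r(u h g) = tr r(h g)
= tr r(g h)` for `u ∈ U`.  So the range is the image of the finite type `G ⧸ U`
(compare `Pool.Agent.OneP74.final_image` in `W_7742y_h74/Fin.lean` for the last step).
-/

set_option autoImplicit false

noncomputable section

open Filter Topology NumberField

namespace Pool.Agent.OneI74

open Pool.Agent.GalSide Pool.Agent.OneP74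

variable {G : Type} [Group G] [TopologicalSpace G] [IsTopologicalGroup G] [CompactSpace G]

theorem ncard_range_le (Φ : FrobeniusData G) {K : Type} [Field K] [NumberField K]
    (b : Nat.Primes → 𝓞 K)
    (hRS : ∀ σ : K →+* ℂ, ∀ ε : ℝ, 0 < ε → LogBound (1 + ε) (fun p => ‖σ (b p : K)‖ ^ 2))
    {κ : Type} [Field κ] (φ : 𝓞 K →+* κ) {n : ℕ} (hn : 0 < n)
    (r : G →* Matrix (Fin n) (Fin n) κ) (hr : IsOpen ({g | r g = 1} : Set G))
    (hZ : HasDensity {p | (r (Φ.frob p)).trace ≠ φ (b p)} 0) :
    (Set.range fun g h : G => (r (g * h)).trace).Finite ∧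
      (Set.range fun g h : G => (r (g * h)).trace).ncard ≤ ord n (Module.finrank ℚ K) := by
  classical
  -- cyclic invariance of the trace
  have hcyc : ∀ g h : G, (r (g * h)).trace = (r (h * g)).trace := by
    intro g h
    rw [map_mul, map_mul, Matrix.trace_mul_comm]
  let U : Subgroup G :=
    { carrier := {g | ∀ h, (r (g * h)).trace = (r h).trace}
      one_mem' := fun h => by rw [one_mul]
      mul_mem' := by
        intro g g' hg hg' h
        rw [mul_assoc, hg, hg']
      inv_mem' := by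
        intro g hg h
        rw [← hg (g⁻¹ * h), mul_inv_cancel_left] }
  have hUm : ∀ g, g ∈ U ↔ ∀ h, (r (g * h)).trace = (r h).trace := fun g => Iff.rfl
  have hnorm : U.Normal := by
    refine ⟨fun g hg k h => ?_⟩
    have e1 : k * g * k⁻¹ * h = k * (g * (k⁻¹ * h)) := by group
    rw [e1, hcyc, mul_assoc, hg, mul_assoc, hcyc, mul_assoc, mul_inv_cancel, mul_one]
  have hUo : IsOpen (U : Set G) := by
    refine U.isOpen_of_mem_nhds (g := 1) ?_
    refine Filter.mem_of_superset (hr.mem_nhds (map_one r)) ?_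
    intro g hg h
    have hg1 : r g = 1 := hg
    rw [map_mul, hg1, one_mul]
  have hfin : Finite (G ⧸ U) := U.quotient_finite_of_isOpen hUo
  have hbound : Nat.card (G ⧸ U) ≤ ord n (Module.finrank ℚ K) := by
    obtain ⟨hWf, hWc⟩ := card_bounded K (2 * n * Module.finrank ℚ K)
      (Nat.mul_pos (Nat.mul_pos two_pos hn) Module.finrank_pos)
    set W0 : Set (𝓞 K) := {x : 𝓞 K | ∀ σ : K →+* ℂ, ‖σ (x : K)‖ ≤
      ((2 * n * Module.finrank ℚ K : ℕ) : ℝ)} with hW0
    let W : Finset κ := hWf.toFinset.image φ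
    have hWm : ∀ x ∈ W0, φ x ∈ W := fun x hx =>
      Finset.mem_image_of_mem _ (hWf.mem_toFinset.2 hx)
    have hWcard : W.card ≤ cnt n (Module.finrank ℚ K) := by
      refine Finset.card_image_le.trans ?_
      rw [← Set.ncard_eq_toFinset_card W0 hWf]
      refine hWc.trans (le_of_eq ?_)
      rw [cnt]
      congr 5
      ring
    have hWne : W.Nonempty := by
      refine ⟨φ 0, hWm 0 fun σ => ?_⟩
      have h0 : ((0 : 𝓞 K) : K) = 0 := rfl
      rw [h0, map_zero, norm_zero]
      exact Nat.cast_nonneg _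
    have hTc : ∀ g u : G, u ∈ U → (r (g * u)).trace = (r g).trace := by
      intro g u hu
      rw [hcyc, hu]
    obtain ⟨B, hB⟩ : ∃ B : Set (G ⧸ U), B = {x | ∃ g : G, QuotientGroup.mk g = x ∧
      (r g).trace ∉ W} := ⟨_, rfl⟩
    have hBm : ∀ g : G, (QuotientGroup.mk g : G ⧸ U) ∈ B ↔ (r g).trace ∉ W := by
      intro g
      rw [hB]
      constructor
      · rintro ⟨g', hg', h'⟩
        have h1 : g'⁻¹ * g ∈ U := QuotientGroup.eq.mp hg'
        have h2 := hTc g' _ h1
        rw [mul_inv_cancel_left] at h2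
        rwa [h2]
      · intro h
        exact ⟨g, rfl, h⟩
    have hBc : ∀ x ∈ B, ∀ y, IsConj x y → y ∈ B := by
      intro x hx y hxy
      obtain ⟨c, rfl⟩ := isConj_iff.mp hxy
      obtain ⟨c, rfl⟩ := QuotientGroup.mk_surjective c
      obtain ⟨g, rfl⟩ := QuotientGroup.mk_surjective x
      rw [hBm] at hx
      rw [← QuotientGroup.mk_inv, ← QuotientGroup.mk_mul, ← QuotientGroup.mk_mul, hBm, hcyc,
        inv_mul_cancel_left]
      exact hx
    have hn2 : (0 : ℝ) < (n : ℝ) ^ 2 := by positivity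
    have hXs : ∀ᶠ s : ℝ in 𝓝[>] 1, primeSum ({p | ¬ ∀ σ : K →+* ℂ, ‖σ (b p : K)‖ ≤
        ((2 * n * Module.finrank ℚ K : ℕ) : ℝ)} ∪
        {p | (r (Φ.frob p)).trace ≠ φ (b p)}) s ≤
        (1 / (2 * (n : ℝ) ^ 2)) * Real.log (1 / (s - 1)) := by
      have hZ' : ∀ᶠ s : ℝ in 𝓝[>] 1, primeSum {p | (r (Φ.frob p)).trace ≠ φ (b p)} s / Real.log (1 / (s - 1)) < 1 / (8 * (n : ℝ) ^ 2) :=
        (tendsto_order.1 hZ).2 _ (by positivity)
      filter_upwards [primeSum_large b hRS hn, hZ', Chb_gt, Chb_log.eventually_gt_atTop 0]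
        with s h1 h2 hs hl
      rw [div_lt_iff₀ hl] at h2
      refine (Chb_union hs _ _).trans ?_
      have e : (1 / (2 * (n : ℝ) ^ 2)) * Real.log (1 / (s - 1)) =
          3 / (8 * (n : ℝ) ^ 2) * Real.log (1 / (s - 1)) +
            1 / (8 * (n : ℝ) ^ 2) * Real.log (1 / (s - 1)) := by
        field_simp
        ring
      rw [e]
      exact add_le_add h1 h2.le
    have hcard := card_le_of_frob Φ U hUo B hBc _ ∅ Set.finite_empty _ hXs (fun p _ hp => by
      rw [hBm] at hp
      by_contra hcon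
      rw [Set.mem_union, not_or, Set.mem_setOf_eq, Set.mem_setOf_eq, not_not, not_not] at hcon
      apply hp
      rw [hcon.2]
      exact hWm _ hcon.1)
    have hc : 2 * n ^ 2 * Nat.card B ≤ Nat.card (G ⧸ U) := by
      have h1 : (2 * (n : ℝ) ^ 2) * (Nat.card B : ℝ) ≤ (Nat.card (G ⧸ U) : ℝ) := by
        calc (2 * (n : ℝ) ^ 2) * (Nat.card B : ℝ)
            ≤ (2 * (n : ℝ) ^ 2) * (1 / (2 * (n : ℝ) ^ 2) * (Nat.card (G ⧸ U) : ℝ)) :=
              mul_le_mul_of_nonneg_left hcard (by positivity)
          _ = (Nat.card (G ⧸ U) : ℝ) := by field_simp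
      exact_mod_cast h1
    have hfinal := card_quot_le r U hUm W hWne B (fun g hg => by
      rw [hBm, not_not] at hg
      exact hg) hc
    refine hfinal.trans ?_
    rw [ord]
    exact Nat.mul_le_mul_left _ (Nat.pow_le_pow_left hWcard _)
  have hsub : (Set.range fun g h : G => (r (g * h)).trace) ⊆
      Set.range (fun (x : G ⧸ U) (h : G) => (r (x.out * h)).trace) := by
    rintro _ ⟨g, rfl⟩
    refine ⟨QuotientGroup.mk g, ?_⟩
    funext h
    obtain ⟨u, hu⟩ := QuotientGroup.mk_out_eq_mul U g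
    show (r ((QuotientGroup.mk g : G ⧸ U).out * h)).trace = (r (g * h)).trace
    rw [hu, mul_assoc, hcyc, mul_assoc, u.2, hcyc]
  have hfr : (Set.range (fun (x : G ⧸ U) (h : G) => (r (x.out * h)).trace)).Finite :=
    Set.finite_range _
  refine ⟨hfr.subset hsub, (Set.ncard_le_ncard hsub hfr).trans (le_trans ?_ hbound)⟩
  rw [← Set.image_univ, ← Set.ncard_univ]
  exact Set.ncard_image_le Set.finite_univ

end Pool.Agent.OneI74
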