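import Mathlib

/-!
# Burnside: a nonzero determinant of traces for irreducible representations

`R` is an irreducible representation of the group `Γ` on `ℂ ^ n`, `n > 0`.  There are
`g, h : Fin (n ^ 2) → Γ` with `det (tr (R (g i * h j))) ≠ 0`.

Proof.  The span of the `R g` is a subalgebra of `M_n(ℂ)`, and it is everything by the theorem of
Burnside (look in Mathlib: `Algebra.IsSimple...`, `Matrix` / `Module.End` density theorem,
`jacobson_density`, `Module.End.Burnside`...).  A proof for finite `Γ` by Wedderburn is also possible: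
see `IsSemisimpleRing.exists_algEquiv_pi_matrix_of_isAlgClosed`, Schur's lemma.  By hand: let
`B` be the span of the `R g`, `B ⊆ End(ℂ ^ n)`; by Schur the commutant of `B` is `ℂ` (an endomorphism
commuting with all `R g` has an eigenvalue, and the eigenspace is stable, so it is everything), and
the density theorem (`jacobson_density` in `Mathlib/RingTheory/SimpleModule`...) says that for the simple
`B`-module `ℂ ^ n` every linear map over the commutant agrees on a basis with an element of `B`.

Then choose `g i`, `i < n ^ 2`, such that the `R (g i)` are a basis of `M_n(ℂ)`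
(`exists_linearIndependent`, `Submodule` rank; compare `Pool.Agent.GalSide.exists_test` in
`W_7742e_h15/Spn.lean`), and `h = g`.  If the determinant of `(tr (R (g i) R (g j)))` were zero there
would be `v ≠ 0` with `∑_i v i tr (R (g i) R (g j)) = 0` for all `j`
(`Matrix.exists_vecMul_eq_zero_iff`), so `X = ∑_i v i R (g i) ≠ 0` has `tr (X Y) = 0` for all `Y` in
`M_n(ℂ)`, which is impossible (`Matrix.ext_iff_trace_mul_left`, or `Y = E_{ba}`).
-/

set_option autoImplicit false

noncomputable section

namespace Pool.Agent.OneI74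

theorem adjoin_top {n : ℕ} (hn : 0 < n)
    (S : Set (Module.End ℂ (Fin n → ℂ)))
    (hS : ∀ W : Submodule ℂ (Fin n → ℂ), (∀ g ∈ S, ∀ w ∈ W, g w ∈ W) → W = ⊥ ∨ W = ⊤)
    (f : Module.End ℂ (Fin n → ℂ)) : f ∈ Algebra.adjoin ℂ S := by
  classical
  have : NeZero n := ⟨hn.ne'⟩
  let B := Algebra.adjoin ℂ S
  have hsmul : ∀ (b : B) (v : Fin n → ℂ), b • v = (b : Module.End ℂ (Fin n → ℂ)) v := fun _ _ => rfl
  have : IsScalarTower ℂ B (Fin n → ℂ) := ⟨fun c b v => by
    rw [hsmul, hsmul]
    rfl⟩
  have hmem : ∀ g ∈ S, g ∈ B := fun g hg => Algebra.subset_adjoin hg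
  have hsub : ∀ W : Submodule B (Fin n → ℂ), W = ⊥ ∨ W = ⊤ := by
    intro W
    rcases hS (W.restrictScalars ℂ) fun g hg w hw => W.smul_mem ⟨g, hmem g hg⟩ hw with h | h
    · exact Or.inl ((Submodule.restrictScalars_eq_bot_iff ℂ B (Fin n → ℂ)).1 h)
    · exact Or.inr ((Submodule.restrictScalars_eq_top_iff ℂ B (Fin n → ℂ)).1 h)
  have : IsSimpleModule B (Fin n → ℂ) := by
    rw [isSimpleModule_iff]
    exact { eq_bot_or_eq_top := hsub }
  have hschur : ∀ φ : Module.End B (Fin n → ℂ), ∃ c : ℂ, ∀ v, φ v = c • v := by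
    intro φ
    let ψ : Module.End ℂ (Fin n → ℂ) := φ.restrictScalars ℂ
    obtain ⟨c, hc⟩ := Module.End.exists_eigenvalue ψ
    obtain ⟨w, hw⟩ := hc.exists_hasEigenvector
    let W : Submodule B (Fin n → ℂ) :=
      { carrier := {v | φ v = c • v}
        add_mem' := fun {a b} ha hb => by
          rw [Set.mem_ofPred_eq] at ha hb ⊢
          rw [map_add, ha, hb, smul_add]
        zero_mem' := by
          rw [Set.mem_ofPred_eq, map_zero, smul_zero]
        smul_mem' := fun b v hv => by
          rw [Set.mem_ofPred_eq] at hv ⊢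
          rw [map_smul, hv, hsmul, hsmul, map_smul] }
    rcases hsub W with h | h
    · exfalso
      have h1 : w ∈ W := hw.apply_eq_smul
      rw [h, Submodule.mem_bot] at h1
      exact hw.2 h1
    · refine ⟨c, fun v => ?_⟩
      have h1 : v ∈ W := by rw [h]; trivial
      exact h1
  let F : Module.End (Module.End B (Fin n → ℂ)) (Fin n → ℂ) :=
    { toFun := f
      map_add' := map_add f
      map_smul' := fun φ v => by
        obtain ⟨c, hc⟩ := hschur φ
        rw [RingHom.id_apply, Module.End.smul_def, Module.End.smul_def, hc, hc, map_smul] }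
  obtain ⟨r, hr⟩ := jacobson_density (R := B) (M := Fin n → ℂ) F
    (Finset.univ.image fun i : Fin n => (Pi.single i (1 : ℂ) : Fin n → ℂ))
  have h1 : f = r := by
    refine LinearMap.pi_ext' fun i => LinearMap.ext_ring ?_
    exact hr _ (Finset.mem_image_of_mem _ (Finset.mem_univ i))
  rw [h1]
  exact r.2

theorem span_top {Γ : Type} [Group Γ] {n : ℕ} (hn : 0 < n)
    (R : Γ →* Matrix (Fin n) (Fin n) ℂ)
    (hR : ∀ W : Submodule ℂ (Fin n → ℂ), (∀ g, ∀ w ∈ W, (R g).mulVec w ∈ W) → W = ⊥ ∨ W = ⊤) :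
    Submodule.span ℂ (Set.range R) = ⊤ := by
  classical
  let ρ : Γ →* Module.End ℂ (Fin n → ℂ) :=
    { toFun := fun g => Matrix.toLin' (R g)
      map_one' := by rw [map_one, Matrix.toLin'_one]; rfl
      map_mul' := fun g h => by rw [map_mul, Matrix.toLin'_mul]; rfl }
  have hρ : ∀ g, ρ g = Matrix.toLin' (R g) := fun g => rfl
  rw [eq_top_iff]
  intro X _
  have h1 := adjoin_top hn (Set.range ρ) (fun W hW => hR W fun g w hw => by
      have := hW _ ⟨g, rfl⟩ w hw
      rwa [hρ, Matrix.toLin'_apply] at this) (Matrix.toLin' X)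
  have h6 : Matrix.toLin' X ∈ Subalgebra.toSubmodule (Algebra.adjoin ℂ (Set.range ρ)) := h1
  rw [Algebra.adjoin_eq_span] at h6
  have h7 : (Submonoid.closure (Set.range ρ) : Set (Module.End ℂ (Fin n → ℂ))) =
      Set.range ρ := by
    have : Set.range ρ = (MonoidHom.mrange ρ : Set _) := rfl
    rw [this, Submonoid.closure_eq]
  rw [h7] at h6
  have h8 := Submodule.mem_map_of_mem
    (f := (LinearMap.toMatrix' (R := ℂ) (n := Fin n) (m := Fin n)).toLinearMap) h6
  rw [Submodule.map_span, ← Set.range_comp] at h8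
  have h9 : (LinearMap.toMatrix' (R := ℂ) (n := Fin n) (m := Fin n)).toLinearMap ∘ ρ = R := by
    funext g
    rw [Function.comp_apply, hρ]
    exact LinearMap.toMatrix'_toLin' _
  rw [h9] at h8
  have h10 : (LinearMap.toMatrix' (R := ℂ) (n := Fin n) (m := Fin n)).toLinearMap
      (Matrix.toLin' X) = X := LinearMap.toMatrix'_toLin' _
  rwa [h10] at h8

theorem exists_det_ne_zero {Γ : Type} [Group Γ] [Finite Γ] {n : ℕ} (hn : 0 < n)
    (R : Γ →* Matrix (Fin n) (Fin n) ℂ)
    (hR : ∀ W : Submodule ℂ (Fin n → ℂ), (∀ g, ∀ w ∈ W, (R g).mulVec w ∈ W) → W = ⊥ ∨ W = ⊤) :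
    ∃ g h : Fin (n ^ 2) → Γ, (Matrix.of fun i j => (R (g i * h j)).trace).det ≠ 0 := by
  classical
  obtain ⟨b, hbs, hspan, hli⟩ := exists_linearIndependent ℂ (Set.range R)
  rw [span_top hn R hR] at hspan
  have hfin : b.Finite := hli.setFinite
  have : Fintype b := hfin.fintype
  let bas : Module.Basis b ℂ (Matrix (Fin n) (Fin n) ℂ) :=
    Module.Basis.mk hli (by rw [Subtype.range_coe, hspan])
  have hcard : Fintype.card b = n ^ 2 := by
    have h1 := Module.finrank_eq_card_basis bas
    rw [Module.finrank_matrix, Module.finrank_self, Fintype.card_fin, mul_one] at h1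
    rw [sq]
    exact h1.symm
  let e : Fin (n ^ 2) ≃ b := (finCongr hcard.symm).trans (Fintype.equivFin b).symm
  have hch : ∀ j : Fin (n ^ 2), ∃ x : Γ, R x = (e j : b) := fun j => hbs (e j).2
  choose g hg using hch
  refine ⟨g, g, fun hdet => ?_⟩
  obtain ⟨v, hv, hv0⟩ := Matrix.exists_vecMul_eq_zero_iff.2 hdet
  set X : Matrix (Fin n) (Fin n) ℂ := ∑ i, v i • R (g i) with hX
  have h1 : ∀ j, (X * R (g j)).trace = 0 := by
    intro j
    have h2 := congrFun hv0 j
    rw [Pi.zero_apply, Matrix.vecMul, dotProduct] at h2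
    rw [hX, Finset.sum_mul, Matrix.trace_sum, ← h2]
    refine Finset.sum_congr rfl fun i _ => ?_
    rw [smul_mul_assoc, Matrix.trace_smul, Matrix.of_apply, map_mul, smul_eq_mul]
  let L : Matrix (Fin n) (Fin n) ℂ →ₗ[ℂ] ℂ :=
    (Matrix.traceLinearMap (Fin n) ℂ ℂ).comp (LinearMap.mulLeft ℂ X)
  have hL : ∀ A, L A = (X * A).trace := fun A => rfl
  have h2 : L = 0 := by
    refine bas.ext fun i => ?_
    obtain ⟨j, rfl⟩ := e.surjective i
    have h3 : bas (e j) = R (g j) := by
      rw [Module.Basis.mk_apply, hg]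
    rw [h3, hL, h1, LinearMap.zero_apply]
  have h3 : X = 0 := by
    refine Matrix.ext fun a c => ?_
    have h4 := hL (Matrix.single c a 1)
    rw [h2, LinearMap.zero_apply, Matrix.trace_mul_single] at h4
    simpa using h4.symm
  have h4 : LinearIndependent ℂ fun i => R (g i) := by
    have h5 := hli.comp e e.injective
    have h6 : (fun i => R (g i)) = (fun x : b => (x : Matrix (Fin n) (Fin n) ℂ)) ∘ e := by
      funext i
      exact hg i
    rw [h6]
    exact h5
  have h5 := Fintype.linearIndependent_iff.1 h4 v h3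
  exact hv (funext h5)

end Pool.Agent.OneI74
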