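import Mathlib

/-!
# Small elements of ideals

`𝔟` is an ideal of the integers of a number field of degree `d` and `x ∈ 𝔟`.

* `eq_zero_of_small`: if `|σ x| ≤ X` for all embeddings and `X ^ d < N 𝔟` then `x = 0`.  Otherwise
  `N 𝔟` divides `|N x|` (`Ideal.absNorm_dvd_absNorm_of_le`, `Ideal.absNorm_span_singleton`,
  `Ideal.span_singleton_le_iff_mem`), `|N x| ≠ 0`, and `|N x| = ∏_σ |σ x| ≤ X ^ d`
  (`Algebra.norm_eq_prod_embeddings`, `NumberField.Embeddings.card`;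
  compare `W_7742y_h74/Nrm.lean`).
* `sum_sq_ge`: if `x ≠ 0` and `c ^ d ≤ N 𝔟` then `∏_σ |σ x| = |N x| ≥ N 𝔟 ≥ c ^ d`, and the
  inequality of the arithmetic and geometric means gives `∑_σ |σ x|² ≥ d c²`
  (copy from `sum_sq_ge` in `W_7742y_h74/Nrm.lean`).
-/

set_option autoImplicit false

noncomputable section

open NumberField

namespace Pool.Agent.OneI74

variable {K : Type} [Field K] [NumberField K]

/-- the norm of an ideal bounds the product of the absolute values of its nonzero elements -/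
theorem absNorm_le_prod (𝔟 : Ideal (𝓞 K)) {x : 𝓞 K} (hx : x ∈ 𝔟) (h0 : x ≠ 0) :
    (Ideal.absNorm 𝔟 : ℝ) ≤ ∏ σ : K →+* ℂ, ‖σ (x : K)‖ := by
  classical
  have hprod : (((Algebra.norm ℤ x : ℤ)) : ℂ) = ∏ τ : K →+* ℂ, τ (x : K) := by
    have h1 := Algebra.norm_eq_prod_embeddings ℚ ℂ (x : K)
    have h2 : algebraMap ℚ ℂ (Algebra.norm ℚ (x : K)) = ((Algebra.norm ℤ x : ℤ) : ℂ) := by
      rw [← Algebra.coe_norm_int]
      simp
    rw [← h2, h1]
    exact (Fintype.prod_equiv (RingHom.equivRatAlgHom (R := K) (S := ℂ)) _ _ fun τ => rfl).symm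
  have hle : Ideal.span {x} ≤ 𝔟 := (Ideal.span_singleton_le_iff_mem _).2 hx
  have hdvd := Ideal.absNorm_dvd_absNorm_of_le hle
  rw [Ideal.absNorm_span_singleton] at hdvd
  have hne : Algebra.norm ℤ x ≠ 0 := Algebra.norm_ne_zero_iff.2 h0
  have hle2 := Nat.le_of_dvd (Int.natAbs_pos.2 hne) hdvd
  rw [← norm_prod, ← hprod, Complex.norm_intCast]
  calc (Ideal.absNorm 𝔟 : ℝ) ≤ ((Algebra.norm ℤ x).natAbs : ℝ) := by exact_mod_cast hle2
    _ = |((Algebra.norm ℤ x : ℤ) : ℝ)| := by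
        rw [Nat.cast_natAbs, Int.cast_abs]

theorem eq_zero_of_small (𝔟 : Ideal (𝓞 K)) {x : 𝓞 K} (hx : x ∈ 𝔟) {X : ℝ}
    (hX : ∀ σ : K →+* ℂ, ‖σ (x : K)‖ ≤ X)
    (h : X ^ Module.finrank ℚ K < (Ideal.absNorm 𝔟 : ℝ)) : x = 0 := by
  classical
  by_contra h0
  have h1 := absNorm_le_prod 𝔟 hx h0
  have h2 : ∏ σ : K →+* ℂ, ‖σ (x : K)‖ ≤ X ^ Module.finrank ℚ K := by
    calc ∏ σ : K →+* ℂ, ‖σ (x : K)‖ ≤ ∏ _σ : K →+* ℂ, X :=
          Finset.prod_le_prod (fun _ _ => norm_nonneg _) fun σ _ => hX σ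
      _ = X ^ Module.finrank ℚ K := by
          rw [Finset.prod_const, Finset.card_univ, NumberField.Embeddings.card K ℂ]
  linarith

theorem sum_sq_ge (𝔟 : Ideal (𝓞 K)) {x : 𝓞 K} (hx : x ∈ 𝔟) (h0 : x ≠ 0) {c : ℝ} (hc : 0 ≤ c)
    (h : c ^ Module.finrank ℚ K ≤ (Ideal.absNorm 𝔟 : ℝ)) :
    (Module.finrank ℚ K : ℝ) * c ^ 2 ≤ ∑ σ : K →+* ℂ, ‖σ (x : K)‖ ^ 2 := by
  classical
  have h1 := absNorm_le_prod 𝔟 hx h0
  have hcard : Fintype.card (K →+* ℂ) = Module.finrank ℚ K := NumberField.Embeddings.card K ℂ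
  set D := Module.finrank ℚ K with hD
  have hDpos : 0 < D := Module.finrank_pos
  have hDr : (0 : ℝ) < D := by exact_mod_cast hDpos
  have hge : (c ^ 2) ^ D ≤ ∏ τ : K →+* ℂ, ‖τ (x : K)‖ ^ 2 := by
    rw [Finset.prod_pow, ← pow_mul, mul_comm 2 D, pow_mul]
    exact pow_le_pow_left₀ (pow_nonneg hc _) (h.trans h1) 2
  -- the inequality between the means
  have ham := Real.geom_mean_le_arith_mean_weighted Finset.univ (fun _ : K →+* ℂ => (1 : ℝ) / D)
    (fun τ => ‖τ (x : K)‖ ^ 2) (fun _ _ => by positivity)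
    (by rw [Finset.sum_const, Finset.card_univ, hcard, nsmul_eq_mul]; field_simp)
    (fun _ _ => by positivity)
  rw [Real.finsetProd_rpow _ _ (fun _ _ => by positivity), ← Finset.mul_sum] at ham
  have h3 : c ^ 2 ≤ (∏ τ : K →+* ℂ, ‖τ (x : K)‖ ^ 2) ^ ((1 : ℝ) / D) := by
    have h4 : ((c ^ 2) ^ D) ^ ((1 : ℝ) / D) = c ^ 2 := by
      rw [← Real.rpow_natCast, ← Real.rpow_mul (by positivity)]
      rw [mul_one_div_cancel hDr.ne', Real.rpow_one]
    rw [← h4]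
    exact Real.rpow_le_rpow (by positivity) hge (by positivity)
  have h5 := h3.trans ham
  rw [one_div, inv_mul_eq_div, le_div_iff₀ hDr] at h5
  linarith

end Pool.Agent.OneI74
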