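import Pool.Agent.W_7742z_h74.Bnd
import Pool.Agent.W_7742z_h74.Sml
import Pool.Agent.W_7742z_h74.PsA
import Pool.Agent.W_7742z_h74.PsB

/-!
# The small function is a pseudocharacter

`r` is a representation of `Γ₀` over `A` of dimension `n`, `q : Γ₀ → Γ` a surjective homomorphism, and
`β : Γ → 𝓞 K` has small values and is congruent to the trace of `r` modulo the ideal `𝔟 ⊇ ker ι` of
large norm: `c - β (q g) ∈ 𝔟` if `ι c = tr r(g)`.  Every integral polynomial relation of moderate size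
between the values of the trace holds exactly for `β`.

Choose `c : Γ₀ → 𝓞 K` with `ι (c g) = tr r(g)` (`hl`).  Write `X = XX n d`, `h = hh n d`.

* `beta_comm`: `ι (c (x y) - c (y x)) = 0` (`Matrix.trace_mul_comm`), so
  `β (q x * q y) - β (q y * q x) ∈ 𝔟`; its conjugates are at most `2 h < X` (`lt_XX` with `k = 1`), so it
  vanishes (`eq_zero_of_small`).
* `beta_one`: `ι (c 1 - n) = 0` (`Matrix.trace_one`), `n - β 1 ∈ 𝔟`, `|σ| ≤ n + h ≤ 2 h` (`le_hh`).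
* `beta_pol`: `ι (pol c (n+1) x) = pol (tr ∘ r) (n+1) x = 0` (`pol_map`, `pol_comp`,
  `pol_trace_succ`), so `pol c (n+1) x ∈ ker ι ≤ 𝔟`.  Apply `Ideal.Quotient.mk 𝔟`: since
  `mk (c g) = mk (β (q g))`, `mk (pol c k x) = pol (mk ∘ c) k x = pol (mk ∘ β ∘ q) k x =
  mk (pol β k (q ∘ x))`, so `pol β (n+1) (q ∘ x) ∈ 𝔟`.  Its conjugates are at most
  `(h + (n + 1)) ^ (n + 1)` (`norm_pol_le`, `pol_map`), and `h + n + 1 ≤ 2 h` (`n + 1 ≤ HH ≤ h`, because
  `HH n d = 2 d (n ^ 2 + 2) ^ 2 ≥ n + 1`), and `(2 h) ^ (n + 1) ≤ (n+1)! (2 h) ^ (n + 1) < X`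
  (`lt_XX` with `k = n + 1 ≤ n ^ 2 + 1`).
* `beta_det`: for all `x : Γ₀` and `e : 𝓞 K` with `ι e = det r(x)`,
  `n! e - pol β n (q x, ..., q x) ∈ 𝔟` (`pol_trace_self`, in the same way).
* `beta_minor`: if all the determinants `det (tr r(g i * h j))` of size `m ≤ n ^ 2` vanish then so do
  the determinants `det (β (x i * y j))`: they lie in `𝔟` (`RingHom.map_det`), and their conjugates
  are at most `m! h ^ m < X` (`lt_XX`).
-/

set_option autoImplicit false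

noncomputable section

open NumberField

namespace Pool.Agent.OneI74

variable {K : Type} [Field K] [NumberField K] {A : Type} [CommRing A] (ι : 𝓞 K →+* A) {n : ℕ}
  {𝔟 : Ideal (𝓞 K)} {Γ₀ Γ : Type} [Group Γ₀] [Group Γ] (q : Γ₀ →* Γ)
  (r : Γ₀ →* Matrix (Fin n) (Fin n) A) (β : Γ → 𝓞 K)

omit ι q r β in
theorem Chr_zero (hn : 0 < n) (hN : XX n (Module.finrank ℚ K) ^ Module.finrank ℚ K ≤
      Ideal.absNorm 𝔟) {z : 𝓞 K} (hz : z ∈ 𝔟) {k : ℕ} (hk : k ≤ n ^ 2 + 1)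
    (h : ∀ σ : K →+* ℂ, ‖σ (z : K)‖ ≤
      (k.factorial : ℝ) * (2 * (hh n (Module.finrank ℚ K) : ℝ)) ^ k) : z = 0 := by
  have hd : 0 < Module.finrank ℚ K := Module.finrank_pos
  refine eq_zero_of_small 𝔟 hz h ?_
  have h1 := lt_XX (n := n) (d := Module.finrank ℚ K) hn hd hk
  have h2 : (k.factorial * (2 * hh n (Module.finrank ℚ K)) ^ k) ^ Module.finrank ℚ K <
      XX n (Module.finrank ℚ K) ^ Module.finrank ℚ K := Nat.pow_lt_pow_left h1 hd.ne'
  have h3 := h2.trans_le hN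
  exact_mod_cast h3

theorem Chr_np1 (hn : 0 < n) {d : ℕ} (hd : 0 < d) : n + 1 ≤ hh n d := by
  have h1 : n + 1 ≤ (n ^ 2 + 2) ^ 2 := by nlinarith [Nat.zero_le n, Nat.zero_le (n ^ 2)]
  have h2 : (n ^ 2 + 2) ^ 2 ≤ HH n d := Nat.le_mul_of_pos_left _ (Nat.mul_pos two_pos hd)
  exact (h1.trans h2).trans (HH_le_hh hn hd)

theorem beta_comm (hn : 0 < n) (hN : XX n (Module.finrank ℚ K) ^ Module.finrank ℚ K ≤
      Ideal.absNorm 𝔟) (hq : Function.Surjective q) (hl : ∀ g, ∃ c, ι c = (r g).trace)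
    (hβ : ∀ x, Small (hh n (Module.finrank ℚ K)) (β x))
    (hc : ∀ g c, ι c = (r g).trace → c - β (q g) ∈ 𝔟) (x y : Γ) : β (x * y) = β (y * x) := by
  obtain ⟨x₀, rfl⟩ := hq x
  obtain ⟨y₀, rfl⟩ := hq y
  obtain ⟨c, hc0⟩ := hl (x₀ * y₀)
  have h1 : ι c = (r (y₀ * x₀)).trace := by
    rw [hc0, map_mul, map_mul, Matrix.trace_mul_comm]
  have h2 := hc _ c hc0
  have h3 := hc _ c h1
  rw [map_mul] at h2 h3
  have h4 : β (q x₀ * q y₀) - β (q y₀ * q x₀) ∈ 𝔟 := by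
    have h5 := 𝔟.sub_mem h3 h2
    rwa [sub_sub_sub_cancel_left] at h5
  refine sub_eq_zero.1 (Chr_zero hn hN h4 (k := 1) (by omega) fun σ => ?_)
  have h5 := hβ (q x₀ * q y₀) σ
  have h6 := hβ (q y₀ * q x₀) σ
  rw [Nat.factorial_one, Nat.cast_one, one_mul, pow_one]
  have h7 : ((β (q x₀ * q y₀) - β (q y₀ * q x₀) : 𝓞 K) : K) =
      (β (q x₀ * q y₀) : K) - (β (q y₀ * q x₀) : K) := by
    push_cast
    rfl
  rw [h7, map_sub]
  refine (norm_sub_le _ _).trans ?_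
  linarith

theorem beta_one (hn : 0 < n) (hN : XX n (Module.finrank ℚ K) ^ Module.finrank ℚ K ≤
      Ideal.absNorm 𝔟) (hβ : ∀ x, Small (hh n (Module.finrank ℚ K)) (β x))
    (hc : ∀ g c, ι c = (r g).trace → c - β (q g) ∈ 𝔟) : β 1 = n := by
  have hd : 0 < Module.finrank ℚ K := Module.finrank_pos
  have h1 : ι (n : 𝓞 K) = (r 1).trace := by
    rw [map_natCast, map_one, Matrix.trace_one, Fintype.card_fin]
  have h2 := hc 1 _ h1
  rw [map_one] at h2
  refine (sub_eq_zero.1 (Chr_zero hn hN h2 (k := 1) (by omega) fun σ => ?_)).symm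
  have h5 := hβ 1 σ
  have h6 : (n : ℝ) ≤ hh n (Module.finrank ℚ K) := by exact_mod_cast le_hh hn hd
  rw [Nat.factorial_one, Nat.cast_one, one_mul, pow_one]
  have h7 : (((n : 𝓞 K) - β 1 : 𝓞 K) : K) = (n : K) - (β 1 : K) := by
    push_cast
    rfl
  rw [h7, map_sub, map_natCast]
  refine (norm_sub_le _ _).trans ?_
  rw [Complex.norm_natCast]
  linarith

theorem pol_sub_mem (h𝔟 : RingHom.ker ι ≤ 𝔟) (hl : ∀ g, ∃ c, ι c = (r g).trace)
    (hc : ∀ g c, ι c = (r g).trace → c - β (q g) ∈ 𝔟) (k : ℕ) (x : Fin k → Γ₀) {e : 𝓞 K}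
    (he : ι e = pol (fun y : Matrix (Fin n) (Fin n) A => y.trace) k (fun a => r (x a))) :
    e - pol β k (fun a => q (x a)) ∈ 𝔟 := by
  choose c hc0 using hl
  have h1 : ι (e - pol c k x) = 0 := by
    rw [map_sub, he, pol_map ι c k x, ← pol_comp (fun g => r g) (fun x y => map_mul r x y)
      (fun y : Matrix (Fin n) (Fin n) A => y.trace) k x]
    simp only [hc0]
    rw [sub_self]
  have h2 : e - pol c k x ∈ 𝔟 := h𝔟 h1
  have h3 : pol c k x - pol β k (fun a => q (x a)) ∈ 𝔟 := by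
    rw [← Ideal.Quotient.eq, pol_map (Ideal.Quotient.mk 𝔟) c k x,
      ← pol_comp (fun g => q g) (fun x y => map_mul q x y) β k x,
      pol_map (Ideal.Quotient.mk 𝔟) (fun y => β (q y)) k x]
    have h4 : (fun y => Ideal.Quotient.mk 𝔟 (c y)) = fun y => Ideal.Quotient.mk 𝔟 (β (q y)) := by
      funext y
      exact Ideal.Quotient.eq.2 (hc y _ (hc0 y))
    rw [h4]
  have h5 := 𝔟.add_mem h2 h3
  rwa [sub_add_sub_cancel] at h5

theorem beta_pol (hn : 0 < n) (h𝔟 : RingHom.ker ι ≤ 𝔟)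
    (hN : XX n (Module.finrank ℚ K) ^ Module.finrank ℚ K ≤ Ideal.absNorm 𝔟)
    (hq : Function.Surjective q) (hl : ∀ g, ∃ c, ι c = (r g).trace)
    (hβ : ∀ x, Small (hh n (Module.finrank ℚ K)) (β x))
    (hc : ∀ g c, ι c = (r g).trace → c - β (q g) ∈ 𝔟) (x : Fin (n + 1) → Γ) :
    pol β (n + 1) x = 0 := by
  have hd : 0 < Module.finrank ℚ K := Module.finrank_pos
  choose x₀ hx₀ using fun a => hq (x a)
  have h1 : pol β (n + 1) x ∈ 𝔟 := by
    have h2 := pol_sub_mem ι q r β h𝔟 hl hc (n + 1) x₀ (e := 0) (by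
      rw [map_zero, pol_trace_succ])
    have h3 : (fun a => q (x₀ a)) = x := funext hx₀
    rw [h3, zero_sub] at h2
    exact neg_mem_iff.1 h2
  have hnn : n ≤ n ^ 2 := by nlinarith
  refine Chr_zero hn hN h1 (k := n + 1) (by omega) fun σ => ?_
  have h2 : σ ((pol β (n + 1) x : 𝓞 K) : K) = pol (fun y => σ (β y : K)) (n + 1) x :=
    pol_map (σ.comp (algebraMap (𝓞 K) K)) β (n + 1) x
  rw [h2]
  have h3 := norm_pol_le (fun y => σ (β y : K)) (B := (hh n (Module.finrank ℚ K) : ℝ))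
    (Nat.cast_nonneg _) (fun y => hβ y σ) (n + 1) x
  refine h3.trans ?_
  have h4 : ((n + 1 : ℕ) : ℝ) ≤ hh n (Module.finrank ℚ K) := by exact_mod_cast Chr_np1 hn hd
  have h5 : ((hh n (Module.finrank ℚ K) : ℝ) + ((n + 1 : ℕ) : ℝ)) ^ (n + 1) ≤
      (2 * (hh n (Module.finrank ℚ K) : ℝ)) ^ (n + 1) :=
    pow_le_pow_left₀ (by positivity) (by linarith) _
  refine h5.trans (le_mul_of_one_le_left (by positivity) ?_)
  exact_mod_cast Nat.factorial_pos (n + 1)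

theorem beta_det (h𝔟 : RingHom.ker ι ≤ 𝔟) (hl : ∀ g, ∃ c, ι c = (r g).trace)
    (hc : ∀ g c, ι c = (r g).trace → c - β (q g) ∈ 𝔟) (x : Γ₀) {e : 𝓞 K}
    (he : ι e = (r x).det) : (n.factorial : 𝓞 K) * e - pol β n (fun _ => q x) ∈ 𝔟 := by
  refine pol_sub_mem ι q r β h𝔟 hl hc n (fun _ => x) ?_
  rw [map_mul, map_natCast, he, pol_trace_self]

theorem beta_minor (hn : 0 < n) (h𝔟 : RingHom.ker ι ≤ 𝔟)
    (hN : XX n (Module.finrank ℚ K) ^ Module.finrank ℚ K ≤ Ideal.absNorm 𝔟)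
    (hq : Function.Surjective q) (hl : ∀ g, ∃ c, ι c = (r g).trace)
    (hβ : ∀ x, Small (hh n (Module.finrank ℚ K)) (β x))
    (hc : ∀ g c, ι c = (r g).trace → c - β (q g) ∈ 𝔟)
    (hm : ∀ g h : Fin (n ^ 2) → Γ₀, (Matrix.of fun i j => (r (g i * h j)).trace).det = 0)
    (g h : Fin (n ^ 2) → Γ) : (Matrix.of fun i j => β (g i * h j)).det = 0 := by
  choose g₀ hg₀ using fun a => hq (g a)
  choose h₀ hh₀ using fun a => hq (h a)
  choose c hc0 using hl
  have h1 : (Matrix.of fun i j => c (g₀ i * h₀ j)).det ∈ 𝔟 := by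
    refine h𝔟 ?_
    rw [RingHom.mem_ker, RingHom.map_det, ← hm g₀ h₀]
    congr 1
    ext i j
    simp [hc0]
  have h2 : (Matrix.of fun i j => β (g i * h j)).det ∈ 𝔟 := by
    have h3 : (Matrix.of fun i j => c (g₀ i * h₀ j)).det -
        (Matrix.of fun i j => β (g i * h j)).det ∈ 𝔟 := by
      rw [← Ideal.Quotient.eq, RingHom.map_det, RingHom.map_det]
      congr 1
      ext i j
      have h4 := Ideal.Quotient.eq.2 (hc (g₀ i * h₀ j) _ (hc0 _))
      rw [map_mul, hg₀, hh₀] at h4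
      exact h4
    have h4 := 𝔟.sub_mem h1 h3
    rwa [sub_sub_cancel] at h4
  refine Chr_zero hn hN h2 (k := n ^ 2) (by omega) fun σ => ?_
  have h3 : σ (((Matrix.of fun i j => β (g i * h j)).det : 𝓞 K) : K) =
      (Matrix.of fun i j => σ (β (g i * h j) : K)).det := by
    have h4 := RingHom.map_det (σ.comp (algebraMap (𝓞 K) K)) (Matrix.of fun i j => β (g i * h j))
    exact h4
  rw [h3]
  have h4 := Matrix.det_le (A := Matrix.of fun i j => σ (β (g i * h j) : K))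
    (abv := NormedField.toAbsoluteValue ℂ) (x := (hh n (Module.finrank ℚ K) : ℝ))
    (fun i j => hβ (g i * h j) σ)
  rw [Fintype.card_fin, nsmul_eq_mul] at h4
  refine (show _ ≤ _ from h4).trans ?_
  refine mul_le_mul_of_nonneg_left ?_ (Nat.cast_nonneg _)
  exact pow_le_pow_left₀ (Nat.cast_nonneg _) (by
    have : (0 : ℝ) ≤ hh n (Module.finrank ℚ K) := Nat.cast_nonneg _
    linarith) _

end Pool.Agent.OneI74
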