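import Pool.Agent.W_7742z_h74.Dfs

/-!
# `pol` is multilinear

`B` is a `ℂ`-algebra and `T : B → ℂ` linear.

* `pol_update_add`, `pol_update_smul`: additivity and homogeneity in each variable, by induction on `k`.
  Variable `0`: `T (x 0)` is linear in `x 0`, and `pol T k (update (tail x) a (x a.succ * x 0))` is by
  the induction hypothesis (`mul_add`, `mul_smul_comm`).  Variable `l.succ`: in
  `T (x 0) * pol T k (tail x)` use the induction hypothesis (`Fin.tail (update x l.succ v) =
  update (tail x) l v`: `Fin.tail_update_succ`); in the term for `a = l` the entry `l` is
  `(v) * x 0` (`Function.update_idem`, `add_mul`, `smul_mul_assoc`), and in the terms for `a ≠ l`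
  exchange the two updates (`Function.update_comm`).
* `pol_eq_zero`: if `pol T k` vanishes on the elements of a group `Γ` then it vanishes on the group
  algebra: form the `MultilinearMap` and use `Basis.ext_multilinear` (`Module.Basis.ext_multilinear`)
  for the basis `MonoidAlgebra.of ℂ Γ g = MonoidAlgebra.single g 1` (`Finsupp.basisSingleOne`); or
  replace the variables one after the other: every element of the group algebra is a linear
  combination of group elements (`MonoidAlgebra.induction_on`, `Finsupp.induction_linear`).
-/

set_option autoImplicit false

noncomputable section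

namespace Pool.Agent.OneI74

variable {B : Type} [Ring B] [Algebra ℂ B]

theorem PsC_zero (T : B →ₗ[ℂ] ℂ) (k : ℕ) (x : Fin (k + 1) → B) (u : B) :
    pol T (k + 1) (Function.update x 0 u) = T u * pol T k (Fin.tail x) -
      ∑ a : Fin k, pol T k (Function.update (Fin.tail x) a (x a.succ * u)) := by
  rw [pol_succ, Fin.tail_update_zero, Function.update_self]
  congr 1

theorem PsC_succ (T : B →ₗ[ℂ] ℂ) (k : ℕ) (x : Fin (k + 1) → B) (l : Fin k) (u : B) :
    pol T (k + 1) (Function.update x l.succ u) = T (x 0) * pol T k (Function.update (Fin.tail x) l u) -
      ∑ a : Fin k, if a = l then pol T k (Function.update (Fin.tail x) l (u * x 0)) else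
        pol T k (Function.update (Function.update (Fin.tail x) a (x a.succ * x 0)) l u) := by
  rw [pol_succ, Fin.tail_update_succ, Function.update_of_ne (Fin.succ_ne_zero l).symm]
  congr 1
  refine Finset.sum_congr rfl fun a _ => ?_
  split_ifs with h
  · subst h
    rw [Function.update_self, Function.update_idem]
  · have h1 : a.succ ≠ l.succ := fun h2 => h (Fin.succ_injective _ h2)
    rw [Function.update_of_ne h1, Function.update_comm h]

theorem pol_update_add (T : B →ₗ[ℂ] ℂ) (k : ℕ) (x : Fin k → B) (l : Fin k) (v w : B) :
    pol T k (Function.update x l (v + w)) =
      pol T k (Function.update x l v) + pol T k (Function.update x l w) := by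
  induction k generalizing v w with
  | zero => exact l.elim0
  | succ k ih =>
    rcases Fin.eq_zero_or_eq_succ l with rfl | ⟨l, rfl⟩
    · rw [PsC_zero, PsC_zero, PsC_zero, map_add]
      have h1 : ∀ a : Fin k, pol T k (Function.update (Fin.tail x) a (x a.succ * (v + w))) =
          pol T k (Function.update (Fin.tail x) a (x a.succ * v)) +
          pol T k (Function.update (Fin.tail x) a (x a.succ * w)) := by
        intro a
        rw [mul_add, ih]
      rw [Finset.sum_congr rfl fun a _ => h1 a, Finset.sum_add_distrib]
      ring
    · rw [PsC_succ, PsC_succ, PsC_succ, ih, add_mul, ih]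
      have h1 : ∀ a : Fin k,
          (if a = l then pol T k (Function.update (Fin.tail x) l (v * x 0)) +
              pol T k (Function.update (Fin.tail x) l (w * x 0)) else
            pol T k (Function.update (Function.update (Fin.tail x) a (x a.succ * x 0)) l (v + w))) =
          (if a = l then pol T k (Function.update (Fin.tail x) l (v * x 0)) else
            pol T k (Function.update (Function.update (Fin.tail x) a (x a.succ * x 0)) l v)) +
          (if a = l then pol T k (Function.update (Fin.tail x) l (w * x 0)) else
            pol T k (Function.update (Function.update (Fin.tail x) a (x a.succ * x 0)) l w)) := by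
        intro a
        split_ifs with h
        · rfl
        · rw [ih]
      rw [Finset.sum_congr rfl fun a _ => h1 a, Finset.sum_add_distrib]
      ring

theorem pol_update_smul (T : B →ₗ[ℂ] ℂ) (k : ℕ) (x : Fin k → B) (l : Fin k) (c : ℂ) (v : B) :
    pol T k (Function.update x l (c • v)) = c * pol T k (Function.update x l v) := by
  induction k generalizing v with
  | zero => exact l.elim0
  | succ k ih =>
    rcases Fin.eq_zero_or_eq_succ l with rfl | ⟨l, rfl⟩
    · rw [PsC_zero, PsC_zero, map_smul, smul_eq_mul]
      have h1 : ∀ a : Fin k, pol T k (Function.update (Fin.tail x) a (x a.succ * (c • v))) =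
          c * pol T k (Function.update (Fin.tail x) a (x a.succ * v)) := by
        intro a
        rw [mul_smul_comm, ih]
      rw [Finset.sum_congr rfl fun a _ => h1 a, ← Finset.mul_sum]
      ring
    · rw [PsC_succ, PsC_succ, ih, smul_mul_assoc, ih]
      have h1 : ∀ a : Fin k,
          (if a = l then c * pol T k (Function.update (Fin.tail x) l (v * x 0)) else
            pol T k (Function.update (Function.update (Fin.tail x) a (x a.succ * x 0)) l (c • v))) =
          c * (if a = l then pol T k (Function.update (Fin.tail x) l (v * x 0)) else
            pol T k (Function.update (Function.update (Fin.tail x) a (x a.succ * x 0)) l v)) := by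
        intro a
        split_ifs with h
        · rfl
        · rw [ih]
      rw [Finset.sum_congr rfl fun a _ => h1 a, ← Finset.mul_sum]
      ring

theorem pol_eq_zero {Γ : Type} [Group Γ] (T : MonoidAlgebra ℂ Γ →ₗ[ℂ] ℂ) (k : ℕ)
    (h : ∀ x : Fin k → Γ, pol T k (fun a => MonoidAlgebra.of ℂ Γ (x a)) = 0)
    (x : Fin k → MonoidAlgebra ℂ Γ) : pol T k x = 0 := by
  classical
  -- replace the variables one after the other
  have key : ∀ (s : Finset (Fin k)) (x : Fin k → MonoidAlgebra ℂ Γ),
      (∀ a ∉ s, ∃ g : Γ, x a = MonoidAlgebra.of ℂ Γ g) → pol T k x = 0 := by
    intro s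
    induction s using Finset.induction_on with
    | empty =>
      intro x hx
      choose g hg using fun a => hx a (Finset.notMem_empty a)
      rw [show x = fun a => MonoidAlgebra.of ℂ Γ (g a) from funext hg]
      exact h g
    | insert b s hb ih =>
      intro x hx
      have h1 : ∀ y : MonoidAlgebra ℂ Γ, pol T k (Function.update x b y) = 0 := by
        intro y
        refine MonoidAlgebra.induction_on (motive := fun y => pol T k (Function.update x b y) = 0) y
          ?_ ?_ ?_
        · intro g
          refine ih _ fun a ha => ?_
          by_cases hab : a = b
          · subst hab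
            exact ⟨g, Function.update_self ..⟩
          · rw [Function.update_of_ne hab]
            refine hx a ?_
            rw [Finset.mem_insert]
            tauto
        · intro v w hv hw
          rw [pol_update_add, hv, hw, add_zero]
        · intro c v hv
          rw [pol_update_smul, hv, mul_zero]
      have h2 := h1 (x b)
      rwa [Function.update_eq_self] at h2
  exact key Finset.univ x fun a ha => absurd (Finset.mem_univ a) ha

end Pool.Agent.OneI74
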