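import Pool.Agent.W_7742z_h74.PsB
import Pool.Agent.W_7742z_h74.PsC
import Pool.Agent.W_7742e_h15.SS

/-!
# Pseudocharacters of finite groups over `ℂ` are characters

`Γ` is a finite group, `f : Γ → ℂ` with `f (x y) = f (y x)`, `f 1 = n` and
`pol f (n + 1) = 0`.  Then `f` is the trace of a representation of dimension `n`.

Proof.  Let `T : ℂ[Γ] → ℂ` be the linear extension of `f` (`MonoidAlgebra` is `Finsupp`:
`Finsupp.lift`, `Finsupp.linearCombination ℂ f`, `Finsupp.lsum`; or `∑ g, a g * f g`).  Then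
`T (a b) = T (b a)`, and `pol T (n + 1) = 0` on the whole group algebra (`pol_eq_zero`, `pol_comp` for
`MonoidAlgebra.of`).  By Maschke and Wedderburn
(`IsSemisimpleRing.exists_algEquiv_pi_matrix_of_isAlgClosed ℂ (MonoidAlgebra ℂ Γ)`) there is an
isomorphism of algebras `e` from `ℂ[Γ]` to a finite product of matrix algebras `M_{d i}(ℂ)`, `d i ≠ 0`.
A linear form `t` on `M_d(ℂ)` with `t (a b) = t (b a)` is a multiple of the trace:
`t (E_{kl}) = t (E_{kk} E_{kl}) = t (E_{kl} E_{kk}) = 0` for `k ≠ l` and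
`t (E_{kk}) = t (E_{kl} E_{lk}) = t (E_{ll})`; so `t x = t (E_{00}) tr x`
(`Matrix.matrix_eq_sum_single`, `Matrix.single_mul_single_same`).  Hence
`T a = ∑_i c i * tr ((e a) i)` with `c i = T (e⁻¹ (ε i))`, `ε i` the idempotent `E_{00}` in the factor `i`
(`Pi.single i`).  `pol_idem` gives `c i (c i - 1) ... (c i - n) = 0`, so `c i` is a natural number
`m i ≤ n`.  The homomorphisms `Γ → M_{d i}(ℂ)`, `g ↦ (e (of g)) i`, are representations with characters
`χ i`, and `f = ∑_i m i χ i`.  Sums of characters of dimensions `a`, `b` are characters of dimension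
`a + b` (`Pool.Agent.GalSide.exists_sum`; the zero function is the character of the representation of
dimension `0`), so there is a representation of dimension `∑_i m i d i` with character `f`
(induction over a finset, and over `m i`), and `∑_i m i d i = f 1 = n`.
-/

set_option autoImplicit false

noncomputable section

namespace Pool.Agent.OneI74

open Pool.Agent.GalSide

/-- A central linear form on a matrix algebra is a multiple of the trace. -/
theorem wed_central {d : ℕ} [NeZero d] (t : Matrix (Fin d) (Fin d) ℂ →ₗ[ℂ] ℂ)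
    (ht : ∀ a b, t (a * b) = t (b * a)) (x : Matrix (Fin d) (Fin d) ℂ) :
    t x = t (Matrix.single 0 0 1) * x.trace := by
  have h1 : ∀ k l, k ≠ l → t (Matrix.single k l 1) = 0 := by
    intro k l hkl
    have h2 : (Matrix.single k l 1 : Matrix (Fin d) (Fin d) ℂ) =
        Matrix.single k k 1 * Matrix.single k l 1 := by
      rw [Matrix.single_mul_single_same, mul_one]
    rw [h2, ht, Matrix.single_mul_single_of_ne _ _ _ _ (Ne.symm hkl), map_zero]
  have h2 : ∀ k, t (Matrix.single k k 1) = t (Matrix.single 0 0 1) := by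
    intro k
    have h3 : (Matrix.single k k 1 : Matrix (Fin d) (Fin d) ℂ) =
        Matrix.single k 0 1 * Matrix.single 0 k 1 := by
      rw [Matrix.single_mul_single_same, mul_one]
    rw [h3, ht, Matrix.single_mul_single_same, mul_one]
  have h3 : ∀ k l (c : ℂ), t (Matrix.single k l c) = c * t (Matrix.single k l 1) := by
    intro k l c
    have h4 : (Matrix.single k l c : Matrix (Fin d) (Fin d) ℂ) = c • Matrix.single k l 1 := by
      rw [Matrix.smul_single, smul_eq_mul, mul_one]
    rw [h4, map_smul, smul_eq_mul]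
  conv_lhs => rw [Matrix.matrix_eq_sum_single x]
  rw [map_sum, Matrix.trace, Finset.mul_sum]
  refine Finset.sum_congr rfl fun k _ => ?_
  rw [map_sum, Finset.sum_eq_single k]
  · rw [h3, h2, mul_comm, Matrix.diag_apply]
  · intro l _ hl
    rw [h3, h1 k l (Ne.symm hl), mul_zero]
  · intro h
    exact absurd (Finset.mem_univ k) h

/-- characters of dimension `N` -/
def WedChar {Γ : Type} [Group Γ] (N : ℕ) (φ : Γ → ℂ) : Prop :=
  ∃ R : Γ →* Matrix (Fin N) (Fin N) ℂ, ∀ g, (R g).trace = φ g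

theorem wed_zero {Γ : Type} [Group Γ] : WedChar (Γ := Γ) 0 (fun _ => 0) :=
  ⟨1, fun g => by simp [Matrix.trace]⟩

theorem wed_add {Γ : Type} [Group Γ] {a b : ℕ} {φ ψ : Γ → ℂ} (h1 : WedChar a φ)
    (h2 : WedChar b ψ) : WedChar (a + b) (fun g => φ g + ψ g) := by
  obtain ⟨r, hr⟩ := h1
  obtain ⟨s, hs⟩ := h2
  obtain ⟨t, ht, _⟩ := exists_sum (rfl : a + b = a + b) r s
  exact ⟨t, fun g => by rw [ht, hr, hs]⟩

theorem wed_nsmul {Γ : Type} [Group Γ] {a : ℕ} {φ : Γ → ℂ} (h1 : WedChar a φ) (m : ℕ) :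
    WedChar (m * a) (fun g => (m : ℂ) * φ g) := by
  induction m with
  | zero =>
    have := wed_zero (Γ := Γ)
    simpa using this
  | succ m ih =>
    have h2 := wed_add ih h1
    have h3 : (m + 1) * a = m * a + a := by ring
    have h4 : (fun g => ((m + 1 : ℕ) : ℂ) * φ g) = fun g => (m : ℂ) * φ g + φ g := by
      funext g
      push_cast
      ring
    rw [h3, h4]
    exact h2

theorem wed_sum {Γ : Type} [Group Γ] {ι : Type} (s : Finset ι) (a : ι → ℕ) (φ : ι → Γ → ℂ)
    (h : ∀ i, WedChar (a i) (φ i)) : WedChar (∑ i ∈ s, a i) (fun g => ∑ i ∈ s, φ i g) := by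
  classical
  induction s using Finset.induction_on with
  | empty => simpa using wed_zero (Γ := Γ)
  | insert i s hi ih =>
    simp only [Finset.sum_insert hi]
    exact wed_add (h i) ih

/-- the linear extension to the group algebra -/
def wedT {Γ : Type} [Group Γ] (f : Γ → ℂ) : MonoidAlgebra ℂ Γ →ₗ[ℂ] ℂ :=
  (Finsupp.linearCombination ℂ f).comp (MonoidAlgebra.coeffLinearEquiv ℂ).toLinearMap

theorem wedT_of {Γ : Type} [Group Γ] (f : Γ → ℂ) (g : Γ) :
    wedT f (MonoidAlgebra.of ℂ Γ g) = f g := by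
  unfold wedT
  simp [MonoidAlgebra.of]

theorem wedT_comm {Γ : Type} [Group Γ] (f : Γ → ℂ) (hf : ∀ x y, f (x * y) = f (y * x))
    (a b : MonoidAlgebra ℂ Γ) : wedT f (a * b) = wedT f (b * a) := by
  induction a using MonoidAlgebra.induction_on with
  | of g =>
    induction b using MonoidAlgebra.induction_on with
    | of h => rw [← map_mul, ← map_mul, wedT_of, wedT_of, hf]
    | add x y hx hy => rw [mul_add, add_mul, map_add, map_add, hx, hy]
    | smul r x hx => rw [mul_smul_comm, smul_mul_assoc, map_smul, map_smul, hx]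
  | add x y hx hy => rw [mul_add, add_mul, map_add, map_add, hx, hy]
  | smul r x hx => rw [mul_smul_comm, smul_mul_assoc, map_smul, map_smul, hx]

theorem exists_rep {Γ : Type} [Group Γ] [Finite Γ] {n : ℕ} (f : Γ → ℂ)
    (hf : ∀ x y, f (x * y) = f (y * x)) (h1 : f 1 = n)
    (hp : ∀ x : Fin (n + 1) → Γ, pol f (n + 1) x = 0) :
    ∃ R : Γ →* Matrix (Fin n) (Fin n) ℂ, ∀ g, (R g).trace = f g := by
  classical
  set T := wedT f with hT
  have hTc : ∀ a b, T (a * b) = T (b * a) := wedT_comm f hf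
  have hTp : ∀ x : Fin (n + 1) → MonoidAlgebra ℂ Γ, pol T (n + 1) x = 0 := by
    refine pol_eq_zero T (n + 1) fun x => ?_
    rw [← pol_comp (MonoidAlgebra.of ℂ Γ) (fun x y => map_mul _ x y) T (n + 1) x]
    have h2 : (fun y => T (MonoidAlgebra.of ℂ Γ y)) = f := funext fun g => wedT_of f g
    rw [h2]
    exact hp x
  have : NeZero (Nat.card Γ : ℂ) := ⟨Nat.cast_ne_zero.2 Nat.card_pos.ne'⟩
  have : FiniteDimensional ℂ (MonoidAlgebra ℂ Γ) :=
    Module.Finite.equiv (MonoidAlgebra.coeffLinearEquiv (S := ℂ) (M := Γ) ℂ).symm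
  obtain ⟨N, d, hd, ⟨e⟩⟩ :=
    IsSemisimpleRing.exists_algEquiv_pi_matrix_of_isAlgClosed ℂ (MonoidAlgebra ℂ Γ)
  -- the component forms
  let t : ∀ i : Fin N, Matrix (Fin (d i)) (Fin (d i)) ℂ →ₗ[ℂ] ℂ := fun i =>
    (T.comp e.symm.toLinearMap).comp (LinearMap.single ℂ (fun i => Matrix (Fin (d i)) (Fin (d i)) ℂ) i)
  have ht : ∀ i a, t i a = T (e.symm (Pi.single i a)) := fun i a => rfl
  have hd' : ∀ i, NeZero (d i) := hd
  have htc : ∀ i, ∀ a b : Matrix (Fin (d i)) (Fin (d i)) ℂ, t i (a * b) = t i (b * a) := by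
    intro i a b
    rw [ht, ht, Pi.single_mul, Pi.single_mul, map_mul e.symm, map_mul e.symm, hTc]
  have hTs : ∀ a, T a = ∑ i, t i (e a i) := by
    intro a
    have h2 : a = ∑ i, e.symm (Pi.single i (e a i)) := by
      rw [← map_sum, Finset.univ_sum_single, AlgEquiv.symm_apply_apply]
    conv_lhs => rw [h2]
    rw [map_sum]
    rfl
  have hm : ∀ i, ∃ m : ℕ, t i (Matrix.single 0 0 1) = m := by
    intro i
    have h2 : (e.symm (Pi.single i (Matrix.single 0 0 1))) *
        (e.symm (Pi.single i (Matrix.single 0 0 1))) =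
        e.symm (Pi.single i (Matrix.single 0 0 1)) := by
      rw [← map_mul, ← Pi.single_mul, Matrix.single_mul_single_same, mul_one]
    have h3 := pol_idem (fun x => T x) h2 (n + 1)
    rw [show pol (fun x => T x) (n + 1) _ = _ from hTp _] at h3
    obtain ⟨j, _, hj⟩ := Finset.prod_eq_zero_iff.1 h3.symm
    exact ⟨j, sub_eq_zero.1 hj⟩
  choose m hm using hm
  have hfs : ∀ g, f g = ∑ i, (m i : ℂ) * (e (MonoidAlgebra.of ℂ Γ g) i).trace := by
    intro g
    rw [← wedT_of f g, ← hT, hTs]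
    refine Finset.sum_congr rfl fun i _ => ?_
    rw [wed_central (t i) (htc i), hm]
  have hchar : WedChar (∑ i, m i * d i)
      (fun g : Γ => ∑ i, (m i : ℂ) * (e (MonoidAlgebra.of ℂ Γ g) i).trace) := by
    refine wed_sum Finset.univ (fun i => m i * d i)
      (fun i g => (m i : ℂ) * (e (MonoidAlgebra.of ℂ Γ g) i).trace) fun i => ?_
    refine wed_nsmul (a := d i) ?_ (m i)
    exact ⟨((Pi.evalMonoidHom (fun i => Matrix (Fin (d i)) (Fin (d i)) ℂ) i).comp
      (e : _ →* _)).comp (MonoidAlgebra.of ℂ Γ), fun g => rfl⟩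
  obtain ⟨R, hR⟩ := hchar
  have hn : ∑ i, m i * d i = n := by
    have h2 : (R 1).trace = f 1 := (hR 1).trans (hfs 1).symm
    rw [h1, map_one, Matrix.trace_one, Fintype.card_fin] at h2
    exact_mod_cast h2
  have key : ∀ N' : ℕ, N' = n → (∃ R : Γ →* Matrix (Fin N') (Fin N') ℂ, ∀ g, (R g).trace = f g) →
      ∃ R : Γ →* Matrix (Fin n) (Fin n) ℂ, ∀ g, (R g).trace = f g := by
    rintro N' rfl h
    exact h
  exact key _ hn ⟨R, fun g => (hR g).trans (hfs g).symm⟩

end Pool.Agent.OneI74
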