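import Pool.Agent.W_7742z_h74.MainA
import Pool.Agent.W_7742z_h74.Wed
import Pool.Agent.W_7742z_h74.Brn
import Pool.Agent.W_7742z_h74.Chr
import Pool.Agent.W_7742y_h74.FldA
import Pool.Agent.W_7742y_h74.MeanGe
import Pool.Agent.W_7742y_h74.Imp

/-!
# The main theorem for one ideal

The assumptions are those of `exists_small` (`MainA.lean`).  Then there are `𝔟`, `U` and `β` as there
such that `b p = β (frob p)` for `p` outside a set of density zero, and for every embedding `s` of `K` the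
function `s ∘ β` is the trace of an irreducible representation of `G / U`.  The determinants of
size `n²` of the traces `tr r(g i * h j)` do not all vanish.

Proof.  Take `𝔟`, `U`, `β` from `exists_small`; `G / U` is finite.  Apply `Chr.lean` with `Γ₀ := G`,
`Γ := G ⧸ U`, `q = QuotientGroup.mk' U`: `β (x y) = β (y x)`,
`β 1 = n`, `pol β (n + 1) = 0`.  For every embedding `s`, `exists_rep` for `f = s ∘ β`
(`pol_map` for `s` composed with `𝓞 K → K`) gives `R s : G ⧸ U → M_n(ℂ)` with trace `s ∘ β`.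

Let `Z` be the exceptional set of `hZ` and `E` the set of the `p ∉ Z` with
`δ p = b p - β (mk (frob p)) ≠ 0`.  `δ p ∈ 𝔟` for `p ∉ Z` (the congruence with
`c = b p`).  For `p ∈ E`, `sum_sq_ge` (`OneI74.sum_sq_ge` in `Sml.lean`) with `c = 3 n`
(`(3 n) ^ d ≤ XX ^ d ≤ N 𝔟`, as `3 n ≤ 3 hh ≤ XX`: `le_hh`, `XX = (n²+1)! (3 hh) ^ (n²+1)`) gives
`∑_σ |σ (δ p)|² ≥ d (3 n)² ≥ d (4 n² + 1)`.  Apply `Pool.Agent.OneP74.improve` with `K →+* ℂ` for `ι`,
`χ σ x = σ (β x)` (class functions; `|tr R| ≤ n` by `Pool.Agent.OneP74.exists_exponents` in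
`W_7742y_h74/FldA.lean`, the
trace is a sum of `n` roots of unity; mean square at least one by `Pool.Agent.OneP74.card_le_sum`),
`a σ p = σ (b p)`; the number of embeddings is `d` (`NumberField.Embeddings.card`).  It gives that `E` has
density zero, so `Z ∪ E` too (squeeze between `0` and the sum, `Chb_mono`, `Chb_union`, compare the
end of the proof of `Pool.Agent.OneP74.main` in `W_7742y_h74/Main.lean`), and `∑ |tr R|² ≤ |Γ|`, so
`R s` is irreducible (`Pool.Agent.GalSide.eq_bot_or_eq_top`).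

Last claim: otherwise `beta_minor` shows that the determinants `det (β (g i * h j))` of size `n²`
vanish, so also `det (tr R(g i * h j)) = s (..) = 0` for one embedding `s` (`RingHom.map_det`;
embeddings exist), in contradiction to `exists_det_ne_zero` (`Brn.lean`).
-/

set_option autoImplicit false

noncomputable section

open Filter Topology NumberField

namespace Pool.Agent.OneI74

open Pool.Agent.GalSide

variable {G : Type} [Group G] [TopologicalSpace G] [IsTopologicalGroup G] [CompactSpace G]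

theorem main (Φ : FrobeniusData G) {K : Type} [Field K] [NumberField K]
    (b : Nat.Primes → 𝓞 K)
    (hRS : ∀ σ : K →+* ℂ, ∀ ε : ℝ, 0 < ε → LogBound (1 + ε) (fun p => ‖σ (b p : K)‖ ^ 2))
    {A : Type} [CommRing A] (ι : 𝓞 K →+* A) {n : ℕ} (hn : 0 < n)
    (hN : bound n (Module.finrank ℚ K) ≤ Ideal.absNorm (RingHom.ker ι))
    (r : G →* Matrix (Fin n) (Fin n) A) (hr : IsOpen ({g | r g = 1} : Set G))
    (hZ : HasDensity {p | (r (Φ.frob p)).trace ≠ ι (b p)} 0) :
    ∃ (𝔟 : Ideal (𝓞 K)) (U : Subgroup G) (_ : U.Normal) (β : G ⧸ U → 𝓞 K),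
      RingHom.ker ι ≤ 𝔟 ∧
      XX n (Module.finrank ℚ K) ^ Module.finrank ℚ K ≤ Ideal.absNorm 𝔟 ∧
      IsOpen (U : Set G) ∧ (∀ g, r g = 1 → g ∈ U) ∧
      Nat.card (G ⧸ U) ≤ 2 * tt n (Module.finrank ℚ K) ^ n ^ 2 ∧
      (∀ g, ∃ c, ι c = (r g).trace) ∧
      (∀ g c, ι c = (r g).trace → c - β (QuotientGroup.mk g) ∈ 𝔟) ∧
      HasDensity {p | b p ≠ β (QuotientGroup.mk (Φ.frob p))} 0 ∧
      (∀ s : K →+* ℂ, ∃ R : G ⧸ U →* Matrix (Fin n) (Fin n) ℂ,
        (∀ x, (R x).trace = s (β x : K)) ∧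
        ∀ W : Submodule ℂ (Fin n → ℂ), (∀ g, ∀ w ∈ W, (R g).mulVec w ∈ W) → W = ⊥ ∨ W = ⊤) ∧
      ¬ ∀ g h : Fin (n ^ 2) → G, (Matrix.of fun i j => (r (g i * h j)).trace).det = 0 := by
  classical
  have hd : 0 < Module.finrank ℚ K := Module.finrank_pos
  obtain ⟨𝔟, U, hUn, β, h𝔟, hN𝔟, hUo, hUr, hcard, hl, hβ, hc⟩ :=
    exists_small Φ b hRS ι hn hN r hr hZ
  have : Finite (G ⧸ U) := Subgroup.quotient_finite_of_isOpen U hUo
  let _ : Fintype (G ⧸ U) := Fintype.ofFinite _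
  have hq : Function.Surjective (QuotientGroup.mk' U) := QuotientGroup.mk'_surjective U
  have hc' : ∀ g c, ι c = (r g).trace → c - β (QuotientGroup.mk' U g) ∈ 𝔟 := hc
  have hcomm := beta_comm ι (QuotientGroup.mk' U) r β hn hN𝔟 hq hl hβ hc'
  have hone := beta_one ι (QuotientGroup.mk' U) r β hn hN𝔟 hβ hc'
  have hpol := beta_pol ι (QuotientGroup.mk' U) r β hn h𝔟 hN𝔟 hq hl hβ hc'
  have hrep : ∀ s : K →+* ℂ, ∃ R : G ⧸ U →* Matrix (Fin n) (Fin n) ℂ,
      ∀ x, (R x).trace = s (β x : K) := by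
    intro s
    refine exists_rep (fun x => s (β x : K)) ?_ ?_ ?_
    · intro x y
      rw [hcomm x y]
    · rw [hone]
      simp
    · intro x
      have h1 := pol_map (s.comp (algebraMap (𝓞 K) K)) β (n + 1) x
      rw [hpol x, map_zero] at h1
      exact h1.symm
  choose R hR using hrep
  have hnorm : ∀ (s : K →+* ℂ) (x : G ⧸ U), ‖s (β x : K)‖ ≤ n := by
    intro s x
    have hm : 0 < Fintype.card (G ⧸ U) := Fintype.card_pos
    have hpow : (R s x) ^ Fintype.card (G ⧸ U) = 1 := by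
      rw [← map_pow, pow_card_eq_one, map_one]
    obtain ⟨a, ha⟩ := Pool.Agent.OneP74.exists_exponents hm (R s x) hpow _
      (Complex.isPrimitiveRoot_exp _ hm.ne')
    have h1 := ha 1
    rw [pow_one, hR] at h1
    rw [h1]
    refine (norm_sum_le _ _).trans ?_
    have h2 : ∀ i ∈ (Finset.univ : Finset (Fin n)),
        ‖Complex.exp (2 * Real.pi * Complex.I / (Fintype.card (G ⧸ U) : ℕ)) ^ (1 * a i)‖ ≤ 1 := by
      intro i _
      rw [norm_pow, (Complex.isPrimitiveRoot_exp _ hm.ne').norm'_eq_one hm.ne', one_pow]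
    refine (Finset.sum_le_sum h2).trans ?_
    rw [Finset.sum_const, Finset.card_univ, Fintype.card_fin, nsmul_eq_mul, mul_one]
  set Z : Set Nat.Primes := {p | (r (Φ.frob p)).trace ≠ ι (b p)} with hZdef
  set E : Set Nat.Primes := {p | p ∉ Z ∧ b p - β (QuotientGroup.mk (Φ.frob p)) ≠ 0} with hEdef
  have hn1 : (1 : ℝ) ≤ n := by exact_mod_cast hn
  have h3n : ((3 * n : ℕ) : ℝ) ^ Module.finrank ℚ K ≤ (Ideal.absNorm 𝔟 : ℝ) := by
    have h1 : 3 * n ≤ XX n (Module.finrank ℚ K) := by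
      have h2 : 3 * n ≤ 3 * hh n (Module.finrank ℚ K) := Nat.mul_le_mul_left 3 (le_hh hn hd)
      have h3 : 3 * hh n (Module.finrank ℚ K) ≤ (3 * hh n (Module.finrank ℚ K)) ^ (n ^ 2 + 1) :=
        Nat.le_self_pow (Nat.succ_ne_zero _) _
      have h4 : (3 * hh n (Module.finrank ℚ K)) ^ (n ^ 2 + 1) ≤ XX n (Module.finrank ℚ K) :=
        Nat.le_mul_of_pos_left _ (Nat.factorial_pos _)
      exact h2.trans (h3.trans h4)
    exact_mod_cast (Nat.pow_le_pow_left h1 _).trans hN𝔟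
  have hE : ∀ p ∈ E, (Fintype.card (K →+* ℂ) : ℝ) * (4 * (n : ℝ) ^ 2 + 1) ≤
      ∑ τ : K →+* ℂ, ‖τ (b p : K) - τ (β (QuotientGroup.mk (Φ.frob p)) : K)‖ ^ 2 := by
    intro p hpE
    have hmem : b p - β (QuotientGroup.mk (Φ.frob p)) ∈ 𝔟 := by
      refine hc _ _ ?_
      exact (not_not.1 hpE.1).symm
    have h4 := sum_sq_ge 𝔟 hmem hpE.2 (Nat.cast_nonneg (3 * n)) h3n
    rw [NumberField.Embeddings.card]
    have h5 : (Module.finrank ℚ K : ℝ) * (4 * (n : ℝ) ^ 2 + 1) ≤
        (Module.finrank ℚ K : ℝ) * ((3 * n : ℕ) : ℝ) ^ 2 := by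
      refine mul_le_mul_of_nonneg_left ?_ (Nat.cast_nonneg _)
      push_cast
      nlinarith
    refine h5.trans (h4.trans_eq ?_)
    refine Finset.sum_congr rfl fun τ _ => ?_
    rw [← map_sub]
    rfl
  have hne : Nonempty (K →+* ℂ) := by
    rw [← Fintype.card_pos_iff, NumberField.Embeddings.card]
    exact hd
  have himp := Pool.Agent.OneP74.improve Φ U hUo (ι := K →+* ℂ) (n := n)
    (fun τ x => τ (β x : K))
    (fun τ x y hxy => by
      obtain ⟨c, hcxy⟩ := isConj_iff.1 hxy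
      have h1 : β y = β x := by
        rw [← hcxy, hcomm, ← mul_assoc, inv_mul_cancel, one_mul]
      rw [h1])
    (fun τ x => hnorm τ x)
    (fun τ => by
      have h1 := Pool.Agent.OneP74.card_le_sum hn (R τ)
      simp only [hR] at h1
      exact h1)
    (fun τ p => τ (b p : K)) (fun τ ε hε => hRS τ ε hε) Z E hZ hE
    (by
      intro p hpZ hpE τ
      have h1 : b p - β (QuotientGroup.mk (Φ.frob p)) = 0 := by
        by_contra h
        exact hpE ⟨hpZ, h⟩
      rw [sub_eq_zero] at h1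
      simp only [h1])
  obtain ⟨hEd, hms⟩ := himp
  have hirr : ∀ s : K →+* ℂ, ∀ W : Submodule ℂ (Fin n → ℂ),
      (∀ g, ∀ w ∈ W, (R s g).mulVec w ∈ W) → W = ⊥ ∨ W = ⊤ := by
    intro s W hW
    refine eq_bot_or_eq_top (R s) ?_ W hW
    have h1 := hms s
    simp only [← hR] at h1
    exact h1
  refine ⟨𝔟, U, hUn, β, h𝔟, hN𝔟, hUo, hUr, hcard, hl, hc, ?_, fun s => ⟨R s, hR s, hirr s⟩, ?_⟩
  · have hsub : {p | b p ≠ β (QuotientGroup.mk (Φ.frob p))} ⊆ E ∪ Z := by
      intro p hp'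
      by_contra hcon
      rw [Set.mem_union, not_or] at hcon
      apply hp'
      by_contra h
      exact hcon.1 ⟨hcon.2, fun h' => h (sub_eq_zero.1 h')⟩
    have h3 : Tendsto (fun s : ℝ => primeSum E s / Real.log (1 / (s - 1)) +
        primeSum Z s / Real.log (1 / (s - 1))) (𝓝[>] 1) (𝓝 0) := by
      have := hEd.add hZ
      rwa [add_zero] at this
    refine squeeze_zero' ?_ ?_ h3
    · filter_upwards [Chb_log.eventually_gt_atTop 0] with s hs
      exact div_nonneg (Chb_nonneg s _) hs.le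
    · filter_upwards [Chb_log.eventually_gt_atTop 0, Chb_gt] with s hs hs1
      rw [← add_div]
      exact div_le_div_of_nonneg_right ((Chb_mono hs1 hsub).trans (Chb_union hs1 E Z)) hs.le
  · intro hm
    obtain ⟨s⟩ := hne
    obtain ⟨g, h, hdet⟩ := exists_det_ne_zero hn (R s) (hirr s)
    have h1 := beta_minor ι (QuotientGroup.mk' U) r β hn h𝔟 hN𝔟 hq hl hβ hc' hm g h
    apply hdet
    have h2 := congrArg (s.comp (algebraMap (𝓞 K) K)) h1
    rw [RingHom.map_det, map_zero] at h2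
    rw [← h2]
    congr 1
    ext i j
    rw [Matrix.of_apply, hR]
    rfl

end Pool.Agent.OneI74
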