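import Pool.Agent.W_7742z_h74.Stmt
import Pool.Agent.W_7742z_h74.Main
import Pool.Agent.W_7742z_h74.Img
import Pool.Agent.W_7742y_h74.Fin

/-!
# The theorem for one ideal, for cusp forms on `GL_n`
-/

set_option autoImplicit false

noncomputable section

open Filter Topology NumberField

namespace Pool.Agent.OneI74

open Pool.Agent.GalSide Pool.Agent.Cheb Pool.Agent.H74V

/-- The main theorem for a system of Satake classes. -/
theorem final {K : Type} [Field K] [NumberField K] {n : ℕ} (hn : 2 ≤ n)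
    (π : SatakeSystem K n) (h : ∀ σ : K →+* ℂ, π.IsCuspidal σ)
    (Fr : Nat.Primes → AbsGal ℚ) (hFr : OneP74.IsFrobeniusFamily Fr)
    {A : Type} [CommRing A] (ι : 𝓞 K →+* A)
    (hN : bound n (Module.finrank ℚ K) ≤ Ideal.absNorm (RingHom.ker ι))
    (r : AbsGal ℚ →* Matrix (Fin n) (Fin n) A)
    (hr : IsOpen ({g | r g = 1} : Set (AbsGal ℚ)))
    (hc : Congruent π Fr ι fun g => (r g).trace) :
    ∃ (𝔟 : Ideal (𝓞 K)) (U : Subgroup (AbsGal ℚ)) (_ : U.Normal) (β : AbsGal ℚ ⧸ U → 𝓞 K),
      RingHom.ker ι ≤ 𝔟 ∧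
      XX n (Module.finrank ℚ K) ^ Module.finrank ℚ K ≤ Ideal.absNorm 𝔟 ∧
      IsOpen (U : Set (AbsGal ℚ)) ∧ (∀ g, r g = 1 → g ∈ U) ∧
      (∀ g, ∃ c, ι c = (r g).trace) ∧
      (∀ g c, ι c = (r g).trace → c - β (QuotientGroup.mk g) ∈ 𝔟) ∧
      HasDensity {p : Nat.Primes | (β (QuotientGroup.mk (Fr p)) : K) ≠ (π.A p).trace} 0 ∧
      (∀ s : K →+* ℂ, ∃ R : AbsGal ℚ ⧸ U →* Matrix (Fin n) (Fin n) ℂ,
        (∀ x, (R x).trace = s (β x : K)) ∧
        ∀ W : Submodule ℂ (Fin n → ℂ), (∀ g, ∀ w ∈ W, (R g).mulVec w ∈ W) → W = ⊥ ∨ W = ⊤) ∧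
      ¬ ∀ g h : Fin (n ^ 2) → AbsGal ℚ,
        (Matrix.of fun i j => (r (g i * h j)).trace).det = 0 := by
  obtain ⟨b, hb, hb0⟩ := OneP74.exists_trace (by omega) π
  choose 𝔓 h𝔓 hp hF using hFr
  have hlev := OneP74.finite_level π.level_pos
  obtain ⟨𝔟, U, hU, β, k1, k2, k3, k4, -, k5, k6, k7, k8, k9⟩ :=
    main (frobeniusData 𝔓 h𝔓 hp Fr hF) b
    (fun σ ε hε => OneP74.logBound_trace hn π σ (h σ) b hb hb0 ε hε) ι (by omega) hN r hr
    (OneP74.density_union hc hlev (by
      intro p hp'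
      by_cases hpl : (p : ℕ) ∣ π.level
      · exact Or.inr hpl
      · refine Or.inl fun hx => hp' ?_
        obtain ⟨x, hx1, hx2⟩ := hx
        have : x = b p := by
          apply RingOfIntegers.ext
          rw [hx1, hb p hpl]
        rw [← this]
        exact hx2))
  refine ⟨𝔟, U, hU, β, k1, k2, k3, k4, k5, k6, OneP74.density_union k7 hlev ?_, k8, k9⟩
  intro p hp'
  by_cases hpl : (p : ℕ) ∣ π.level
  · exact Or.inr hpl
  · refine Or.inl fun hx => hp' ?_
    rw [← hb p hpl, hx]
    rfl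

/-- The kernel of a homomorphism to the invertible matrices. -/
theorem isOpen_ker {A : Type} [CommRing A] {m : ℕ} (r : AbsGal ℚ →* GL (Fin m) A)
    (hr : IsOpen (r.ker : Set (AbsGal ℚ))) :
    IsOpen ({g | ((Units.coeHom _).comp r) g = 1} : Set (AbsGal ℚ)) := by
  have : ({g | ((Units.coeHom _).comp r) g = 1} : Set (AbsGal ℚ)) = r.ker := by
    ext g
    exact ⟨fun h => MonoidHom.mem_ker.2 (Units.ext h),
      fun h => by
        have := MonoidHom.mem_ker.1 h
        exact congrArg Units.val this⟩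
  rw [this]
  exact hr

/-- The trace of a matrix of finite order. -/
theorem norm_trace_le {n m : ℕ} (hm : 0 < m) (M : Matrix (Fin n) (Fin n) ℂ) (hM : M ^ m = 1) :
    ‖M.trace‖ ≤ n := by
  obtain ⟨a, ha⟩ := OneP74.exists_exponents hm M hM _ (Complex.isPrimitiveRoot_exp m hm.ne')
  set ζ := Complex.exp (2 * Real.pi * Complex.I / m) with hζ
  have hz : ζ ^ m = 1 := (Complex.isPrimitiveRoot_exp m hm.ne').pow_eq_one
  have hn : ‖ζ‖ = 1 := Complex.norm_eq_one_of_pow_eq_one hz hm.ne'
  have h2 := ha 1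
  rw [pow_one] at h2
  rw [h2]
  refine (norm_sum_le _ _).trans ?_
  simp [norm_pow, hn]

/-- One representation: the traces, the determinants, and for `n ≤ 3` the characteristic
polynomials. -/
theorem final_one {K : Type} [Field K] [NumberField K] {n : ℕ} (hn : 2 ≤ n)
    (π : SatakeSystem K n) (h : ∀ σ : K →+* ℂ, π.IsCuspidal σ)
    (Fr : Nat.Primes → AbsGal ℚ) (hFr : OneP74.IsFrobeniusFamily Fr)
    {A : Type} [CommRing A] (ι : 𝓞 K →+* A)
    (hN : bound n (Module.finrank ℚ K) ≤ Ideal.absNorm (RingHom.ker ι))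
    (r : AbsGal ℚ →* GL (Fin n) A) (hr : IsOpen (r.ker : Set (AbsGal ℚ)))
    (hc : Congruent π Fr ι fun g => (r g).val.trace) (s : K →+* ℂ) :
    ∃ R : AbsGal ℚ →* GL (Fin n) ℂ, IsArtin R ∧ r.ker ≤ R.ker ∧
      HasDensity {p : Nat.Primes | (R (Fr p)).val.trace ≠ s (π.A p).trace} 0 ∧
      LiftsTraces ι r s R ∧ LiftsDets ι r s R ∧
      (n ≤ 3 → DetCongruent π Fr ι r → HasDensity {p : Nat.Primes |
          (R (Fr p)).val.charpoly ≠ (π.A p).charpoly.map s} 0) := by
  classical
  have hne : Nonempty (Fin n) := ⟨⟨0, by omega⟩⟩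
  obtain ⟨𝔟, U, hU, β, k1, k2, k3, k4, k5, k6, k7, k8, -⟩ :=
    final hn π h Fr hFr ι hN ((Units.coeHom _).comp r) (isOpen_ker r hr) hc
  have hfin : Finite (AbsGal ℚ ⧸ U) := Subgroup.quotient_finite_of_isOpen U k3
  set m := Nat.card (AbsGal ℚ ⧸ U) with hm
  have hmp : 0 < m := Nat.card_pos
  have hd : 0 < Module.finrank ℚ K := Module.finrank_pos
  choose R hRt hRi using k8
  have hRm : ∀ σ x, R σ x ^ m = 1 := by
    intro σ x
    rw [← map_pow, hm, pow_card_eq_one', map_one]
  have hlev := OneP74.finite_level π.level_pos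
  let R' : AbsGal ℚ →* GL (Fin n) ℂ := ((R s).comp (QuotientGroup.mk' U)).toHomUnits
  have hR' : ∀ g, (R' g).val = R s (QuotientGroup.mk g) := fun g => rfl
  have hU1 : ∀ g ∈ U, R' g = 1 := by
    intro g hg
    apply Units.ext
    rw [hR', (QuotientGroup.eq_one_iff g).2 hg, map_one]
    rfl
  have hT : HasDensity {p : Nat.Primes | (R' (Fr p)).val.trace ≠ s (π.A p).trace} 0 := by
    refine OneP74.density_union k7 Set.finite_empty ?_
    intro p hp
    refine Or.inl fun hx => hp ?_
    rw [hR', hRt, hx]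
  have hTg : ∀ (g : AbsGal ℚ) (x : 𝓞 K),
      (∀ σ : K →+* ℂ, ‖σ (x : K)‖ ≤ (XX n (Module.finrank ℚ K) : ℝ) / 2) →
      (r g).val.trace = ι x → (R' g).val.trace = s (x : K) := by
    intro g x hx hrx
    have e1 := k6 g x hrx.symm
    have e2 : x - β (QuotientGroup.mk g) = 0 := by
      refine eq_zero_of_small 𝔟 e1
        (X := (XX n (Module.finrank ℚ K) : ℝ) / 2 + n) (fun σ => ?_) ?_
      · have e3 : ((x - β (QuotientGroup.mk g) : 𝓞 K) : K) =
            (x : K) - (β (QuotientGroup.mk g) : K) := by push_cast; ring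
        rw [e3, map_sub]
        refine (norm_sub_le _ _).trans (add_le_add (hx σ) ?_)
        rw [← hRt σ]
        exact norm_trace_le hmp _ (hRm σ _)
      · have e9 := lt_XX (n := n) (d := Module.finrank ℚ K) (by omega) hd (k := 1)
          (by omega)
        rw [pow_one, Nat.factorial_one, one_mul] at e9
        have e10 := le_hh (n := n) (d := Module.finrank ℚ K) (by omega) hd
        have e11 : (2 * n : ℝ) < (XX n (Module.finrank ℚ K) : ℝ) := by
          exact_mod_cast (show 2 * n < XX n (Module.finrank ℚ K) by omega)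
        have e12 : (XX n (Module.finrank ℚ K) : ℝ) / 2 + n < (XX n (Module.finrank ℚ K) : ℝ) := by
          linarith
        refine (pow_lt_pow_left₀ e12 (by positivity) hd.ne').trans_le ?_
        exact_mod_cast k2
    rw [hR', hRt, ← sub_eq_zero.1 e2]
  have hDg : ∀ (g : AbsGal ℚ) (x : 𝓞 K), (∀ σ : K →+* ℂ, ‖σ (x : K)‖ ≤ 1) →
      (r g).val.det = ι x → (R' g).val.det = s (x : K) := by
    intro g x hx hx2
    have e1 := beta_det ι (QuotientGroup.mk' U) ((Units.coeHom _).comp r) β k1 k5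
      (fun g c hg => k6 g c hg) g (e := x) hx2.symm
    set γ : AbsGal ℚ ⧸ U := QuotientGroup.mk g with hγ
    have e2 : ∀ σ : K →+* ℂ, σ ((pol β n (fun _ => γ) : 𝓞 K) : K) =
        (n.factorial : ℂ) * (R σ γ).det := by
      intro σ
      rw [← pol_trace_self (R σ γ)]
      have e3 := pol_map (σ.comp (algebraMap (𝓞 K) K)) β n (fun _ => γ)
      have e4 := pol_comp (fun y => R σ y) (fun y z => map_mul _ y z)
        (fun M : Matrix (Fin n) (Fin n) ℂ => M.trace) n (fun _ => γ)
      rw [← e4]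
      refine e3.trans ?_
      congr 1
      funext y
      exact (hRt σ y).symm
    have e5 : ∀ σ : K →+* ℂ, ‖(R σ γ).det‖ = 1 := by
      intro σ
      refine Complex.norm_eq_one_of_pow_eq_one (n := m) ?_ hmp.ne'
      rw [← Matrix.det_pow, hRm, Matrix.det_one]
    have e7 : (n.factorial : 𝓞 K) * x - pol β n (fun _ => γ) = 0 := by
      refine eq_zero_of_small 𝔟 e1 (X := (2 * n.factorial : ℕ)) (fun σ => ?_) ?_
      · have e8 : σ (((n.factorial : 𝓞 K) * x - pol β n (fun _ => γ) : 𝓞 K) : K) =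
            (n.factorial : ℂ) * σ (x : K) - (n.factorial : ℂ) * (R σ γ).det := by
          rw [← e2 σ]
          push_cast
          rw [map_sub, map_mul, map_natCast]
        rw [e8]
        refine (norm_sub_le _ _).trans ?_
        rw [norm_mul, norm_mul, e5, Complex.norm_natCast]
        push_cast
        have e6 := hx σ
        have e7 : (0 : ℝ) ≤ n.factorial := Nat.cast_nonneg _
        nlinarith
      · have e9 := lt_XX (n := n) (d := Module.finrank ℚ K) (by omega) hd (k := n)
          (by nlinarith)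
        have e10 : 2 * n.factorial < XX n (Module.finrank ℚ K) := by
          refine lt_of_le_of_lt ?_ e9
          rw [mul_comm]
          refine Nat.mul_le_mul_left _ ?_
          have e11 := hh_pos (n := n) (d := Module.finrank ℚ K) (by omega) hd
          calc 2 ≤ 2 * hh n (Module.finrank ℚ K) := by omega
            _ ≤ (2 * hh n (Module.finrank ℚ K)) ^ n := Nat.le_self_pow (by omega) _
        have e12 : (2 * n.factorial) ^ Module.finrank ℚ K < Ideal.absNorm 𝔟 :=
          (Nat.pow_lt_pow_left e10 hd.ne').trans_le k2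
        exact_mod_cast e12
    have e13 := e2 s
    rw [sub_eq_zero] at e7
    rw [← e7] at e13
    have e14 : (n.factorial : ℂ) ≠ 0 := Nat.cast_ne_zero.2 (Nat.factorial_pos n).ne'
    have e15 : (n.factorial : ℂ) * s (x : K) = (n.factorial : ℂ) * (R s γ).det := by
      rw [← e13]
      push_cast
      rw [map_mul, map_natCast]
    rw [hR']
    exact (mul_left_cancel₀ e14 e15).symm
  refine ⟨R', ⟨?_, ?_⟩, ?_, hT, hTg, hDg, fun hn3 hd => ?_⟩
  · exact Subgroup.isOpen_mono (H₁ := U) (fun g hg => MonoidHom.mem_ker.2 (hU1 g hg)) k3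
  · intro W hW
    refine hRi s W fun g w hw => ?_
    obtain ⟨g, rfl⟩ := QuotientGroup.mk_surjective g
    exact hW g w hw
  · intro g hg
    exact hU1 g (k4 g (congrArg Units.val (MonoidHom.mem_ker.1 hg)))
  · have hD : HasDensity {p : Nat.Primes | (R' (Fr p)).val.det ≠ s (π.A p).det} 0 := by
      refine OneP74.density_union hd hlev ?_
      intro p hp'
      by_cases hpl : (p : ℕ) ∣ π.level
      · exact Or.inr hpl
      · refine Or.inl fun hx => hp' ?_
        obtain ⟨x, hx1, hx2⟩ := hx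
        rw [← hx1]
        refine hDg (Fr p) x (fun σ => ?_) hx2
        obtain ⟨k, hk, hk1⟩ := OneP74.det_pow hn π (h σ) (p := p) ⟨p.2, hpl⟩
        refine (Complex.norm_eq_one_of_pow_eq_one (n := k) ?_ hk.ne').le
        rw [← map_pow, hx1, hk1, map_one]
    refine OneP74.density_union (OneP74.density_union' hT hD (subset_refl _)) hlev ?_
    intro p hp'
    by_cases hpl : (p : ℕ) ∣ π.level
    · exact Or.inr hpl
    · refine Or.inl ?_
      by_contra hcon
      rw [Set.mem_union, not_or] at hcon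
      have e1 : (R' (Fr p)).val.trace = s (π.A p).trace := not_not.1 hcon.1
      have e2 : (R' (Fr p)).val.det = s (π.A p).det := not_not.1 hcon.2
      apply hp'
      have hg : π.Good p := ⟨p.2, hpl⟩
      have hu : ((π.A p).map s).charpoly = (π.A p).charpoly.map s := Matrix.charpoly_map _ _
      rw [← hu]
      have hdm : ((π.A p).map s).det = s (π.A p).det := (RingHom.map_det s _).symm
      have htm : ((π.A p).map s).trace = s (π.A p).trace :=
        (AddMonoidHom.map_trace (s : K →+ ℂ) _).symm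
      have hd0 : s (π.A p).det ≠ 0 := by
        intro h0
        exact π.det_ne_zero p p.2 hpl (s.injective (by rw [h0, map_zero]))
      refine OneP74.charpoly_eq_of_le_three hn3 _ _ ?_ ?_ ?_ ?_ ?_ ?_
      · rw [e2]
        exact hd0
      · rw [hdm]
        exact hd0
      · exact OneP74.conj_trace hmp _ (hRm s _)
      · have e3 := (GL74.cuspidal_main hn (h s)).1 p hg 1
        rw [pow_one, pow_one] at e3
        rw [htm, e3]
        have e4 : ((π.A p).map s)⁻¹ = ((π.A p)⁻¹).map s := by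
          apply Matrix.inv_eq_right_inv
          have e5 : (π.A p) * (π.A p)⁻¹ = 1 :=
            Matrix.mul_nonsing_inv _ (isUnit_iff_ne_zero.2 (π.det_ne_zero p p.2 hpl))
          rw [← Matrix.map_mul, e5, Matrix.map_one s (map_zero s) (map_one s)]
        rw [e4]
        exact AddMonoidHom.map_trace (s : K →+ ℂ) _
      · rw [e1, htm]
      · rw [e2, hdm]

/-- The bound for the image, in every characteristic. -/
theorem final_image {K : Type} [Field K] [NumberField K] {n : ℕ} (hn : 2 ≤ n)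
    (π : SatakeSystem K n) (h : ∀ σ : K →+* ℂ, π.IsCuspidal σ)
    (Fr : Nat.Primes → AbsGal ℚ) (hFr : OneP74.IsFrobeniusFamily Fr)
    {E : Type} [Field E] (φ : 𝓞 K →+* E) (r : AbsGal ℚ →* GL (Fin n) E)
    (hr : IsOpen (r.ker : Set (AbsGal ℚ))) (hc : Congruent π Fr φ fun g => (r g).val.trace) :
    (Set.range (translate r)).Finite ∧
      (Set.range (translate r)).ncard ≤ OneP74.ord n (Module.finrank ℚ K) := by
  obtain ⟨b, hb, hb0⟩ := OneP74.exists_trace (by omega) π
  choose 𝔓 h𝔓 hp hF using hFr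
  have hlev := OneP74.finite_level π.level_pos
  exact ncard_range_le (frobeniusData 𝔓 h𝔓 hp Fr hF) b
    (fun σ ε hε => OneP74.logBound_trace hn π σ (h σ) b hb hb0 ε hε) φ (by omega)
    ((Units.coeHom _).comp r) (isOpen_ker r hr)
    (OneP74.density_union hc hlev (by
      intro p hp'
      by_cases hpl : (p : ℕ) ∣ π.level
      · exact Or.inr hpl
      · refine Or.inl fun hx => hp' ?_
        obtain ⟨x, hx1, hx2⟩ := hx
        have : x = b p := by
          apply RingOfIntegers.ext
          rw [hx1, hb p hpl]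
        rw [← this]
        exact hx2))

/-- The block sum of two representations over a commutative ring. -/
theorem exists_block {Γ A : Type} [Group Γ] [CommRing A] {a b n : ℕ} (hab : a + b = n)
    (r : Γ →* Matrix (Fin a) (Fin a) A) (r' : Γ →* Matrix (Fin b) (Fin b) A) :
    ∃ t : Γ →* Matrix (Fin n) (Fin n) A, (∀ g, (t g).trace = (r g).trace + (r' g).trace) ∧
      ∀ g, r g = 1 → r' g = 1 → t g = 1 := by
  subst hab
  let t0 : Γ →* Matrix (Fin a ⊕ Fin b) (Fin a ⊕ Fin b) A :=
    { toFun := fun g => Matrix.fromBlocks (r g) 0 0 (r' g)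
      map_one' := by rw [map_one, map_one, Matrix.fromBlocks_one]
      map_mul' := fun g h => by
        rw [map_mul, map_mul, Matrix.fromBlocks_multiply]
        simp }
  refine ⟨(Matrix.reindexAlgEquiv A A finSumFinEquiv).toMonoidHom.comp t0, ?_, ?_⟩
  · intro g
    show (Matrix.reindex finSumFinEquiv finSumFinEquiv (t0 g)).trace = _
    rw [Matrix.reindex_apply, Matrix.trace]
    have h1 : ∀ i : Fin (a + b), ((t0 g).submatrix finSumFinEquiv.symm finSumFinEquiv.symm).diag i =
        (t0 g) (finSumFinEquiv.symm i) (finSumFinEquiv.symm i) := fun i => rfl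
    rw [Finset.sum_congr rfl fun i _ => h1 i,
      Equiv.sum_comp finSumFinEquiv.symm (fun i => (t0 g) i i), Fintype.sum_sum_type]
    rfl
  · intro g h1 h2
    show Matrix.reindexAlgEquiv A A finSumFinEquiv (t0 g) = 1
    have h3 : t0 g = 1 := by
      show Matrix.fromBlocks (r g) 0 0 (r' g) = 1
      rw [h1, h2, Matrix.fromBlocks_one]
    rw [h3, map_one]

/-- No sums of two representations. -/
theorem final_two {K : Type} [Field K] [NumberField K] {n : ℕ} (hn : 2 ≤ n)
    (π : SatakeSystem K n) (h : ∀ σ : K →+* ℂ, π.IsCuspidal σ)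
    (Fr : Nat.Primes → AbsGal ℚ) (hFr : OneP74.IsFrobeniusFamily Fr)
    {A : Type} [CommRing A] (ι : 𝓞 K →+* A)
    (hN : bound n (Module.finrank ℚ K) ≤ Ideal.absNorm (RingHom.ker ι))
    {a b : ℕ} (ha : 0 < a) (hb : 0 < b) (hab : a + b = n)
    (r₁ : AbsGal ℚ →* GL (Fin a) A) (r₂ : AbsGal ℚ →* GL (Fin b) A)
    (h₁ : IsOpen (r₁.ker : Set (AbsGal ℚ))) (h₂ : IsOpen (r₂.ker : Set (AbsGal ℚ)))
    (hc : Congruent π Fr ι fun g => (r₁ g).val.trace + (r₂ g).val.trace) : False := by
  obtain ⟨t, ht, ht1⟩ := exists_block hab ((Units.coeHom _).comp r₁) ((Units.coeHom _).comp r₂)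
  have ho : IsOpen ({g | t g = 1} : Set (AbsGal ℚ)) := by
    let V : Subgroup (AbsGal ℚ) := t.toHomUnits.ker
    have hV : (V : Set (AbsGal ℚ)) = {g | t g = 1} := by
      ext g
      constructor
      · intro hg
        exact congrArg Units.val (MonoidHom.mem_ker.1 hg)
      · intro hg
        exact MonoidHom.mem_ker.2 (Units.ext hg)
    rw [← hV]
    refine V.isOpen_of_mem_nhds (g := 1) ?_
    refine Filter.mem_of_superset (((isOpen_ker r₁ h₁).inter (isOpen_ker r₂ h₂)).mem_nhds
      ⟨map_one _, map_one _⟩) ?_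
    rintro g ⟨hg1, hg2⟩
    have : g ∈ {g | t g = 1} := ht1 g hg1 hg2
    rw [← hV] at this
    exact this
  have hc' : Congruent π Fr ι fun g => (t g).trace := by
    have e : (fun g => (t g).trace) = fun g => (r₁ g).val.trace + (r₂ g).val.trace := by
      funext g
      exact ht g
    rw [e]
    exact hc
  obtain ⟨𝔟, U, hU, β, -, -, -, -, -, -, -, -, k⟩ := final hn π h Fr hFr ι hN t ho hc'
  refine k fun x y => ?_
  have e : (Matrix.of fun i j => (t (x i * y j)).trace) =
      Matrix.of fun i j => ((r₁ (x i)).val * (r₁ (y j)).val).trace +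
        ((r₂ (x i)).val * (r₂ (y j)).val).trace := by
    ext i j
    show (t (x i * y j)).trace = _
    rw [ht, map_mul, map_mul]
    rfl
  rw [e]
  refine det_gram_pair ?_ (fun i => (r₁ (x i)).val) (fun j => (r₁ (y j)).val)
    (fun i => (r₂ (x i)).val) (fun j => (r₂ (y j)).val)
  subst hab
  nlinarith [Nat.mul_pos ha hb]

end Pool.Agent.OneI74
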