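import Mathlib

/-!
# Counting cosets

`G` is a finite group, `N` a subgroup, `S ⊆ G`, `b : G → O` with `b g ∈ W` for `g ∈ S`, and
`x : Fin m → G` such that: if `g * x j ∈ S`, `g' * x j ∈ S` and `b (g * x j) = b (g' * x j)`
for all `j` then `g'⁻¹ * g ∈ N`.  If `2 m |G \ S| ≤ |G|` then `|G / N| ≤ 2 |W| ^ m`.

Proof.  Let `S₁ = {g | g * x j ∈ S for all j}`; its complement is the union of `m` sets of
`|G \ S|` elements, so `|S₁| ≥ |G| / 2`.  Every fibre of the map
`S₁ → (Fin m → W)`, `g ↦ (b (g * x j))_j`, is contained in a left coset of `N`, so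
`|S₁| ≤ |W| ^ m |N|` (`Finset.card_le_mul_card_image`, or: the image of `S₁` in `G / N` has at most
`|W| ^ m` elements and each coset has `|N|` elements), and `|G / N| = |G| / |N| ≤ 2 |S₁| / |N|
≤ 2 |W| ^ m` (`Subgroup.card_eq_card_quotient_mul_card_subgroup`).
-/

set_option autoImplicit false

noncomputable section

namespace Pool.Agent.OneI74

theorem card_quot_le {G O : Type} [Group G] [Finite G] (N : Subgroup G) (S : Set G)
    (b : G → O) (W : Finset O) (hb : ∀ g ∈ S, b g ∈ W) {m : ℕ} (x : Fin m → G)
    (hsep : ∀ g g', (∀ j, g * x j ∈ S) → (∀ j, g' * x j ∈ S) →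
      (∀ j, b (g * x j) = b (g' * x j)) → g'⁻¹ * g ∈ N)
    (hc : 2 * m * Nat.card {g // g ∉ S} ≤ Nat.card G) :
    Nat.card (G ⧸ N) ≤ 2 * W.card ^ m := by
  classical
  haveI := Fintype.ofFinite G
  set c := Nat.card {g // g ∉ S} with hcdef
  let S1 : Finset G := Finset.univ.filter (fun g => ∀ j, g * x j ∈ S)
  -- the complement of `S1`
  have hbad : ∀ j : Fin m, (Finset.univ.filter (fun g : G => g * x j ∉ S)).card = c := by
    intro j
    have h1 : (Finset.univ.filter (fun g : G => g * x j ∉ S)).card
        = (Finset.univ.filter (fun g : G => g ∉ S)).card := by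
      refine Finset.card_bij (fun g _ => g * x j) ?_ ?_ ?_
      · intro g hg
        simpa using hg
      · intro g _ g' _ h
        exact mul_right_cancel h
      · intro g hg
        refine ⟨g * (x j)⁻¹, ?_, ?_⟩
        · simpa using hg
        · simp
    rw [h1, hcdef, Nat.card_eq_fintype_card, Fintype.card_subtype]
  have hcover : (Finset.univ : Finset G) ⊆ S1 ∪
      (Finset.univ : Finset (Fin m)).biUnion
        (fun j => Finset.univ.filter (fun g : G => g * x j ∉ S)) := by
    intro g _
    by_cases h : ∀ j, g * x j ∈ S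
    · exact Finset.mem_union_left _ (by simp [S1, h])
    · refine Finset.mem_union_right _ ?_
      push Not at h
      obtain ⟨j, hj⟩ := h
      simp only [Finset.mem_biUnion, Finset.mem_univ, Finset.mem_filter, true_and]
      exact ⟨j, hj⟩
  have hG : Nat.card G ≤ S1.card + m * c := by
    rw [Nat.card_eq_fintype_card, ← Finset.card_univ]
    refine (Finset.card_le_card hcover).trans ((Finset.card_union_le _ _).trans ?_)
    refine Nat.add_le_add_left ?_ _
    refine Finset.card_biUnion_le.trans ?_
    rw [Finset.sum_congr rfl (fun j _ => hbad j)]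
    simp
  -- fibres
  let f : G → (Fin m → O) := fun g j => b (g * x j)
  have hfib : S1.card ≤ Nat.card N * (S1.image f).card := by
    refine Finset.card_le_mul_card_image _ _ ?_
    intro a ha
    obtain ⟨g0, hg0, hfa⟩ := Finset.mem_image.1 ha
    have hsub : (S1.filter (fun g => f g = a)) ⊆
        (Finset.univ.filter (fun n : G => n ∈ N)).image (fun n => g0 * n) := by
      intro g hg
      obtain ⟨hgS, hga⟩ := Finset.mem_filter.1 hg
      refine Finset.mem_image.2 ⟨g0⁻¹ * g, ?_, by simp⟩
      simp only [Finset.mem_filter, Finset.mem_univ, true_and]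
      refine hsep g g0 ?_ ?_ ?_
      · simpa [S1] using hgS
      · simpa [S1] using hg0
      · intro j
        exact congrFun (hga.trans hfa.symm) j
    refine (Finset.card_le_card hsub).trans (Finset.card_image_le.trans ?_)
    rw [Nat.card_eq_fintype_card, Fintype.card_subtype]
  have himg : (S1.image f).card ≤ W.card ^ m := by
    have hsub : S1.image f ⊆ Fintype.piFinset (fun _ : Fin m => W) := by
      intro a ha
      obtain ⟨g, hg, rfl⟩ := Finset.mem_image.1 ha
      rw [Fintype.mem_piFinset]
      intro j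
      have hg' : ∀ j, g * x j ∈ S := by simpa [S1] using hg
      exact hb _ (hg' j)
    refine (Finset.card_le_card hsub).trans ?_
    rw [Fintype.card_piFinset]
    simp
  have hN : 0 < Nat.card N := Nat.card_pos
  have h1 : S1.card ≤ Nat.card N * W.card ^ m :=
    hfib.trans (Nat.mul_le_mul_left _ himg)
  have h2 : Nat.card G ≤ 2 * S1.card := by
    have h3 : 2 * m * c = 2 * (m * c) := by ring
    omega
  have h4 : Nat.card G = Nat.card (G ⧸ N) * Nat.card N :=
    Subgroup.card_eq_card_quotient_mul_card_subgroup N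
  have h5 : Nat.card (G ⧸ N) * Nat.card N ≤ (2 * W.card ^ m) * Nat.card N := by
    rw [← h4]
    calc Nat.card G ≤ 2 * S1.card := h2
      _ ≤ 2 * (Nat.card N * W.card ^ m) := Nat.mul_le_mul_left _ h1
      _ = (2 * W.card ^ m) * Nat.card N := by ring
  exact Nat.le_of_mul_le_mul_right h5 hN

end Pool.Agent.OneI74
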