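import Mathlib

/-!
# Definitions: small integers, the polarized exterior powers
-/

set_option autoImplicit false

noncomputable section

open NumberField

namespace Pool.Agent.OneI74

/-- All conjugates of `w` have absolute value at most `H`. -/
def Small {K : Type} [Field K] (H : ℕ) (w : 𝓞 K) : Prop :=
  ∀ σ : K →+* ℂ, ‖σ (w : K)‖ ≤ (H : ℝ)

/-- `pol T k (x 0, ..., x (k-1))` is the sum over the permutations of `0, ..., k-1` of the sign times
the product over the cycles of the values of `T` at the products of the `x a` over the cycle.  For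
`T` the trace of `n × n` matrices, `pol T (n + 1) = 0` and `pol T n (x, ..., x) = n! det x`. -/
def pol {M A : Type} [Mul M] [CommRing A] (T : M → A) : (k : ℕ) → (Fin k → M) → A
  | 0, _ => 1
  | k + 1, x => T (x 0) * pol T k (Fin.tail x) -
      ∑ a : Fin k, pol T k (Function.update (Fin.tail x) a (x a.succ * x 0))

theorem pol_zero {M A : Type} [Mul M] [CommRing A] (T : M → A) (x : Fin 0 → M) :
    pol T 0 x = 1 := rfl

theorem pol_succ {M A : Type} [Mul M] [CommRing A] (T : M → A) (k : ℕ) (x : Fin (k + 1) → M) :
    pol T (k + 1) x = T (x 0) * pol T k (Fin.tail x) -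
      ∑ a : Fin k, pol T k (Function.update (Fin.tail x) a (x a.succ * x 0)) := rfl

end Pool.Agent.OneI74
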