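import Mathlib

/-!
# Roots of ideals in a Dedekind domain

For a nonzero ideal `𝔞` of a Dedekind domain and `m ≥ 1` there is an ideal `𝔟 ⊇ 𝔞` such that
`𝔟 ^ m ≤ 𝔞` and `x ^ m ∈ 𝔞` implies `x ∈ 𝔟`.

Proof.  `𝔟 = ∏ 𝔭 ^ ⌈v_𝔭 (𝔞) / m⌉` over the primes dividing `𝔞`
(`UniqueFactorizationMonoid`, `Ideal.finprod_heightOneSpectrum_factorization`,
`IsDedekindDomain.HeightOneSpectrum...`, `Associates.count`; `normalizedFactors`).  `m ⌈v/m⌉ ≥ v`
gives `𝔟 ^ m ≤ 𝔞`; `⌈v/m⌉ ≤ v` gives `𝔞 ≤ 𝔟`; and if `x ^ m ∈ 𝔞`, `x ≠ 0`, then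
`m v_𝔭 (x) ≥ v_𝔭 (𝔞)`, so `v_𝔭 (x) ≥ ⌈v_𝔭 (𝔞) / m⌉` for all `𝔭`, i.e. `𝔟 ∣ (x)`.

Another way: induction on the factorization (`induction_on_prime`, `UniqueFactorizationMonoid.induction_on_coprime`): for a
prime power `𝔞 = 𝔭 ^ v`, `𝔟 = 𝔭 ^ ⌈v/m⌉`; for coprime `𝔞₁`, `𝔞₂` take the product `𝔟₁ 𝔟₂`
(`𝔟₁ ⊓ 𝔟₂`, coprime because `𝔟_i ^ m ≤ 𝔞_i`).
-/

set_option autoImplicit false

noncomputable section

namespace Pool.Agent.OneI74

theorem exists_root {O : Type} [CommRing O] [IsDedekindDomain O] (𝔞 : Ideal O) (h𝔞 : 𝔞 ≠ ⊥)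
    {m : ℕ} (hm : 0 < m) :
    ∃ 𝔟 : Ideal O, 𝔞 ≤ 𝔟 ∧ 𝔟 ^ m ≤ 𝔞 ∧ ∀ x : O, x ^ m ∈ 𝔞 → x ∈ 𝔟 := by
  revert h𝔞
  refine UniqueFactorizationMonoid.induction_on_coprime 𝔞 ?_ ?_ ?_ ?_
  · intro h
    exact absurd rfl h
  · intro x hx _
    rw [Ideal.isUnit_iff] at hx
    refine ⟨⊤, le_top, ?_, fun _ _ => Submodule.mem_top⟩
    rw [hx]
    exact le_top
  · intro p i hp _
    obtain ⟨k, hk⟩ : ∃ k : ℕ, k = (i + m - 1) / m := ⟨_, rfl⟩
    have h1 : i ≤ k * m := by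
      have h2 := Nat.lt_div_mul_add (a := i + m - 1) hm
      rw [← hk] at h2
      omega
    have h3 : k * m ≤ i + m - 1 := by
      rw [hk]
      exact Nat.div_mul_le_self _ _
    have h4 : k ≤ i := by
      rcases Nat.eq_zero_or_pos k with h5 | h5
      · omega
      · obtain ⟨j, rfl⟩ : ∃ j, k = j + 1 := ⟨k - 1, by omega⟩
        have h6 : j ≤ j * m := Nat.le_mul_of_pos_right _ hm
        have h7 : (j + 1) * m = j * m + m := by ring
        omega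
    refine ⟨p ^ k, Ideal.pow_le_pow_right h4, ?_, fun x hx => ?_⟩
    · rw [← pow_mul]
      exact Ideal.pow_le_pow_right h1
    · rw [← Ideal.dvd_span_singleton] at hx ⊢
      rw [← Ideal.span_singleton_pow, pow_dvd_iff_le_emultiplicity, emultiplicity_pow hp] at hx
      rw [pow_dvd_iff_le_emultiplicity]
      generalize emultiplicity p (Ideal.span {x}) = e at hx ⊢
      induction e using ENat.recTopCoe with
      | top => exact le_top
      | coe n =>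
        have h5 : i ≤ m * n := by exact_mod_cast hx
        have h6 : k ≤ n := by
          by_contra h7
          push Not at h7
          have h8 : (n + 1) * m ≤ k * m := Nat.mul_le_mul_right m h7
          have h9 : (n + 1) * m = m * n + m := by ring
          omega
        exact_mod_cast h6
  · intro a₁ a₂ hcop ih1 ih2 h0
    have ha1 : a₁ ≠ ⊥ := by
      rintro rfl
      exact h0 (Ideal.bot_mul _)
    have ha2 : a₂ ≠ ⊥ := by
      rintro rfl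
      exact h0 (Ideal.mul_bot _)
    obtain ⟨b₁, h1, h2, h3⟩ := ih1 ha1
    obtain ⟨b₂, h4, h5, h6⟩ := ih2 ha2
    have hsup : a₁ ⊔ a₂ = ⊤ := by
      rw [← Ideal.isUnit_iff]
      exact hcop (Ideal.dvd_iff_le.2 le_sup_left) (Ideal.dvd_iff_le.2 le_sup_right)
    have hbc : IsCoprime b₁ b₂ := by
      rw [Ideal.isCoprime_iff_sup_eq]
      exact top_le_iff.1 (hsup ▸ sup_le_sup h1 h4)
    refine ⟨b₁ * b₂, Ideal.mul_mono h1 h4, ?_, fun x hx => ?_⟩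
    · rw [mul_pow]
      exact Ideal.mul_mono h2 h5
    · have h7 : a₁ * a₂ ≤ a₁ := Ideal.mul_le_left
      have h8 : a₁ * a₂ ≤ a₂ := Ideal.mul_le_right
      have h9 : x ∈ b₁ ⊓ b₂ := Submodule.mem_inf.2 ⟨h3 x (h7 hx), h6 x (h8 hx)⟩
      rwa [Ideal.inf_eq_mul_of_isCoprime hbc] at h9

end Pool.Agent.OneI74
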