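import Mathlib

/-!
# Sparse functions on a group with vanishing determinants are nilpotent

`d : G → A` is a function on a finite group with values in a commutative ring such that
`det (d (k i * x j)) = 0` for all `k, x : Fin M → G`, and `M² |supp d| < |G|`.  Then `d y ^ M = 0` for
all `y`.

Proof.  Choose `k 0, k 1, ..., k (M-1)` one after the other such that `k i * (k j)⁻¹ * y ∉ supp d` and
`k j * (k i)⁻¹ * y ∉ supp d` for `j < i`: for every `j < i` at most `2 |supp d|` elements `k i` are
excluded, in total at most `2 (M - 1) |supp d| < |G|` (if `M = 0` the claim `det = 1 = 0` makes `A`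
trivial; for `M ≥ 1`, `2 (M - 1) ≤ M²`).  Put `x j = (k j)⁻¹ * y`.  The matrix `(d (k i * x j))` is
diagonal with the diagonal entries `d y` (`Matrix.det_diagonal`), so `d y ^ M = 0`.
(A counting argument also works: for a uniformly random `k`, each of the `M (M - 1)` conditions
`k i * (k j)⁻¹ * y ∈ supp d` has probability `|supp d| / |G|`.)
-/

set_option autoImplicit false

noncomputable section

namespace Pool.Agent.OneI74

theorem Spr_step {G : Type} [Group G] [Fintype G] [DecidableEq G] (S : Finset G) (y : G) (n : ℕ)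
    (k : Fin n → G) (h : n * (2 * S.card) < Fintype.card G) :
    ∃ g : G, ∀ j, g * (k j)⁻¹ * y ∉ S ∧ k j * g⁻¹ * y ∉ S := by
  obtain ⟨bad, hbad⟩ : ∃ bad : Finset G, bad = Finset.univ.biUnion fun j : Fin n =>
      S.image (fun t => t * y⁻¹ * k j) ∪ S.image (fun t => y * t⁻¹ * k j) := ⟨_, rfl⟩
  have hc : bad.card < Fintype.card G := by
    rw [hbad]
    refine lt_of_le_of_lt Finset.card_biUnion_le ?_
    refine lt_of_le_of_lt (Finset.sum_le_sum (g := fun _ => 2 * S.card) fun j _ => ?_) ?_
    · refine (Finset.card_union_le _ _).trans ?_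
      have h1 := Finset.card_image_le (s := S) (f := fun t => t * y⁻¹ * k j)
      have h2 := Finset.card_image_le (s := S) (f := fun t => y * t⁻¹ * k j)
      omega
    · rw [Finset.sum_const, Finset.card_univ, Fintype.card_fin, smul_eq_mul]
      exact h
  obtain ⟨g, hg⟩ : ∃ g, g ∉ bad := by
    by_contra hne
    push Not at hne
    have h1 : bad = Finset.univ := Finset.eq_univ_of_forall hne
    rw [h1, Finset.card_univ] at hc
    exact lt_irrefl _ hc
  refine ⟨g, fun j => ⟨fun h1 => hg ?_, fun h1 => hg ?_⟩⟩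
  · rw [hbad, Finset.mem_biUnion]
    refine ⟨j, Finset.mem_univ _, Finset.mem_union_left _ (Finset.mem_image.2 ⟨_, h1, ?_⟩)⟩
    group
  · rw [hbad, Finset.mem_biUnion]
    refine ⟨j, Finset.mem_univ _, Finset.mem_union_right _ (Finset.mem_image.2 ⟨_, h1, ?_⟩)⟩
    group

theorem Spr_exists {G : Type} [Group G] [Fintype G] [DecidableEq G] (S : Finset G) (y : G)
    (n : ℕ) (h : (n - 1) * (2 * S.card) < Fintype.card G) :
    ∃ k : Fin n → G, ∀ i j, i ≠ j → k i * (k j)⁻¹ * y ∉ S := by
  induction n with
  | zero => exact ⟨Fin.elim0, fun i => i.elim0⟩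
  | succ n ih =>
    have h1 : (n - 1) * (2 * S.card) < Fintype.card G := by
      refine lt_of_le_of_lt (Nat.mul_le_mul_right _ ?_) h
      omega
    obtain ⟨k, hk⟩ := ih h1
    obtain ⟨g, hg⟩ := Spr_step S y n k (by simpa using h)
    refine ⟨Fin.cons g k, fun i j => ?_⟩
    refine Fin.cases ?_ (fun i => ?_) i
    · refine Fin.cases ?_ (fun j => ?_) j
      · intro h2
        exact absurd rfl h2
      · intro _
        rw [Fin.cons_zero, Fin.cons_succ]
        exact (hg j).1
    · refine Fin.cases ?_ (fun j => ?_) j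
      · intro _
        rw [Fin.cons_zero, Fin.cons_succ]
        exact (hg i).2
      · intro h2
        rw [Fin.cons_succ, Fin.cons_succ]
        exact hk i j fun h3 => h2 (by rw [h3])

theorem pow_eq_zero_of_sparse {G A : Type} [Group G] [Finite G] [CommRing A] (d : G → A) (M : ℕ)
    (hdet : ∀ k x : Fin M → G, (Matrix.of fun i j => d (k i * x j)).det = 0)
    (hs : M ^ 2 * Nat.card {y // d y ≠ 0} < Nat.card G) (y : G) : d y ^ M = 0 := by
  classical
  have := Fintype.ofFinite G
  obtain ⟨S, hS⟩ : ∃ S : Finset G, S = Finset.univ.filter fun y => d y ≠ 0 := ⟨_, rfl⟩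
  have hc : Nat.card {y // d y ≠ 0} = S.card := by
    rw [Nat.card_eq_fintype_card, Fintype.card_subtype, hS]
  rw [hc, Nat.card_eq_fintype_card] at hs
  have h1 : (M - 1) * (2 * S.card) < Fintype.card G := by
    refine lt_of_le_of_lt ?_ hs
    rw [← mul_assoc]
    refine Nat.mul_le_mul_right _ ?_
    rcases Nat.eq_zero_or_pos M with h | h
    · subst h
      norm_num
    · obtain ⟨n, rfl⟩ : ∃ n, M = n + 1 := ⟨M - 1, by omega⟩
      rw [Nat.add_sub_cancel]
      nlinarith
  obtain ⟨k, hk⟩ := Spr_exists S y M h1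
  have h2 := hdet k (fun j => (k j)⁻¹ * y)
  have h3 : (Matrix.of fun i j => d (k i * ((k j)⁻¹ * y))) =
      Matrix.diagonal fun _ : Fin M => d y := by
    ext i j
    rw [Matrix.of_apply]
    by_cases h : i = j
    · rw [h, Matrix.diagonal_apply_eq]
      congr 1
      group
    · rw [Matrix.diagonal_apply_ne _ h]
      have h4 := hk i j h
      rw [hS, Finset.mem_filter] at h4
      by_contra h5
      exact h4 ⟨Finset.mem_univ _, by rw [mul_assoc]; exact h5⟩
  rw [h3, Matrix.det_diagonal, Finset.prod_const, Finset.card_univ, Fintype.card_fin] at h2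
  exact h2

end Pool.Agent.OneI74
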