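import Mathlib

/-!
# Test elements

`b : G → O` is a function with values in a domain and `S ⊆ G` such that all determinants
`det (b (k i * x j))` of size `N + 1` with `k i * x j ∈ S` for all `i, j` vanish.  There are
`m ≤ N` and `k, x : Fin m → G` such that the values `b (g * x j)` determine `b (g * h)`, as long as all
products concerned lie in `S`.

Proof.  Let `m` be the largest number for which there are `k, x : Fin m → G` with `k i * x j ∈ S` for
all `i, j` and `Δ = det (b (k i * x j)) ≠ 0` (`m = 0` is possible: the empty determinant is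
`1 ≠ 0`; a number `m ≥ N + 1` is impossible: for `m = N + 1` by assumption; for larger `m` a nonzero
determinant of size `m` has a nonzero minor of size `m - 1`, by Laplace expansion, and so one of size
`N + 1`; or choose `m` maximal among the numbers `≤ N`).  Let `g * x j`, `k i * h`, `g * h ∈ S`.  The
bordered determinant of size `m + 1` with the additional row `g` and column `h` vanishes (`m + 1` is not
possible; if `m = N` by assumption); expand it: `b (g * h) Δ = ∑_{i, j} c_{ij} b (g * x j) b (k i * h)`
with cofactors `c_{ij}` which do not depend on `g`, `h` (block matrices: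
`Matrix.det_fromBlocks₁₁`, or the Laplace expansion along the last row: the minors do not depend on `g`).
So if `b (g * x j) = b (g' * x j)` for all `j` then `b (g * h) Δ = b (g' * h) Δ`: the difference of the
two bordered determinants, which differ only in the last row, is `± (b (g * h) - b (g' * h)) Δ`
(`Matrix.det_updateRow_add`, the row of the difference has only one nonzero entry).
-/

set_option autoImplicit false

noncomputable section

namespace Pool.Agent.OneI74

theorem exists_tests {G O : Type} [Group G] [CommRing O] [IsDomain O] (S : Set G) (b : G → O)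
    (N : ℕ) (hmin : ∀ k x : Fin (N + 1) → G, (∀ i j, k i * x j ∈ S) →
      (Matrix.of fun i j => b (k i * x j)).det = 0) :
    ∃ (m : ℕ) (k x : Fin m → G), m ≤ N ∧ ∀ g g' h : G, (∀ j, g * x j ∈ S) →
      (∀ j, g' * x j ∈ S) → (∀ j, b (g * x j) = b (g' * x j)) → (∀ i, k i * h ∈ S) →
      g * h ∈ S → g' * h ∈ S → b (g * h) = b (g' * h) := by
  classical
  obtain ⟨m, hmN, ⟨k, x, hkx, hdet⟩, hmax⟩ : ∃ m ≤ N, (∃ k x : Fin m → G, (∀ i j, k i * x j ∈ S) ∧
      (Matrix.of fun i j => b (k i * x j)).det ≠ 0) ∧ ∀ m', m < m' → m' ≤ N →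
        ¬ (∃ k x : Fin m' → G, (∀ i j, k i * x j ∈ S) ∧
          (Matrix.of fun i j => b (k i * x j)).det ≠ 0) := by
    let P : ℕ → Prop := fun m => ∃ k x : Fin m → G, (∀ i j, k i * x j ∈ S) ∧
      (Matrix.of fun i j => b (k i * x j)).det ≠ 0
    have P0 : P 0 := ⟨Fin.elim0, Fin.elim0, fun i => i.elim0, by simp⟩
    refine ⟨Nat.findGreatest P N, Nat.findGreatest_le N, Nat.findGreatest_spec (Nat.zero_le N) P0, ?_⟩
    intro m' h1 h2
    exact Nat.findGreatest_is_greatest h1 h2
  have hzero : ∀ k x : Fin (m + 1) → G, (∀ i j, k i * x j ∈ S) →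
      (Matrix.of fun i j => b (k i * x j)).det = 0 := by
    intro k x hkx
    rcases eq_or_lt_of_le hmN with h | h
    · subst h
      exact hmin k x hkx
    · by_contra hne
      exact hmax (m + 1) (Nat.lt_succ_self m) h ⟨k, x, hkx, hne⟩
  refine ⟨m, k, x, hmN, ?_⟩
  intro g g' h hg hg' hgg hk hgh hgh'
  have hin : ∀ g : G, (∀ j, g * x j ∈ S) → g * h ∈ S → ∀ i j : Fin (m + 1),
      (Fin.cons g k : Fin (m + 1) → G) i * (Fin.cons h x : Fin (m + 1) → G) j ∈ S := by
    intro g h1 h2 i j
    refine Fin.cases ?_ (fun i => ?_) i <;> refine Fin.cases ?_ (fun j => ?_) j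
    · simpa using h2
    · simpa using h1 j
    · simpa using hk i
    · simpa using hkx i j
  have e1 := hzero (Fin.cons g k) (Fin.cons h x) (hin g hg hgh)
  have e2 := hzero (Fin.cons g' k) (Fin.cons h x) (hin g' hg' hgh')
  rw [Matrix.det_succ_row_zero, Fin.sum_univ_succ] at e1 e2
  have hm : ∀ (g : G) (j : Fin (m + 1)),
      ((Matrix.of fun i j => b ((Fin.cons g k : Fin (m + 1) → G) i *
        (Fin.cons h x : Fin (m + 1) → G) j)).submatrix Fin.succ j.succAbove) =
      Matrix.of fun i l => b (k i * (Fin.cons h x : Fin (m + 1) → G) (j.succAbove l)) := by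
    intro g j
    ext i l
    simp
  simp only [hm] at e1 e2
  have h0 : (Matrix.of fun (i l : Fin m) => b (k i * (Fin.cons h x : Fin (m + 1) → G)
      ((0 : Fin (m + 1)).succAbove l))) = Matrix.of fun i j => b (k i * x j) := by
    ext i l
    simp
  rw [h0] at e1 e2
  simp only [Matrix.of_apply, Fin.cons_zero, Fin.cons_succ] at e1 e2
  simp only [hgg] at e1
  have e3 : (b (g * h) - b (g' * h)) * (Matrix.of fun i j => b (k i * x j)).det = 0 := by
    have e4 := e1.trans e2.symm
    have e5 := add_right_cancel e4
    simp only [Fin.val_zero, pow_zero, one_mul] at e5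
    rw [sub_mul, e5, sub_self]
  rcases mul_eq_zero.mp e3 with h1 | h1
  · exact sub_eq_zero.mp h1
  · exact absurd h1 hdet

end Pool.Agent.OneI74
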