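import Pool.Agent.W_7742z_h74.Bnd
import Pool.Agent.W_7742z_h74.Dfs
import Pool.Agent.W_7742z_h74.Rad
import Pool.Agent.W_7742z_h74.Sml
import Pool.Agent.W_7742z_h74.Spr
import Pool.Agent.W_7742z_h74.Vec
import Pool.Agent.W_7742z_h74.Cos
import Pool.Agent.W_7742y_h74.CntA

/-!
# The subgroup

`Γ` is a finite group and `T : Γ → A` a function with `T (x y) = T (y x)`, with values in the image of
`ι : 𝓞 K → A`, such that the determinants of size `n² + 1` of `T (k i * x j)` and of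
`T (k i * x j * z) - T (k i * x j)` vanish; few elements `x` have a value `T x` which is not of the form
`ι w` with `w` small, and the norm of `ker ι` is at least `bound n d`.  Then there are an ideal
`𝔟 ⊇ ker ι` of norm at least `XX n d ^ d` and a normal subgroup `N` of index at most `2 t ^ (n²)` such
that `T` is `N`-invariant modulo `𝔟`.

Proof.  Write `M = n ^ 2 + 1`, `H = HH n d`, `t = tt n d`, `X = XX n d`, `𝔞 = ker ι`.  `𝔞 ≠ ⊥`, as its
norm is positive (`Ideal.absNorm_bot`; `bound n d > 0`).  Take `𝔟` from `exists_root 𝔞 _ (m := M)`: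
`N 𝔟 ^ M = N (𝔟 ^ M) ≥ N 𝔞 ≥ (X ^ d) ^ M` (`Ideal.absNorm_dvd_absNorm_of_le`, `map_pow`; `𝔟 ^ M ≠ ⊥` as
`𝔟 ≥ 𝔞`), so `N 𝔟 ≥ X ^ d` (`Nat.pow_le_pow_iff_left` / `lt_of_pow_lt_pow_left`).

For `x : Γ` let `b x` be an integer with `ι (b x) = T x`, small (`Small H`) if possible, and let `S` be
the set of the `x` for which this is possible.  By `hbad`, `H ^ 2 |Γ \ S| ≤ 3 d |Γ|`, so with
`H = 2 d (n ^ 2 + 2) ^ 2`: `4 d (n ^ 2 + 2) ^ 4 |Γ \ S| ≤ 3 |Γ|`, hence
`(n ^ 2 + 2) ^ 4 |Γ \ S| < |Γ|`.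

If `k i * x j ∈ S` for all `i, j < M` then `D = det (b (k i * x j)) = 0`: it lies in `ker ι`
(`RingHom.map_det`, `h1`), and `|σ D| ≤ M! H ^ M` (`Matrix.det_apply`, `norm_sum_le`, or
`Matrix.det_le`), and `(M! H ^ M) ^ d < X ^ d ≤ bound n d` (`lt_XX` with `2 H`; `HH_le_hh`), so
`eq_zero_of_small` applies.  `exists_tests` with `N = n ^ 2` gives `m ≤ n ^ 2`, `k`, `x : Fin m → Γ`.

Let `N = {z | ∀ y c c', ι c = T (y * z) → ι c' = T y → c - c' ∈ 𝔟}`.  Since `ker ι ≤ 𝔟`, the condition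
for one pair `c`, `c'` implies it for all.  `N` is a normal subgroup: for products
`c (y z z') - c y = (c (y z z') - c (y z)) + (c (y z) - c y)`; inverses: replace `y` by `y z⁻¹`;
conjugates: `T (y w z w⁻¹) = T (w⁻¹ y w z)` and `T y = T (w⁻¹ y w)`.

Let `g`, `g'` be such that `g * x j`, `g' * x j ∈ S` and `b (g * x j) = b (g' * x j)` for all `j`.  Put
`z = g * g'⁻¹` and `δ y = T (y * z) - T y`.  Claim: `δ y = 0` if `k i * (g'⁻¹ * y) ∈ S` for all `i`,
`g * (g'⁻¹ * y) ∈ S` and `y ∈ S`: by `exists_tests` (with `h = g'⁻¹ * y`)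
`b (g * g'⁻¹ * y) = b (g' * g'⁻¹ * y) = b y`, and applying `ι`, `T (z * y) = T y`, and
`T (y * z) = T (z * y)`.  So `|supp δ| ≤ (m + 2) |Γ \ S| ≤ (n ^ 2 + 2) |Γ \ S|` (each of the conditions
fails for exactly `|Γ \ S|` elements `y`), and `M ^ 2 |supp δ| < |Γ|`.
`pow_eq_zero_of_sparse` with `h2` for `z` gives `δ y ^ M = 0` for all `y`.  If `ι c = T (y * z)` and
`ι c' = T y` then `(c - c') ^ M ∈ ker ι`, so `c - c' ∈ 𝔟`.  Hence `z ∈ N` and, `N` being normal,
`g'⁻¹ * g = g'⁻¹ * z * g' ∈ N`.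

`card_quot_le` for `W` the finset of the `w` with `Small H w` (`Pool.Agent.OneP74.card_bounded K H`,
`|W| ≤ t`; the condition `2 m |Γ \ S| ≤ |Γ|` holds as `2 n ^ 2 ≤ (n ^ 2 + 2) ^ 4`) gives
`|Γ / N| ≤ 2 |W| ^ m ≤ 2 t ^ (n ^ 2)` (`t ≥ 1`).
-/

set_option autoImplicit false

noncomputable section

open NumberField

namespace Pool.Agent.OneI74

/-- The determinant of a matrix of small integers is small. -/
theorem Sub_det_small {K : Type} [Field K] {H M : ℕ} (B : Matrix (Fin M) (Fin M) (𝓞 K))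
    (hB : ∀ i j, Small H (B i j)) (σ : K →+* ℂ) :
    ‖σ (B.det : K)‖ ≤ ((M.factorial * H ^ M : ℕ) : ℝ) := by
  have h1 : σ (B.det : K) = ((σ.comp (algebraMap (𝓞 K) K)).mapMatrix B).det := by
    rw [← RingHom.map_det]
    rfl
  rw [h1, Matrix.det_apply]
  refine (norm_sum_le _ _).trans ?_
  have h2 : ∀ τ : Equiv.Perm (Fin M),
      ‖Equiv.Perm.sign τ • ∏ i, ((σ.comp (algebraMap (𝓞 K) K)).mapMatrix B) (τ i) i‖ ≤
        (H : ℝ) ^ M := by
    intro τ
    have h3 : ‖Equiv.Perm.sign τ • ∏ i, ((σ.comp (algebraMap (𝓞 K) K)).mapMatrix B) (τ i) i‖ =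
        ‖∏ i, ((σ.comp (algebraMap (𝓞 K) K)).mapMatrix B) (τ i) i‖ := by
      rcases Int.units_eq_one_or (Equiv.Perm.sign τ) with h | h
      · rw [h, one_smul]
      · rw [h, Units.neg_smul, one_smul, norm_neg]
    rw [h3, norm_prod]
    calc ∏ i, ‖((σ.comp (algebraMap (𝓞 K) K)).mapMatrix B) (τ i) i‖ ≤ ∏ _i : Fin M, (H : ℝ) :=
          Finset.prod_le_prod (fun _ _ => norm_nonneg _) fun i _ => hB (τ i) i σ
      _ = (H : ℝ) ^ M := by
          rw [Finset.prod_const, Finset.card_univ, Fintype.card_fin]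
  refine (Finset.sum_le_sum fun τ _ => h2 τ).trans ?_
  rw [Finset.sum_const, Finset.card_univ, Fintype.card_perm, Fintype.card_fin, nsmul_eq_mul]
  push_cast
  exact le_rfl

/-- A union bound for the translates of the complement of a set. -/
theorem Sub_card_le {G : Type} [Group G] [Finite G] (S : Set G) {r : ℕ} (u : Fin r → G)
    (P : G → Prop) (h : ∀ y, P y → ∃ i, u i * y ∉ S) :
    Nat.card {y // P y} ≤ r * Nat.card {g // g ∉ S} := by
  classical
  have := Fintype.ofFinite G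
  rw [Nat.card_eq_fintype_card, Nat.card_eq_fintype_card, Fintype.card_subtype,
    Fintype.card_subtype]
  have h1 : (Finset.univ.filter fun y : G => P y) ⊆
      (Finset.univ : Finset (Fin r)).biUnion fun i =>
        Finset.univ.filter fun y : G => u i * y ∉ S := by
    intro y hy
    obtain ⟨i, hi⟩ := h y (Finset.mem_filter.1 hy).2
    exact Finset.mem_biUnion.2 ⟨i, Finset.mem_univ _, Finset.mem_filter.2 ⟨Finset.mem_univ _, hi⟩⟩
  refine (Finset.card_le_card h1).trans (Finset.card_biUnion_le.trans ?_)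
  have h2 : ∀ i : Fin r, (Finset.univ.filter fun y : G => u i * y ∉ S).card ≤
      (Finset.univ.filter fun y : G => y ∉ S).card := by
    intro i
    refine Finset.card_le_card_of_injOn (fun y => u i * y) ?_ ?_
    · intro y hy
      have hy' := (Finset.mem_filter.1 (Finset.mem_coe.1 hy)).2
      exact Finset.mem_coe.2 (Finset.mem_filter.2 ⟨Finset.mem_univ _, hy'⟩)
    · intro y _ y' _ hyy
      exact mul_left_cancel hyy
  refine (Finset.sum_le_sum fun i _ => h2 i).trans ?_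
  rw [Finset.sum_const, Finset.card_univ, Fintype.card_fin, smul_eq_mul]

theorem exists_subgroup {K : Type} [Field K] [NumberField K] {A : Type} [CommRing A]
    (ι : 𝓞 K →+* A) {n : ℕ} (hn : 0 < n)
    (hN : bound n (Module.finrank ℚ K) ≤ Ideal.absNorm (RingHom.ker ι))
    {Γ : Type} [Group Γ] [Finite Γ] (T : Γ → A) (hT : ∀ x y, T (x * y) = T (y * x))
    (hl : ∀ x, ∃ c, ι c = T x)
    (h1 : ∀ k x : Fin (n ^ 2 + 1) → Γ, (Matrix.of fun i j => T (k i * x j)).det = 0)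
    (h2 : ∀ (z : Γ) (k x : Fin (n ^ 2 + 1) → Γ),
      (Matrix.of fun i j => T (k i * x j * z) - T (k i * x j)).det = 0)
    (hbad : ∀ H : ℕ, 0 < H → H ^ 2 * Nat.card {x : Γ // ¬ ∃ w : 𝓞 K, Small H w ∧ ι w = T x} ≤
      3 * Module.finrank ℚ K * Nat.card Γ) :
    ∃ (𝔟 : Ideal (𝓞 K)) (N : Subgroup Γ) (_ : N.Normal), RingHom.ker ι ≤ 𝔟 ∧
      XX n (Module.finrank ℚ K) ^ Module.finrank ℚ K ≤ Ideal.absNorm 𝔟 ∧
      Nat.card (Γ ⧸ N) ≤ 2 * tt n (Module.finrank ℚ K) ^ n ^ 2 ∧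
      ∀ z ∈ N, ∀ y c c', ι c = T (y * z) → ι c' = T y → c - c' ∈ 𝔟 := by
  classical
  obtain ⟨d, hd⟩ : ∃ d, d = Module.finrank ℚ K := ⟨_, rfl⟩
  have hdpos : 0 < d := by
    rw [hd]
    exact Module.finrank_pos
  rw [← hd] at hN hbad ⊢
  have hX : 0 < XX n d := lt_of_le_of_lt (Nat.zero_le _) (lt_XX hn hdpos (le_refl (n ^ 2 + 1)))
  have hbp : 0 < bound n d := Nat.pow_pos hX
  have h𝔞 : RingHom.ker ι ≠ ⊥ := by
    intro h
    rw [h, Ideal.absNorm_bot] at hN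
    omega
  obtain ⟨𝔟, hab, hbm, hroot⟩ := exists_root (RingHom.ker ι) h𝔞 (Nat.succ_pos (n ^ 2))
  -- the norm of `𝔟`
  have hb0 : 𝔟 ≠ ⊥ := by
    intro h
    rw [h] at hab
    exact h𝔞 (le_bot_iff.1 hab)
  have hbN : XX n d ^ d ≤ Ideal.absNorm 𝔟 := by
    have e1 : Ideal.absNorm (RingHom.ker ι) ≤ Ideal.absNorm (𝔟 ^ (n ^ 2 + 1)) := by
      refine Nat.le_of_dvd (Nat.pos_of_ne_zero ?_) (Ideal.absNorm_dvd_absNorm_of_le hbm)
      rw [map_pow]
      refine pow_ne_zero _ ?_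
      intro h
      exact hb0 (Ideal.absNorm_eq_zero_iff.1 h)
    rw [map_pow] at e1
    have e2 : (XX n d ^ d) ^ (n ^ 2 + 1) ≤ Ideal.absNorm 𝔟 ^ (n ^ 2 + 1) := by
      rw [← pow_mul]
      exact hN.trans e1
    exact (Nat.pow_le_pow_iff_left (Nat.succ_ne_zero _)).1 e2
  -- the lifts
  obtain ⟨H, hH⟩ : ∃ H, H = HH n d := ⟨_, rfl⟩
  have hHpos : 0 < H := by
    rw [hH]
    exact HH_pos hdpos
  obtain ⟨S, hS⟩ : ∃ S : Set Γ, ∀ x, x ∈ S ↔ ∃ w : 𝓞 K, Small H w ∧ ι w = T x :=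
    ⟨{x | ∃ w : 𝓞 K, Small H w ∧ ι w = T x}, fun _ => Iff.rfl⟩
  obtain ⟨b, hbT, hbS⟩ : ∃ b : Γ → 𝓞 K, (∀ x, ι (b x) = T x) ∧ ∀ x ∈ S, Small H (b x) := by
    have e1 : ∀ x, ∃ c : 𝓞 K, ι c = T x ∧ (x ∈ S → Small H c) := by
      intro x
      by_cases hx : x ∈ S
      · obtain ⟨w, hw1, hw2⟩ := (hS x).1 hx
        exact ⟨w, hw2, fun _ => hw1⟩
      · obtain ⟨c, hc⟩ := hl x
        exact ⟨c, hc, fun h => absurd h hx⟩
    choose b hb using e1
    exact ⟨b, fun x => (hb x).1, fun x hx => (hb x).2 hx⟩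
  -- the number of bad elements
  obtain ⟨c, hc⟩ : ∃ c, c = Nat.card {x : Γ // x ∉ S} := ⟨_, rfl⟩
  have hΓ : 0 < Nat.card Γ := Nat.card_pos
  have hcs : (n ^ 2 + 2) ^ 4 * c < Nat.card Γ := by
    have e1 := hbad H hHpos
    have e2 : Nat.card {x : Γ // ¬ ∃ w : 𝓞 K, Small H w ∧ ι w = T x} = c := by
      rw [hc]
      refine Nat.card_congr (Equiv.subtypeEquivRight fun x => ?_)
      rw [hS x]
    rw [e2, hH] at e1
    have e3 : HH n d ^ 2 * c = d * (d * (4 * ((n ^ 2 + 2) ^ 4 * c))) := by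
      unfold HH
      ring
    have e4 : 3 * d * Nat.card Γ = d * (3 * Nat.card Γ) := by ring
    rw [e3, e4] at e1
    have e5 := Nat.le_of_mul_le_mul_left e1 hdpos
    have e6 : 4 * ((n ^ 2 + 2) ^ 4 * c) ≤ d * (4 * ((n ^ 2 + 2) ^ 4 * c)) :=
      Nat.le_mul_of_pos_left _ hdpos
    omega
  -- the determinants vanish
  have hmin : ∀ k x : Fin (n ^ 2 + 1) → Γ, (∀ i j, k i * x j ∈ S) →
      (Matrix.of fun i j => b (k i * x j)).det = 0 := by
    intro k x hkx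
    have e1 : (Matrix.of fun i j => b (k i * x j)).det ∈ RingHom.ker ι := by
      rw [RingHom.mem_ker, RingHom.map_det, ← h1 k x]
      congr 1
      ext i j
      exact hbT _
    refine eq_zero_of_small (RingHom.ker ι) e1
      (X := (((n ^ 2 + 1).factorial * H ^ (n ^ 2 + 1) : ℕ) : ℝ))
      (fun σ => Sub_det_small (Matrix.of fun i j => b (k i * x j))
        (fun i j => hbS _ (hkx i j)) σ) ?_
    have e2 : (n ^ 2 + 1).factorial * H ^ (n ^ 2 + 1) < XX n d := by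
      refine lt_of_le_of_lt ?_ (lt_XX hn hdpos (le_refl (n ^ 2 + 1)))
      refine Nat.mul_le_mul_left _ (Nat.pow_le_pow_left ?_ _)
      rw [hH]
      exact (HH_le_hh hn hdpos).trans (Nat.le_mul_of_pos_left _ two_pos)
    have e3 : ((n ^ 2 + 1).factorial * H ^ (n ^ 2 + 1)) ^ d < XX n d ^ d :=
      Nat.pow_lt_pow_left e2 hdpos.ne'
    have e4 : XX n d ^ d ≤ bound n d := by
      unfold bound
      exact Nat.pow_le_pow_right hX (Nat.le_mul_of_pos_right _ (Nat.succ_pos _))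
    have e5 := lt_of_lt_of_le e3 (e4.trans hN)
    rw [← hd]
    exact_mod_cast e5
  obtain ⟨m, k, x, hm, htest⟩ := exists_tests S b (n ^ 2) hmin
  -- the subgroup
  let N : Subgroup Γ :=
    { carrier := {z | ∀ y c c', ι c = T (y * z) → ι c' = T y → c - c' ∈ 𝔟}
      mul_mem' := by
        intro z z' hz hz' y c c' e1 e2
        obtain ⟨c'', hc''⟩ := hl (y * z)
        have e3 := hz' (y * z) c c'' (by rw [e1, mul_assoc]) hc''
        have e4 := hz y c'' c' hc'' e2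
        have e5 := 𝔟.add_mem e3 e4
        rwa [sub_add_sub_cancel] at e5
      one_mem' := by
        intro y c c' e1 e2
        refine hab ?_
        rw [RingHom.mem_ker, map_sub, e1, e2, mul_one, sub_self]
      inv_mem' := by
        intro z hz y c c' e1 e2
        have e3 := hz (y * z⁻¹) c' c (by rw [e2, inv_mul_cancel_right]) e1
        have e4 := 𝔟.neg_mem e3
        rwa [neg_sub] at e4 }
  have hNmem : ∀ z, z ∈ N ↔ ∀ y c c', ι c = T (y * z) → ι c' = T y → c - c' ∈ 𝔟 :=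
    fun z => Iff.rfl
  have hNn : N.Normal := by
    refine ⟨fun z hz g => ?_⟩
    rw [hNmem] at hz ⊢
    intro y c c' e1 e2
    refine hz (g⁻¹ * y * g) c c' ?_ ?_
    · rw [e1]
      have e3 : y * (g * z * g⁻¹) = (y * g * z) * g⁻¹ := by group
      have e4 : g⁻¹ * y * g * z = g⁻¹ * (y * g * z) := by group
      rw [e3, e4, hT]
    · rw [e2]
      have e3 : g⁻¹ * y * g = g⁻¹ * (y * g) := by group
      rw [e3, hT, mul_inv_cancel_right]
  -- the pairs with the same tests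
  have hsep : ∀ g g', (∀ j, g * x j ∈ S) → (∀ j, g' * x j ∈ S) →
      (∀ j, b (g * x j) = b (g' * x j)) → g'⁻¹ * g ∈ N := by
    intro g g' hg hg' hgg
    have hz0 : ∀ y, T (y * (g * g'⁻¹)) - T y ≠ 0 → ∃ i : Fin (m + 2),
        (Fin.cons 1 (Fin.cons (g * g'⁻¹) fun i => k i * g'⁻¹ : Fin (m + 1) → Γ) :
          Fin (m + 2) → Γ) i * y ∉ S := by
      intro y hy
      by_contra hne
      push Not at hne
      refine hy ?_
      have f1 := hne 0
      have f2 := hne (Fin.succ 0)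
      have f3 := fun i : Fin m => hne (Fin.succ (Fin.succ i))
      rw [Fin.cons_zero, one_mul] at f1
      rw [Fin.cons_succ, Fin.cons_zero] at f2
      simp only [Fin.cons_succ] at f3
      have f4 := htest g g' (g'⁻¹ * y) hg hg' hgg (fun i => by
        rw [← mul_assoc]
        exact f3 i) (by
        rw [← mul_assoc]
        exact f2) (by
        rw [mul_inv_cancel_left]
        exact f1)
      have f5 := congrArg ι f4
      rw [hbT, hbT, mul_inv_cancel_left, ← mul_assoc] at f5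
      rw [hT, f5, sub_self]
    have hcard := Sub_card_le S _ (fun y => T (y * (g * g'⁻¹)) - T y ≠ 0) hz0
    rw [← hc] at hcard
    have hsparse : (n ^ 2 + 1) ^ 2 * Nat.card {y // T (y * (g * g'⁻¹)) - T y ≠ 0} <
        Nat.card Γ := by
      refine lt_of_le_of_lt ?_ hcs
      refine (Nat.mul_le_mul_left _ hcard).trans ?_
      rw [← mul_assoc]
      refine Nat.mul_le_mul_right _ ?_
      have f1 : (n ^ 2 + 1) ^ 2 ≤ (n ^ 2 + 2) ^ 2 := Nat.pow_le_pow_left (by omega) 2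
      have f2 : m + 2 ≤ (n ^ 2 + 2) ^ 2 := by
        have f3 : n ^ 2 + 2 ≤ (n ^ 2 + 2) ^ 2 := Nat.le_self_pow two_ne_zero _
        omega
      calc (n ^ 2 + 1) ^ 2 * (m + 2) ≤ (n ^ 2 + 2) ^ 2 * (n ^ 2 + 2) ^ 2 := Nat.mul_le_mul f1 f2
        _ = (n ^ 2 + 2) ^ 4 := by ring
    have hzN : g * g'⁻¹ ∈ N := by
      rw [hNmem]
      intro y c1 c2 e1 e2
      refine hroot _ ?_
      rw [RingHom.mem_ker, map_pow, map_sub, e1, e2]
      exact pow_eq_zero_of_sparse (fun y => T (y * (g * g'⁻¹)) - T y) (n ^ 2 + 1)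
        (fun k x => h2 (g * g'⁻¹) k x) hsparse y
    have e1 := hNn.conj_mem _ hzN g'⁻¹
    have e2 : g'⁻¹ * (g * g'⁻¹) * g'⁻¹⁻¹ = g'⁻¹ * g := by group
    rwa [e2] at e1
  -- counting
  obtain ⟨hWfin, hWcard⟩ := Pool.Agent.OneP74.card_bounded K H hHpos
  have hW1 : ∀ g ∈ S, b g ∈ hWfin.toFinset := by
    intro g hg
    rw [Set.Finite.mem_toFinset]
    exact hbS g hg
  have hW2 : hWfin.toFinset.card ≤ tt n d := by
    rw [← Set.ncard_eq_toFinset_card _ hWfin]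
    refine hWcard.trans ?_
    rw [← hd, hH]
    exact le_rfl
  have hq := card_quot_le N S b hWfin.toFinset hW1 x hsep (by
    rw [← hc]
    refine le_of_lt (lt_of_le_of_lt ?_ hcs)
    refine Nat.mul_le_mul_right _ ?_
    have f1 : n ^ 2 + 2 ≤ (n ^ 2 + 2) ^ 2 := Nat.le_self_pow two_ne_zero _
    have f2 : (n ^ 2 + 2) ^ 2 * 2 ≤ (n ^ 2 + 2) ^ 2 * (n ^ 2 + 2) ^ 2 := by
      refine Nat.mul_le_mul_left _ ?_
      have f3 : 2 ≤ n ^ 2 + 2 := by omega
      exact f3.trans f1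
    have f4 : (n ^ 2 + 2) ^ 2 * (n ^ 2 + 2) ^ 2 = (n ^ 2 + 2) ^ 4 := by ring
    omega)
  refine ⟨𝔟, N, hNn, hab, hbN, ?_, fun z hz => (hNmem z).1 hz⟩
  refine hq.trans (Nat.mul_le_mul_left _ ?_)
  exact (Nat.pow_le_pow_left hW2 _).trans (Nat.pow_le_pow_right (tt_pos hdpos) hm)

end Pool.Agent.OneI74
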