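import Mathlib

/-!
# The constants

For the rank `n` and the degree `d`: `H` is the bound for the conjugates in the first step, `t` bounds
the number of integers with all conjugates at most `H`, `2 t ^ (n²)` bounds the order of the group, `h`
is the bound for the conjugates in the second step, and `bound n d` is the bound for the norm of the
ideal.
-/

set_option autoImplicit false

noncomputable section

namespace Pool.Agent.OneI74

/-- Bound for the conjugates in the first step. -/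
def HH (n d : ℕ) : ℕ := 2 * d * (n ^ 2 + 2) ^ 2

/-- Bound for the number of integers all of whose conjugates are at most `HH n d`. -/
def tt (n d : ℕ) : ℕ := d * (2 * (2 * HH n d) ^ d + 1) ^ (d + 1)

/-- Bound for the conjugates in the second step. -/
def hh (n d : ℕ) : ℕ := 2 * d * (2 * tt n d ^ n ^ 2 + 1)

/-- The base of the bound. -/
def XX (n d : ℕ) : ℕ := (n ^ 2 + 1).factorial * (3 * hh n d) ^ (n ^ 2 + 1)

/-- Bound for the norm of the ideal. -/
def bound (n d : ℕ) : ℕ := XX n d ^ (d * (n ^ 2 + 1))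

variable {n d : ℕ}

theorem HH_pos (hd : 0 < d) : 0 < HH n d :=
  Nat.mul_pos (Nat.mul_pos two_pos hd) (Nat.pow_pos (Nat.succ_pos _))

theorem le_HH (hd : 0 < d) : n ≤ HH n d := by
  have h1 : n ≤ (n ^ 2 + 2) ^ 2 := by nlinarith [Nat.zero_le n, Nat.zero_le (n ^ 2)]
  exact h1.trans (Nat.le_mul_of_pos_left _ (Nat.mul_pos two_pos hd))

theorem HH_le_tt (hd : 0 < d) : HH n d ≤ tt n d := by
  have h1 : 2 * HH n d ≤ (2 * HH n d) ^ d := Nat.le_self_pow hd.ne' _
  have h2 : 2 * (2 * HH n d) ^ d + 1 ≤ (2 * (2 * HH n d) ^ d + 1) ^ (d + 1) :=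
    Nat.le_self_pow (Nat.succ_ne_zero d) _
  have h3 : (2 * (2 * HH n d) ^ d + 1) ^ (d + 1) ≤ tt n d := Nat.le_mul_of_pos_left _ hd
  omega

theorem tt_pos (hd : 0 < d) : 0 < tt n d := (HH_pos hd).trans_le (HH_le_tt hd)

theorem tt_le_hh (hn : 0 < n) (hd : 0 < d) : tt n d ≤ hh n d := by
  have h1 : tt n d ≤ tt n d ^ n ^ 2 := Nat.le_self_pow (Nat.pow_pos hn).ne' _
  have h2 : 2 * tt n d ^ n ^ 2 + 1 ≤ hh n d :=
    Nat.le_mul_of_pos_left _ (Nat.mul_pos two_pos hd)
  omega

theorem HH_le_hh (hn : 0 < n) (hd : 0 < d) : HH n d ≤ hh n d :=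
  (HH_le_tt hd).trans (tt_le_hh hn hd)

theorem le_hh (hn : 0 < n) (hd : 0 < d) : n ≤ hh n d := (le_HH hd).trans (HH_le_hh hn hd)

theorem hh_pos (hn : 0 < n) (hd : 0 < d) : 0 < hh n d := (HH_pos hd).trans_le (HH_le_hh hn hd)

/-- Any natural number below `(k)! (2 h) ^ k`, `k ≤ n ^ 2 + 1`, is below the base `XX`. -/
theorem lt_XX (hn : 0 < n) (hd : 0 < d) {k : ℕ} (hk : k ≤ n ^ 2 + 1) :
    k.factorial * (2 * hh n d) ^ k < XX n d := by
  have hp := hh_pos hn hd
  have h1 : k.factorial * (2 * hh n d) ^ k ≤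
      (n ^ 2 + 1).factorial * (2 * hh n d) ^ (n ^ 2 + 1) :=
    Nat.mul_le_mul (Nat.factorial_le hk) (Nat.pow_le_pow_right (by omega) hk)
  refine h1.trans_lt ?_
  refine Nat.mul_lt_mul_of_pos_left ?_ (Nat.factorial_pos _)
  exact Nat.pow_lt_pow_left (by omega) (Nat.succ_ne_zero _)

end Pool.Agent.OneI74
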