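import Pool.Agent.W_7742z_h74.Bnd
import Pool.Agent.W_7742z_h74.Dfs

/-!
# Small values on the quotient

Let `T : Γ → A` be `N`-invariant modulo `𝔟`, `|Γ / N| ≤ o = 2 t ^ (n²)`.  With `h = hh n d = 2 d (o + 1)`:
`h ^ 2 |B| ≤ 3 d |Γ|` for the set `B` of the `x` such that `T x` is not of the form `ι w` with
`Small h w`, so `4 d (o + 1) ^ 2 |B| ≤ 3 |Γ|` and `(o + 1) ^ 2 |B| < |Γ| = |Γ / N| |N| ≤ o |N|`, so
`|B| < |N|` and every coset `g N` (of `|N|` elements) contains an element `g z ∉ B`, i.e.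
`T (g z) = ι w` with `w` small.  Choose such an element for every coset `x` (`Quotient.out`) and let
`β x = w`.  If `ι c = T g` and `x = mk g`, the chosen element is `g z`, `z ∈ N`, `ι w = T (g z)`, so
`w - c ∈ 𝔟` by `hN`.
-/

set_option autoImplicit false

noncomputable section

open NumberField

namespace Pool.Agent.OneI74

theorem Sel_card {Γ : Type} [Group Γ] [Finite Γ] (N : Subgroup Γ) (B : Γ → Prop)
    (h : Nat.card {x : Γ // B x} < Nat.card N) (g : Γ) : ∃ z ∈ N, ¬ B (g * z) := by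
  by_contra hne
  push Not at hne
  have h1 : Nat.card N ≤ Nat.card {x : Γ // B x} := by
    refine Nat.card_le_card_of_injective
      (fun z : N => (⟨g * z, hne z z.2⟩ : {x : Γ // B x})) ?_
    intro z z' hz
    have h2 : g * (z : Γ) = g * (z' : Γ) := congrArg Subtype.val hz
    exact Subtype.ext (mul_left_cancel h2)
  omega

theorem Sel_arith {d o B N G h q : ℕ} (hd : 0 < d) (hh : h = 2 * d * (o + 1))
    (h1 : h ^ 2 * B ≤ 3 * d * G) (hG : 0 < G) (h2 : G = q * N) (h3 : q ≤ o) : B < N := by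
  have h4 : d * (4 * d * (o + 1) ^ 2 * B) ≤ d * (3 * G) := by
    have e1 : d * (4 * d * (o + 1) ^ 2 * B) = h ^ 2 * B := by rw [hh]; ring
    have e2 : d * (3 * G) = 3 * d * G := by ring
    rw [e1, e2]
    exact h1
  have h5 : 4 * d * (o + 1) ^ 2 * B ≤ 3 * G := Nat.le_of_mul_le_mul_left h4 hd
  have h6 : (o + 1) ^ 2 * B ≤ d * ((o + 1) ^ 2 * B) := Nat.le_mul_of_pos_left _ hd
  have h7 : (o + 1) ^ 2 * B < G := by
    have e3 : 4 * d * (o + 1) ^ 2 * B = 4 * (d * ((o + 1) ^ 2 * B)) := by ring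
    omega
  have h8 : G ≤ o * N := by rw [h2]; exact Nat.mul_le_mul_right _ h3
  have h9 : o * N ≤ (o + 1) ^ 2 * N := Nat.mul_le_mul_right _ (by nlinarith)
  exact Nat.lt_of_mul_lt_mul_left (h7.trans_le (h8.trans h9))

theorem exists_beta {K : Type} [Field K] [NumberField K] {A : Type} [CommRing A]
    (ι : 𝓞 K →+* A) {n : ℕ} (hn : 0 < n) (𝔟 : Ideal (𝓞 K))
    {Γ : Type} [Group Γ] [Finite Γ] (T : Γ → A) (N : Subgroup Γ) [N.Normal]
    (hcard : Nat.card (Γ ⧸ N) ≤ 2 * tt n (Module.finrank ℚ K) ^ n ^ 2)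
    (hN : ∀ z ∈ N, ∀ y c c', ι c = T (y * z) → ι c' = T y → c - c' ∈ 𝔟)
    (hbad : hh n (Module.finrank ℚ K) ^ 2 *
      Nat.card {x : Γ // ¬ ∃ w : 𝓞 K, Small (hh n (Module.finrank ℚ K)) w ∧ ι w = T x} ≤
      3 * Module.finrank ℚ K * Nat.card Γ) :
    ∃ β : Γ ⧸ N → 𝓞 K, (∀ x, Small (hh n (Module.finrank ℚ K)) (β x)) ∧
      ∀ g c, ι c = T g → c - β (QuotientGroup.mk g) ∈ 𝔟 := by
  have hd : 0 < Module.finrank ℚ K := Module.finrank_pos
  have hG : 0 < Nat.card Γ := Nat.card_pos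
  have hlt : Nat.card {x : Γ // ¬ ∃ w : 𝓞 K, Small (hh n (Module.finrank ℚ K)) w ∧ ι w = T x} <
      Nat.card N :=
    Sel_arith (o := 2 * tt n (Module.finrank ℚ K) ^ n ^ 2) hd rfl hbad hG
      (Subgroup.card_eq_card_quotient_mul_card_subgroup N) hcard
  have hex : ∀ x : Γ ⧸ N, ∃ w : 𝓞 K, Small (hh n (Module.finrank ℚ K)) w ∧
      ∃ z ∈ N, ι w = T (x.out * z) := by
    intro x
    obtain ⟨z, hz, hz'⟩ := Sel_card N _ hlt x.out
    rw [not_not] at hz'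
    obtain ⟨w, hw, hw'⟩ := hz'
    exact ⟨w, hw, z, hz, hw'⟩
  choose β hβ hβ' using hex
  refine ⟨β, hβ, fun g c hc => ?_⟩
  obtain ⟨z, hz, hw⟩ := hβ' (QuotientGroup.mk g)
  have h1 : (QuotientGroup.mk g : Γ ⧸ N) =
      QuotientGroup.mk ((QuotientGroup.mk g : Γ ⧸ N).out) := (QuotientGroup.out_eq' _).symm
  have h2 : g⁻¹ * (QuotientGroup.mk g : Γ ⧸ N).out ∈ N := QuotientGroup.eq.1 h1
  have h3 : (QuotientGroup.mk g : Γ ⧸ N).out * z =
      g * (g⁻¹ * (QuotientGroup.mk g : Γ ⧸ N).out * z) := by group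
  rw [h3] at hw
  have h4 := hN _ (N.mul_mem h2 hz) g _ _ hw hc
  have h5 := 𝔟.neg_mem h4
  rwa [neg_sub] at h5

end Pool.Agent.OneI74
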