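import Pool.Agent.W_7742z_h74.Gram
import Pool.Agent.W_7742z_h74.Frb
import Pool.Agent.W_7742z_h74.Sub
import Pool.Agent.W_7742z_h74.Sel

/-!
# The small function congruent to the trace

Let `d = [K : ℚ]`, `ι : 𝓞 K → A` a homomorphism to a commutative ring whose kernel has norm at least
`bound n d`, and `r : G → M_n(A)` a representation with open kernel such that
`tr r(frob p) = ι (b p)` for `p` outside a set of density zero.  Then there are an ideal `𝔟 ⊇ ker ι` of
norm `≥ XX n d ^ d`, an open normal subgroup `U` of index at most `2 t ^ (n²)` containing the kernel of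
`r`, and a function `β : G / U → 𝓞 K` with small values congruent to the trace of `r` modulo `𝔟`.

Proof.  Let `U₀` be the kernel of `r` (open normal), `Γ₀ = G / U₀`, finite
(`Subgroup.quotient_finite_of_isOpen`), and `ρ : Γ₀ → M_n(A)` the
induced homomorphism (`QuotientGroup.lift`), `T x = tr (ρ x)`.  `T (x y) = T (y x)` by
`Matrix.trace_mul_comm`.  Let `Z` be the exceptional set.  `T (mk (frob p)) = ι (b p)` for `p ∉ Z`.
Every value of `T` is in the image of `ι`: `exists_frob` gives `p ∉ Z` with `mk (frob p)` conjugate to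
`x`, so `T x = ι (b p)`.  The determinants `h1`, `h2` of `exists_subgroup` vanish by `det_gram` with
`U i = ρ (k i)`, `V j = ρ (x j)`, resp. `V j = ρ (x j) * (ρ z - 1)`
(`tr (ρ (k x z)) - tr (ρ (k x)) = tr (ρ k * (ρ x * (ρ z - 1)))`).  `hbad` is `card_bad`.  So
`exists_subgroup` gives `𝔟`, `N ≤ Γ₀`, and `exists_beta` gives `β₀ : Γ₀ / N → 𝓞 K`.

Let `U` be the preimage of `N` in `G` (`Subgroup.comap (QuotientGroup.mk' U₀) N`), open since it
contains `U₀` (`Subgroup.isOpen_mono`), and `Γ = G / U ≅ Γ₀ / N` (the third isomorphism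
theorem `QuotientGroup.quotientQuotientEquivQuotient`; or define
`β (mk g) = β₀ (mk (mk g))` by `Quotient.lift`, the cardinalities of `G / U` and `Γ₀ / N` agree by an
explicit bijection).  So `β : G ⧸ U → 𝓞 K` has small values and `c - β (mk g) ∈ 𝔟` if
`ι c = tr (r g)`.
-/

set_option autoImplicit false

noncomputable section

open Filter Topology NumberField

namespace Pool.Agent.OneI74

open Pool.Agent.GalSide

variable {G : Type} [Group G] [TopologicalSpace G] [IsTopologicalGroup G] [CompactSpace G]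

theorem exists_small (Φ : FrobeniusData G) {K : Type} [Field K] [NumberField K]
    (b : Nat.Primes → 𝓞 K)
    (hRS : ∀ σ : K →+* ℂ, ∀ ε : ℝ, 0 < ε → LogBound (1 + ε) (fun p => ‖σ (b p : K)‖ ^ 2))
    {A : Type} [CommRing A] (ι : 𝓞 K →+* A) {n : ℕ} (hn : 0 < n)
    (hN : bound n (Module.finrank ℚ K) ≤ Ideal.absNorm (RingHom.ker ι))
    (r : G →* Matrix (Fin n) (Fin n) A) (hr : IsOpen ({g | r g = 1} : Set G))
    (hZ : HasDensity {p | (r (Φ.frob p)).trace ≠ ι (b p)} 0) :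
    ∃ (𝔟 : Ideal (𝓞 K)) (U : Subgroup G) (_ : U.Normal) (β : G ⧸ U → 𝓞 K),
      RingHom.ker ι ≤ 𝔟 ∧
      XX n (Module.finrank ℚ K) ^ Module.finrank ℚ K ≤ Ideal.absNorm 𝔟 ∧
      IsOpen (U : Set G) ∧ (∀ g, r g = 1 → g ∈ U) ∧
      Nat.card (G ⧸ U) ≤ 2 * tt n (Module.finrank ℚ K) ^ n ^ 2 ∧
      (∀ g, ∃ c, ι c = (r g).trace) ∧
      (∀ x, Small (hh n (Module.finrank ℚ K)) (β x)) ∧
      (∀ g c, ι c = (r g).trace → c - β (QuotientGroup.mk g) ∈ 𝔟) := by
  have hd : 0 < Module.finrank ℚ K := Module.finrank_pos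
  have hU₀ : IsOpen ((r.ker : Subgroup G) : Set G) := hr
  have hfin : Finite (G ⧸ r.ker) := Subgroup.quotient_finite_of_isOpen r.ker hU₀
  obtain ⟨ρ, hρ⟩ : ∃ ρ : G ⧸ r.ker →* Matrix (Fin n) (Fin n) A,
      ∀ g : G, ρ (QuotientGroup.mk g) = r g :=
    ⟨QuotientGroup.lift r.ker r le_rfl, fun g => rfl⟩
  obtain ⟨T, hT⟩ : ∃ T : G ⧸ r.ker → A, ∀ x, T x = (ρ x).trace := ⟨_, fun _ => rfl⟩
  have hTc : ∀ x y, T (x * y) = T (y * x) := by
    intro x y
    rw [hT, hT, map_mul, map_mul, Matrix.trace_mul_comm]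
  have hTf : ∀ p ∉ {p | (r (Φ.frob p)).trace ≠ ι (b p)},
      T (QuotientGroup.mk (Φ.frob p)) = ι (b p) := by
    intro p hp
    rw [hT, hρ]
    by_contra h
    exact hp h
  have hTconj : ∀ x y, IsConj x y → T x = T y := by
    intro x y h
    obtain ⟨c, hc⟩ := isConj_iff.1 h
    rw [← hc, mul_assoc, hTc, mul_assoc, inv_mul_cancel, mul_one]
  have hl : ∀ x, ∃ c, ι c = T x := by
    intro x
    obtain ⟨g, rfl⟩ := QuotientGroup.mk_surjective x
    obtain ⟨p, hp, hc⟩ := exists_frob Φ r.ker hU₀ g hZ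
    exact ⟨b p, by rw [← hTconj _ _ hc, hTf p hp]⟩
  have h1 : ∀ k x : Fin (n ^ 2 + 1) → G ⧸ r.ker,
      (Matrix.of fun i j => T (k i * x j)).det = 0 := by
    intro k x
    have h := det_gram (Nat.lt_succ_self (n ^ 2)) (fun i => ρ (k i)) (fun j => ρ (x j))
    simp only [hT, map_mul]
    exact h
  have h2 : ∀ (z : G ⧸ r.ker) (k x : Fin (n ^ 2 + 1) → G ⧸ r.ker),
      (Matrix.of fun i j => T (k i * x j * z) - T (k i * x j)).det = 0 := by
    intro z k x
    have h := det_gram (Nat.lt_succ_self (n ^ 2)) (fun i => ρ (k i))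
      (fun j => ρ (x j) * (ρ z - 1))
    have h3 : ∀ i j, T (k i * x j * z) - T (k i * x j) =
        (ρ (k i) * (ρ (x j) * (ρ z - 1))).trace := by
      intro i j
      rw [hT, hT, map_mul, map_mul, ← Matrix.trace_sub, mul_sub, mul_sub, mul_one, mul_assoc]
    simp only [h3]
    exact h
  have hbad : ∀ H : ℕ, 0 < H →
      H ^ 2 * Nat.card {x : G ⧸ r.ker // ¬ ∃ w : 𝓞 K, Small H w ∧ ι w = T x} ≤
      3 * Module.finrank ℚ K * Nat.card (G ⧸ r.ker) := fun H hH =>
    card_bad Φ b hRS r.ker hU₀ ι T hTc hZ hTf hH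
  obtain ⟨𝔟, N, hNn, hker, hX, hcard, hinv⟩ :=
    exists_subgroup ι hn hN T hTc hl h1 h2 hbad
  obtain ⟨β₀, hβ₀, hβ₁⟩ := exists_beta ι hn 𝔟 T N hcard hinv (hbad _ (hh_pos hn hd))
  obtain ⟨U, hU⟩ : ∃ U : Subgroup G, U = N.comap (QuotientGroup.mk' r.ker) := ⟨_, rfl⟩
  have hUn : U.Normal := by rw [hU]; exact hNn.comap _
  have hmem : ∀ g : G, g ∈ U ↔ (QuotientGroup.mk g : G ⧸ r.ker) ∈ N := by
    intro g
    rw [hU, Subgroup.mem_comap]
    rfl
  have hkU : r.ker ≤ U := by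
    intro g hg
    rw [hmem, (QuotientGroup.eq_one_iff g).2 hg]
    exact N.one_mem
  obtain ⟨f, hf⟩ : ∃ f : G ⧸ U →* (G ⧸ r.ker) ⧸ N,
      ∀ g : G, f (QuotientGroup.mk g) = QuotientGroup.mk (QuotientGroup.mk g : G ⧸ r.ker) :=
    ⟨QuotientGroup.lift U ((QuotientGroup.mk' N).comp (QuotientGroup.mk' r.ker)) (by
      intro g hg
      rw [MonoidHom.mem_ker, MonoidHom.comp_apply]
      exact (QuotientGroup.eq_one_iff _).2 ((hmem g).1 hg)), fun g => rfl⟩
  have hfi : Function.Injective f := by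
    rw [injective_iff_map_eq_one]
    intro x hx
    obtain ⟨g, rfl⟩ := QuotientGroup.mk_surjective x
    rw [hf] at hx
    exact (QuotientGroup.eq_one_iff g).2 ((hmem g).2 ((QuotientGroup.eq_one_iff _).1 hx))
  refine ⟨𝔟, U, hUn, fun x => β₀ (f x), hker, hX, Subgroup.isOpen_mono hkU hU₀,
    fun g hg => hkU hg, (Nat.card_le_card_of_injective f hfi).trans hcard, ?_,
    fun x => hβ₀ (f x), ?_⟩
  · intro g
    obtain ⟨c, hc⟩ := hl (QuotientGroup.mk g)
    exact ⟨c, by rw [hc, hT, hρ]⟩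
  · intro g c hc
    have h3 := hβ₁ (QuotientGroup.mk g) c (by rw [hT, hρ]; exact hc)
    rw [← hf] at h3
    exact h3

end Pool.Agent.OneI74
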