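import Pool.Agent.W_7742y_h74.Stmt
import Pool.Agent.W_7742z_h74.Bnd

/-!
# Definitions for the statement of the theorem for one ideal

`OneP74.IsFrobeniusFamily`: a family of Frobenius elements at all primes in the absolute Galois group
of `ℚ`; `GalSide.HasDensity`: Dirichlet density.
-/

set_option autoImplicit false

noncomputable section

namespace Pool.Agent.OneI74

open NumberField
open Pool.Agent.GalSide Pool.Agent.Cheb Pool.Agent.H74V

variable {K : Type} [Field K] [NumberField K] {n : ℕ}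

/-- `T (Fr p) = ι (tr A p)` for all primes `p` outside a set of Dirichlet density zero. -/
def Congruent (π : SatakeSystem K n) (Fr : Nat.Primes → AbsGal ℚ) {A : Type} [CommRing A]
    (ι : 𝓞 K →+* A) (T : AbsGal ℚ → A) : Prop :=
  HasDensity {p : Nat.Primes | ¬ ∃ x : 𝓞 K, (x : K) = (π.A p).trace ∧ T (Fr p) = ι x} 0

/-- `det r(Fr p) = ι (det A p)` for all primes `p` outside a set of Dirichlet density zero. -/
def DetCongruent (π : SatakeSystem K n) (Fr : Nat.Primes → AbsGal ℚ) {A : Type} [CommRing A]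
    (ι : 𝓞 K →+* A) (r : AbsGal ℚ →* GL (Fin n) A) : Prop :=
  HasDensity {p : Nat.Primes | ¬ ∃ x : 𝓞 K, (x : K) = (π.A p).det ∧ (r (Fr p)).val.det = ι x} 0

/-- The function which sends `g` to the function `h ↦ tr r(g h)`. -/
def translate {A : Type} [CommRing A] (r : AbsGal ℚ →* GL (Fin n) A) (g h : AbsGal ℚ) : A :=
  (r (g * h)).val.trace

/-- `R` is an irreducible complex representation with open kernel. -/
def IsArtin (R : AbsGal ℚ →* GL (Fin n) ℂ) : Prop :=
  IsOpen (R.ker : Set (AbsGal ℚ)) ∧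
    ∀ W : Submodule ℂ (Fin n → ℂ), (∀ g, ∀ w ∈ W, (R g).val.mulVec w ∈ W) → W = ⊥ ∨ W = ⊤

/-- `tr R(g) = s x` for all `g` and `x` with `tr r(g) = ι x` such that all conjugates of `x` have
absolute value at most `XX n d / 2`, `d = [K : ℚ]`. -/
def LiftsTraces {A : Type} [CommRing A] (ι : 𝓞 K →+* A) (r : AbsGal ℚ →* GL (Fin n) A)
    (s : K →+* ℂ) (R : AbsGal ℚ →* GL (Fin n) ℂ) : Prop :=
  ∀ (g : AbsGal ℚ) (x : 𝓞 K),
    (∀ σ : K →+* ℂ, ‖σ (x : K)‖ ≤ (XX n (Module.finrank ℚ K) : ℝ) / 2) →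
    (r g).val.trace = ι x → (R g).val.trace = s (x : K)

/-- `det R(g) = s x` for all `g` and `x` with `det r(g) = ι x` such that all conjugates of `x` have
absolute value at most `1`. -/
def LiftsDets {A : Type} [CommRing A] (ι : 𝓞 K →+* A) (r : AbsGal ℚ →* GL (Fin n) A)
    (s : K →+* ℂ) (R : AbsGal ℚ →* GL (Fin n) ℂ) : Prop :=
  ∀ (g : AbsGal ℚ) (x : 𝓞 K), (∀ σ : K →+* ℂ, ‖σ (x : K)‖ ≤ 1) →
    (r g).val.det = ι x → (R g).val.det = s (x : K)

end Pool.Agent.OneI74
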